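import Pool.Agent.H40.CT.Tot

/-!
# From strictness to open varieties

Module Mrg.

`exists_dominating`: a finite family of correspondences `g i` from `Z i` to `X` is replaced by one
correspondence `G` from the product of the `Z i`. For two varieties
`G = pull (fst Z₁ Z₂ ▷ X) g₁ * pull (fst (Z₁ ⊗ Z₂) X) (pull snd [pt₂])
+ pull (snd Z₁ Z₂ ▷ X) g₂ * pull (fst (Z₁ ⊗ Z₂) X) (pull fst [pt₁])`, `[pt] = push pt 1`. By
`act_pull`, `act G c = act g₁ (push fst (c * pull snd [pt₂])) + act g₂ (push snd (c * pull fst [pt₁]))`,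
and for `c = pull fst d₁ + pull snd d₂` this is `act g₁ (d₁ + q₁) + act g₂ (d₂ + q₂)` with rational
numbers `q₁`, `q₂`.
-/

open CategoryTheory MonoidalCategory CartesianMonoidalCategory

universe u v w

namespace Pool.Agent.H40.CT

variable {𝒱 : Type u} [Category.{v} 𝒱] [CartesianMonoidalCategory 𝒱]

namespace Theory

variable {dim : 𝒱 → ℕ} (T : Theory.{u, v, w} 𝒱 dim) {X Y Z W P : 𝒱}

theorem deg_point (x : 𝟙_ 𝒱 ⟶ X) : T.deg X (T.push x 1) = 1 := by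
  apply T.unit_bij.1
  rw [T.deg_push, T.algebraMap_deg, show toUnit (𝟙_ 𝒱) = 𝟙 _ from toUnit_unique _ _,
    T.push_id, map_one]

theorem push_fst_sum (d : T.R Z) (e w : T.R X) (hw : T.deg X w = 1) :
    T.push (fst Z X) ((T.pull (fst Z X) d + T.pull (snd Z X) e) * T.pull (snd Z X) w) =
      d + algebraMap ℚ _ (T.deg X (e * w)) := by
  rw [add_mul, map_add, T.push_mul, T.push_fst_pull_snd', hw, map_one, mul_one, ← map_mul,
    T.push_fst_pull_snd']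

theorem push_snd_sum (d w : T.R Z) (e : T.R X) (hw : T.deg Z w = 1) :
    T.push (snd Z X) ((T.pull (fst Z X) d + T.pull (snd Z X) e) * T.pull (fst Z X) w) =
      e + algebraMap ℚ _ (T.deg Z (d * w)) := by
  rw [add_mul, map_add, T.push_mul, T.push_snd_pull_fst, hw, map_one, mul_one, ← map_mul,
    T.push_snd_pull_fst, add_comm]

end Theory

variable (S : Cohomology.{u, v, w} 𝒱) {X : 𝒱}

theorem merge_two {Z₁ Z₂ : 𝒱} (g₁ : S.A.R (Z₁ ⊗ X)) (g₂ : S.A.R (Z₂ ⊗ X)) :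
    ∃ G : S.A.R ((Z₁ ⊗ Z₂) ⊗ X),
      (∀ z, ∃ z₁ z₂, S.A.act G z = S.A.act g₁ z₁ + S.A.act g₂ z₂) ∧
      ∀ d₁ d₂, ∃ (d : S.D.R (Z₁ ⊗ Z₂)) (c₁ : S.A.R Z₁) (c₂ : S.A.R Z₂),
        S.D.act (S.cl.app _ G) d =
          S.D.act (S.cl.app _ g₁) (d₁ + S.cl.app _ c₁) +
            S.D.act (S.cl.app _ g₂) (d₂ + S.cl.app _ c₂) := by
  refine ⟨S.A.pull (fst Z₁ Z₂ ▷ X) g₁ *
      S.A.pull (fst (Z₁ ⊗ Z₂) X) (S.A.pull (snd Z₁ Z₂) (S.A.push (S.pt Z₂) 1)) +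
    S.A.pull (snd Z₁ Z₂ ▷ X) g₂ *
      S.A.pull (fst (Z₁ ⊗ Z₂) X) (S.A.pull (fst Z₁ Z₂) (S.A.push (S.pt Z₁) 1)), ?_, ?_⟩
  · intro z
    rw [S.A.act_add_left, S.A.act_pull, S.A.act_pull]
    exact ⟨_, _, rfl⟩
  · intro d₁ d₂
    refine ⟨S.D.pull (fst Z₁ Z₂) d₁ + S.D.pull (snd Z₁ Z₂) d₂,
      algebraMap ℚ _ (S.D.deg Z₂ (d₂ * S.D.push (S.pt Z₂) 1)),
      algebraMap ℚ _ (S.D.deg Z₁ (d₁ * S.D.push (S.pt Z₁) 1)), ?_⟩
    rw [map_add, map_mul, map_mul, S.D.act_add_left]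
    simp only [S.cl.app_pull, S.cl.app_push, map_one, AlgHom.commutes]
    rw [S.D.act_pull, S.D.act_pull, S.D.push_fst_sum _ _ _ (S.D.deg_point _),
      S.D.push_snd_sum _ _ _ (S.D.deg_point _)]

theorem exists_dominating (X : 𝒱) (n : ℕ) : ∀ (Z : Fin n → 𝒱) (g : ∀ i, S.A.R (Z i ⊗ X)),
    ∃ (W : 𝒱) (G : S.A.R (W ⊗ X)),
      (∀ z, ∃ y : ∀ i, S.A.R (Z i), S.A.act G z = ∑ i, S.A.act (g i) (y i)) ∧
      ∀ d : ∀ i, S.D.R (Z i), ∃ (e : S.D.R W) (c : ∀ i, S.A.R (Z i)),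
        S.D.act (S.cl.app _ G) e =
          ∑ i, S.D.act (S.cl.app _ (g i)) (d i + S.cl.app _ (c i)) := by
  induction n with
  | zero =>
    intro Z g
    refine ⟨𝟙_ 𝒱, 0, fun z => ⟨fun i => 0, ?_⟩, fun d => ⟨0, fun i => 0, ?_⟩⟩
    · rw [S.A.act_zero_left, Fin.sum_univ_zero]
    · rw [S.D.act_zero_right, Fin.sum_univ_zero]
  | succ n ih =>
    intro Z g
    obtain ⟨W, G, hG1, hG2⟩ := ih (fun i => Z i.succ) (fun i => g i.succ)
    obtain ⟨K, hK1, hK2⟩ := merge_two S (g 0) G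
    refine ⟨Z 0 ⊗ W, K, fun z => ?_, fun d => ?_⟩
    · obtain ⟨z₁, z₂, hz⟩ := hK1 z
      obtain ⟨y, hy⟩ := hG1 z₂
      refine ⟨Fin.cons z₁ y, ?_⟩
      rw [hz, hy, Fin.sum_univ_succ]
      simp only [Fin.cons_zero, Fin.cons_succ]
    · obtain ⟨e, c, hc⟩ := hG2 fun i => d i.succ
      obtain ⟨e', c₁, c₂, he'⟩ := hK2 (d 0) e
      obtain ⟨y, hy⟩ := hG1 c₂
      refine ⟨e', Fin.cons c₁ fun i => c i + y i, ?_⟩
      rw [he', Fin.sum_univ_succ, S.D.act_add_right _ e, hc, ← S.cl.app_act G c₂, hy]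
      simp only [Fin.cons_zero, Fin.cons_succ, map_sum, map_add, S.cl.app_act]
      rw [← Finset.sum_add_distrib]
      congr 1
      refine Finset.sum_congr rfl fun i _ => ?_
      rw [← S.D.act_add_right, add_assoc]

theorem merge (h : Strict S) (X : 𝒱) (n : ℕ) : ∀ (Z : Fin n → 𝒱) (g : ∀ i, S.A.R (Z i ⊗ X))
    (d : ∀ i, S.D.R (Z i)) (a : S.A.R X), S.cl.app X a = ∑ i, S.D.act (S.cl.app _ (g i)) (d i) →
      ∃ z : ∀ i, S.A.R (Z i), a = ∑ i, S.A.act (g i) (z i) := by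
  intro Z g d a ha
  obtain ⟨W, G, hG1, hG2⟩ := exists_dominating S X n Z g
  obtain ⟨e, c, hc⟩ := hG2 d
  obtain ⟨z, hz⟩ := h W X G (a + ∑ i, S.A.act (g i) (c i)) e (by
    rw [hc, map_add, ha, map_sum, ← Finset.sum_add_distrib]
    refine Finset.sum_congr rfl fun i _ => ?_
    rw [S.cl.app_act, S.D.act_add_right])
  obtain ⟨y, hy⟩ := hG1 z
  refine ⟨fun i => y i - c i, ?_⟩
  simp only [S.A.act_sub_right, Finset.sum_sub_distrib]
  rw [← hy, ← hz, add_sub_cancel_right]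

end Pool.Agent.H40.CT
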