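import Pool.Agent.H40.CT.Tot
import Pool.Agent.H40.CT.Mrg

/-!
# Back: from kernels to injectivity and invisibility
-/

open CategoryTheory MonoidalCategory CartesianMonoidalCategory

universe u v w

namespace Pool.Agent.H40.CT

variable {𝒱 : Type u} [Category.{v} 𝒱] [CartesianMonoidalCategory 𝒱]
  (S : Cohomology.{u, v, w} 𝒱) {X Z : 𝒱}

/-- `act e 1 · b` and `1 · b` have the same degree when `e` fixes `d + 1` modulo homologically
trivial classes and `d` is orthogonal to all cycles -/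
private theorem deg_of_fix (e : S.A.R (Z ⊗ Z)) (d : S.D.R Z)
    (hd : ∀ z, S.D.deg Z (d * S.cl.app Z z) = 0)
    (he : S.bet.app Z (S.D.act (S.cl.app _ e) (d + 1)) = S.bet.app Z (d + 1)) (b : S.A.R Z) :
    S.A.deg Z (S.A.act e 1 * b) = S.A.deg Z b := by
  have h1 : S.D.deg Z (S.D.act (S.cl.app _ e) (d + 1) * S.cl.app Z b) =
      S.D.deg Z ((d + 1) * S.cl.app Z b) := by
    rw [← S.deg_bet, ← S.deg_bet, map_mul (S.bet.app Z), map_mul (S.bet.app Z), he]
  have h2 : S.D.deg Z (S.D.act (S.cl.app _ e) d * S.cl.app Z b) = 0 := by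
    rw [S.D.deg_act, ← S.cl.app_tr, ← S.cl.app_act, hd]
  rw [add_mul, map_add, hd, zero_add, one_mul, S.deg_clD, S.D.act_add_right, add_mul, map_add, h2,
    zero_add] at h1
  rw [← h1, ← S.deg_clD, map_mul (S.cl.app Z), S.cl.app_act, map_one]

theorem bb_of_kernel (h : Kernel S) : BB S := by
  intro X
  refine (injective_iff_map_eq_zero (S.cl.app X)).2 fun a ha => ?_
  set p := S.A.push (S.pt X) 1 with hp
  have hpd : S.A.deg X p = 1 := S.A.deg_point (S.pt X)
  set g : S.A.R (X ⊗ X) := S.A.pull (fst X X) p * S.A.pull (snd X X) a with hg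
  have hcg : S.cl.app _ g = 0 := by rw [hg, map_mul, S.cl.app_pull _ a, ha, map_zero, mul_zero]
  obtain ⟨e, he2, he1⟩ := h X X g (by rw [hcg, map_zero]) 1 (by rw [hcg, S.D.act_zero_left])
  have h1 : S.A.act g (S.A.act e 1) = 0 := by rw [← S.A.act_comp, he1, S.A.act_zero_left]
  rw [hg, S.A.act_ext] at h1
  have h2 : S.A.deg X (S.A.act e 1 * p) = 1 := by
    rw [← S.deg_clD, ← S.deg_bet, map_mul (S.cl.app X), map_mul (S.bet.app X), S.cl.app_act, map_one,
      he2, ← map_mul (S.bet.app X), one_mul, S.deg_bet, S.deg_clD, hpd]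
  rwa [h2, one_smul] at h1

theorem invisible_of_kernel (hN : ∀ Z, NumHom S Z) (h : Kernel S) : Invisible S := by
  have hB := bb_of_kernel S h
  intro Z X _ _ g _ hg0 d _ hd' a ha
  have hd : ∀ z, S.D.deg Z (d * S.cl.app Z z) = 0 := fun z => S.D.deg_eq_zero.2 (hd' z)
  suffices h0 : a = 0 by rw [← ha, h0, map_zero]
  set p := S.A.push (S.pt Z) 1 with hp
  have hpd : S.A.deg Z p = 1 := S.A.deg_point (S.pt Z)
  set c : S.A.R X := S.A.act g 1 + a with hc
  have hcH : S.bet.app X (S.cl.app X c) = 0 := by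
    rw [hc, map_add, map_add, ha, S.cl.app_act, S.bet.app_act, S.bet.app_act, hg0,
      S.H.act_zero_left, S.H.act_zero_left, add_zero]
  set g' : S.A.R (Z ⊗ X) := g - S.A.pull (fst Z X) p * S.A.pull (snd Z X) c with hg'
  have hg'0 : S.bet.app _ (S.cl.app _ g') = 0 := by
    rw [hg', map_sub, map_sub, hg0, map_mul, map_mul, S.cl.app_pull _ c, S.bet.app_pull _ (S.cl.app X c),
      hcH, map_zero, mul_zero, sub_zero]
  have hact : S.D.act (S.cl.app _ g') (d + 1) = 0 := by
    have h1 : S.D.deg Z ((d + 1) * S.cl.app Z p) = 1 := by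
      rw [add_mul, map_add, hd, zero_add, one_mul, S.deg_clD, hpd]
    rw [hg', map_sub, map_mul, S.cl.app_pull, S.cl.app_pull, S.D.act_sub_left, S.D.act_ext, h1,
      one_smul, S.D.act_add_right, ← ha, hc, map_add, S.cl.app_act, map_one]
    abel
  obtain ⟨e, he2, he1⟩ := h Z X g' hg'0 (d + 1) hact
  have hdeg := deg_of_fix S e d hd he2
  set z := S.A.act e 1 with hz
  have h1 : S.A.act g' z = 0 := by rw [hz, ← S.A.act_comp, he1, S.A.act_zero_left]
  have h2 : S.bet.app Z (S.cl.app Z (z - 1)) = 0 := by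
    refine (S.numHom_iff Z).1 (hN Z) (z - 1) fun b => ?_
    rw [sub_mul, map_sub, hdeg, one_mul, sub_self]
  have h3 : S.A.act g (z - 1) = 0 := by
    apply hB X
    rw [S.cl.app_act, map_zero, Theory.act, S.mul_eq_zero _ _ _ hg0 (by
      rw [S.bet.app_pull, h2, map_zero]), map_zero]
  rw [S.A.act_sub_right, sub_eq_zero] at h3
  rw [hg', S.A.act_sub_left, S.A.act_ext, hdeg, hpd, one_smul, h3, hc] at h1
  have h4 : -a = 0 := by rw [← h1]; abel
  exact neg_eq_zero.1 h4

end Pool.Agent.H40.CT
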