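import Pool.Agent.H40.CT.Defs

/-!
# Calculus of correspondences

Module Calc (helper40 / helper79 / helper82). Everything is formal from the axioms of `Theory`.
On the triple product `T = (Z ⊗ X) ⊗ Y` the three projections are
`q12 = fst (Z ⊗ X) Y`, `q23 = snd Z X ▷ Y`, `q13 = fst Z X ▷ Y`.
-/

open CategoryTheory MonoidalCategory CartesianMonoidalCategory

universe u v w

namespace Pool.Agent.H40.CT

variable {𝒱 : Type u} [Category.{v} 𝒱] [CartesianMonoidalCategory 𝒱] {dim : 𝒱 → ℕ}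

namespace Theory

variable (T : Theory.{u, v, w} 𝒱 dim) {X Y Z W P : 𝒱}

/-- The transposed correspondence. -/
def tr (g : T.R (Z ⊗ X)) : T.R (X ⊗ Z) := T.pull (lift (snd X Z) (fst X Z)) g

/-- Multiplication by a class, as a correspondence. -/
def mulcl (a : T.R Z) : T.R (Z ⊗ Z) := T.push (lift (𝟙 Z) (𝟙 Z)) a

/-! ### Linearity -/

theorem comp_add_left (g g' : T.R (Z ⊗ X)) (h : T.R (X ⊗ Y)) :
    T.comp (g + g') h = T.comp g h + T.comp g' h := by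
  simp only [comp, map_add, add_mul]

theorem comp_add_right (g : T.R (Z ⊗ X)) (h h' : T.R (X ⊗ Y)) :
    T.comp g (h + h') = T.comp g h + T.comp g h' := by
  simp only [comp, map_add, mul_add]

theorem comp_smul_left (q : ℚ) (g : T.R (Z ⊗ X)) (h : T.R (X ⊗ Y)) :
    T.comp (q • g) h = q • T.comp g h := by
  simp only [comp, map_smul, smul_mul_assoc]

theorem comp_smul_right (q : ℚ) (g : T.R (Z ⊗ X)) (h : T.R (X ⊗ Y)) :
    T.comp g (q • h) = q • T.comp g h := by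
  simp only [comp, map_smul, mul_smul_comm]

/-- Composition as a bilinear map. -/
def compL : T.R (Z ⊗ X) →ₗ[ℚ] T.R (X ⊗ Y) →ₗ[ℚ] T.R (Z ⊗ Y) :=
  LinearMap.mk₂ ℚ T.comp T.comp_add_left T.comp_smul_left T.comp_add_right T.comp_smul_right

@[simp] theorem compL_apply (g : T.R (Z ⊗ X)) (h : T.R (X ⊗ Y)) : T.compL g h = T.comp g h := rfl

theorem comp_zero_left (h : T.R (X ⊗ Y)) : T.comp (0 : T.R (Z ⊗ X)) h = 0 := by
  rw [← compL_apply, map_zero, LinearMap.zero_apply]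

theorem comp_zero_right (g : T.R (Z ⊗ X)) : T.comp g (0 : T.R (X ⊗ Y)) = 0 := by
  rw [← compL_apply, map_zero]

theorem comp_sub_left (g g' : T.R (Z ⊗ X)) (h : T.R (X ⊗ Y)) :
    T.comp (g - g') h = T.comp g h - T.comp g' h := by
  rw [← compL_apply, map_sub, LinearMap.sub_apply]; rfl

theorem comp_sub_right (g : T.R (Z ⊗ X)) (h h' : T.R (X ⊗ Y)) :
    T.comp g (h - h') = T.comp g h - T.comp g h' := by
  rw [← compL_apply, map_sub]; rfl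

theorem comp_sum_left {ι : Type*} (s : Finset ι) (g : ι → T.R (Z ⊗ X)) (h : T.R (X ⊗ Y)) :
    T.comp (∑ i ∈ s, g i) h = ∑ i ∈ s, T.comp (g i) h := by
  rw [← compL_apply, map_sum, LinearMap.sum_apply]; rfl

theorem comp_sum_right {ι : Type*} (s : Finset ι) (g : T.R (Z ⊗ X)) (h : ι → T.R (X ⊗ Y)) :
    T.comp g (∑ i ∈ s, h i) = ∑ i ∈ s, T.comp g (h i) := by
  rw [← compL_apply, map_sum]; rfl

/-- The action as a bilinear map. -/
def actL : T.R (Z ⊗ X) →ₗ[ℚ] T.R Z →ₗ[ℚ] T.R X :=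
  LinearMap.mk₂ ℚ T.act (fun g g' a => by simp only [act, add_mul, map_add])
    (fun q g a => by simp only [act, smul_mul_assoc, map_smul])
    (fun g a a' => by simp only [act, mul_add, map_add])
    (fun q g a => by simp only [act, mul_smul_comm, map_smul])

@[simp] theorem actL_apply (g : T.R (Z ⊗ X)) (a : T.R Z) : T.actL g a = T.act g a := rfl

theorem act_add_right (g : T.R (Z ⊗ X)) (a b : T.R Z) : T.act g (a + b) = T.act g a + T.act g b :=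
  map_add (T.actL g) a b

theorem act_sub_right (g : T.R (Z ⊗ X)) (a b : T.R Z) : T.act g (a - b) = T.act g a - T.act g b :=
  map_sub (T.actL g) a b

theorem act_add_left (g g' : T.R (Z ⊗ X)) (a : T.R Z) : T.act (g + g') a = T.act g a + T.act g' a := by
  rw [← actL_apply, map_add, LinearMap.add_apply]; rfl

theorem act_sub_left (g g' : T.R (Z ⊗ X)) (a : T.R Z) : T.act (g - g') a = T.act g a - T.act g' a := by
  rw [← actL_apply, map_sub, LinearMap.sub_apply]; rfl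

theorem act_zero_right (g : T.R (Z ⊗ X)) : T.act g (0 : T.R Z) = 0 := map_zero (T.actL g)

theorem act_zero_left (a : T.R Z) : T.act (0 : T.R (Z ⊗ X)) a = 0 := by
  rw [← actL_apply, map_zero, LinearMap.zero_apply]

/-! ### Base change -/

theorem push_id (X : 𝒱) (a) : T.push (𝟙 X) a = a := by
  have := T.push_iso (Iso.refl X) a
  simpa [T.pull_id] using this

/-- push-forward and pull-back along an isomorphism -/
theorem pull_iso (e : Z ≅ X) (a) : T.pull e.hom a = T.push e.inv a :=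
  (T.push_iso e.symm a).symm

theorem push_iso' {X Y : 𝒱} (f : X ⟶ Y) (g : Y ⟶ X) (h1 : f ≫ g = 𝟙 X) (h2 : g ≫ f = 𝟙 Y)
    (x : T.R X) : T.push f x = T.pull g x :=
  T.push_iso ⟨f, g, h1, h2⟩ x

theorem push_swap (X Y : 𝒱) (u : T.R (X ⊗ Y)) :
    T.push (lift (snd X Y) (fst X Y)) u = T.pull (lift (snd Y X) (fst Y X)) u := by
  apply T.push_iso'
  · ext <;> simp
  · ext <;> simp

theorem push_of_iso {W X Y : 𝒱} (a : W ⟶ X) (b : X ⟶ W) (h1 : a ≫ b = 𝟙 W) (h2 : b ≫ a = 𝟙 X)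
    (g : X ⟶ Y) (x : T.R X) : T.push g x = T.push (a ≫ g) (T.pull a x) := by
  rw [T.push_comp, T.push_iso' a b h1 h2, ← T.pull_comp, h2, T.pull_id]

theorem base_change_snd (f : Z ⟶ X) (Y : 𝒱) (a) :
    T.pull (snd Y X) (T.push f a) = T.push (Y ◁ f) (T.pull (snd Y Z) a) := by
  have h1 : snd Y X = lift (snd Y X) (fst Y X) ≫ fst X Y := by simp
  have h2 : snd Y Z = lift (snd Y Z) (fst Y Z) ≫ fst Z Y := by simp
  rw [h1, T.pull_comp, T.base_change, ← T.push_swap, ← T.push_comp, h2, T.pull_comp, ← T.push_swap,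
    ← T.push_comp]
  congr 1
  congr 1
  ext <;> simp

/-- base change along `snd Z X ▷ Y : (Z ⊗ X) ⊗ Y ⟶ X ⊗ Y` -/
theorem base_change_mid (f : W ⟶ X ⊗ Y) (Z : 𝒱) (a) :
    T.pull (snd Z X ▷ Y) (T.push f a) =
      T.push (lift (lift (fst Z W) (snd Z W ≫ f ≫ fst X Y)) (snd Z W ≫ f ≫ snd X Y))
        (T.pull (snd Z W) a) := by
  have h1 : snd Z X ▷ Y = (α_ Z X Y).hom ≫ snd Z (X ⊗ Y) := by ext <;> simp
  rw [h1, T.pull_comp, T.base_change_snd,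
    ← T.push_iso' (α_ Z X Y).inv (α_ Z X Y).hom (by simp) (by simp), ← T.push_comp]
  congr 1
  congr 1
  ext <;> simp

/-- base change along `fst Z X ▷ Y : (Z ⊗ X) ⊗ Y ⟶ Z ⊗ Y` -/
theorem base_change_out (f : W ⟶ Z ⊗ Y) (X : 𝒱) (a) :
    T.pull (fst Z X ▷ Y) (T.push f a) =
      T.push (lift (lift (fst W X ≫ f ≫ fst Z Y) (snd W X)) (fst W X ≫ f ≫ snd Z Y))
        (T.pull (fst W X) a) := by
  set χ : (Z ⊗ X) ⊗ Y ⟶ (Z ⊗ Y) ⊗ X :=
    lift (lift (fst (Z ⊗ X) Y ≫ fst Z X) (snd (Z ⊗ X) Y)) (fst (Z ⊗ X) Y ≫ snd Z X) with hχ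
  set χ' : (Z ⊗ Y) ⊗ X ⟶ (Z ⊗ X) ⊗ Y :=
    lift (lift (fst (Z ⊗ Y) X ≫ fst Z Y) (snd (Z ⊗ Y) X)) (fst (Z ⊗ Y) X ≫ snd Z Y) with hχ'
  have e1 : χ ≫ χ' = 𝟙 _ := by ext <;> simp [hχ, hχ']
  have e2 : χ' ≫ χ = 𝟙 _ := by ext <;> simp [hχ, hχ']
  have h1 : fst Z X ▷ Y = χ ≫ fst (Z ⊗ Y) X := by ext <;> simp [hχ]
  rw [h1, T.pull_comp, T.base_change, ← T.push_iso' χ' χ e2 e1, ← T.push_comp]
  congr 1
  congr 1
  ext <;> simp [hχ']

/-! ### Composition -/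

theorem tr_tr (g : T.R (Z ⊗ X)) : T.tr (T.tr g) = g := by
  rw [tr, tr, ← T.pull_comp]
  have : lift (snd Z X) (fst Z X) ≫ lift (snd X Z) (fst X Z) = 𝟙 _ := by ext <;> simp
  rw [this, T.pull_id]

theorem tr_comp (g : T.R (Z ⊗ X)) (h : T.R (X ⊗ Y)) :
    T.tr (T.comp g h) = T.comp (T.tr h) (T.tr g) := by
  set χ : (Z ⊗ X) ⊗ Y ⟶ (Y ⊗ X) ⊗ Z :=
    lift (lift (snd (Z ⊗ X) Y) (fst (Z ⊗ X) Y ≫ snd Z X)) (fst (Z ⊗ X) Y ≫ fst Z X) with hχ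
  set χ' : (Y ⊗ X) ⊗ Z ⟶ (Z ⊗ X) ⊗ Y :=
    lift (lift (snd (Y ⊗ X) Z) (fst (Y ⊗ X) Z ≫ snd Y X)) (fst (Y ⊗ X) Z ≫ fst Y X) with hχ'
  have h1 : χ ≫ χ' = 𝟙 _ := by ext <;> simp [hχ, hχ']
  have h2 : χ' ≫ χ = 𝟙 _ := by ext <;> simp [hχ, hχ']
  rw [tr, ← T.push_swap, comp, comp, T.push_of_iso χ χ' h1 h2 (fst Y X ▷ Z), ← T.push_comp,
    map_mul (T.pull _), tr, tr, ← T.pull_comp, ← T.pull_comp, ← T.pull_comp, ← T.pull_comp, mul_comm]
  have a1 : χ ≫ fst Y X ▷ Z = fst Z X ▷ Y ≫ lift (snd Z Y) (fst Z Y) := by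
    ext <;> simp [hχ]
  have a2 : (χ ≫ fst (Y ⊗ X) Z) ≫ lift (snd Y X) (fst Y X) = snd Z X ▷ Y := by
    ext <;> simp [hχ]
  have a3 : (χ ≫ snd Y X ▷ Z) ≫ lift (snd X Z) (fst X Z) = fst (Z ⊗ X) Y := by
    ext <;> simp [hχ]
  rw [a1, a2, a3]

theorem tr_mul (g g' : T.R (Z ⊗ X)) : T.tr (g * g') = T.tr g * T.tr g' := by
  simp only [tr, map_mul]

theorem tr_diag (X : 𝒱) : T.tr (T.diag X) = T.diag X := by
  rw [tr, diag, ← T.push_swap, ← T.push_comp]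
  have : lift (𝟙 X) (𝟙 X) ≫ lift (snd X X) (fst X X) = lift (𝟙 X) (𝟙 X) := by ext <;> simp
  rw [this]

theorem push_fst_tr (g : T.R (Z ⊗ X)) : T.push (fst X Z) (T.tr g) = T.push (snd Z X) g := by
  rw [tr, ← T.push_swap, ← T.push_comp]; simp

theorem push_snd_tr (g : T.R (Z ⊗ X)) : T.push (snd X Z) (T.tr g) = T.push (fst Z X) g := by
  rw [tr, ← T.push_swap, ← T.push_comp]; simp

theorem push_snd_comp_mul (g : T.R (Z ⊗ X)) (h : T.R (X ⊗ Y)) (e : T.R (Z ⊗ Y)) :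
    T.push (snd Z Y) (T.comp g h * e) = T.push (snd X Y) (h * T.comp (T.tr g) e) := by
  set χ : (Z ⊗ X) ⊗ Y ⟶ (X ⊗ Z) ⊗ Y :=
    lift (lift (fst (Z ⊗ X) Y ≫ snd Z X) (fst (Z ⊗ X) Y ≫ fst Z X)) (snd (Z ⊗ X) Y) with hχ
  set χ' : (X ⊗ Z) ⊗ Y ⟶ (Z ⊗ X) ⊗ Y :=
    lift (lift (fst (X ⊗ Z) Y ≫ snd X Z) (fst (X ⊗ Z) Y ≫ fst X Z)) (snd (X ⊗ Z) Y) with hχ'
  have h1 : χ ≫ χ' = 𝟙 _ := by ext <;> simp [hχ, hχ']
  have h2 : χ' ≫ χ = 𝟙 _ := by ext <;> simp [hχ, hχ']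
  rw [mul_comm, comp, comp, ← T.push_mul, ← T.push_mul, ← T.push_comp, ← T.push_comp]
  rw [T.push_of_iso χ χ' h1 h2 (fst X Z ▷ Y ≫ snd X Y), map_mul (T.pull χ), map_mul (T.pull χ),
    tr, ← T.pull_comp, ← T.pull_comp, ← T.pull_comp, ← T.pull_comp]
  have a0 : χ ≫ fst X Z ▷ Y ≫ snd X Y = fst Z X ▷ Y ≫ snd Z Y := by simp [hχ]
  have a1 : χ ≫ fst X Z ▷ Y = snd Z X ▷ Y := by ext <;> simp [hχ]
  have a2 : (χ ≫ fst (X ⊗ Z) Y) ≫ lift (snd X Z) (fst X Z) = fst (Z ⊗ X) Y := by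
    ext <;> simp [hχ]
  have a3 : χ ≫ snd X Z ▷ Y = fst Z X ▷ Y := by ext <;> simp [hχ]
  rw [a0, a1, a2, a3]
  congr 1
  ring

theorem push_fst_comp_mul (g : T.R (Z ⊗ X)) (h : T.R (X ⊗ Y)) (e : T.R (Z ⊗ Y)) :
    T.push (fst Z Y) (T.comp g h * e) = T.push (fst Z X) (g * T.comp e (T.tr h)) := by
  have h1 := T.push_snd_comp_mul (T.tr h) (T.tr g) (T.tr e)
  rw [← T.tr_comp, ← T.tr_mul, T.push_snd_tr, T.tr_tr] at h1
  rw [h1, ← T.push_snd_tr (g * _), T.tr_mul, T.tr_comp, T.tr_tr]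

theorem comp_assoc (g : T.R (Z ⊗ X)) (h : T.R (X ⊗ Y)) (e : T.R (Y ⊗ W)) :
    T.comp (T.comp g h) e = T.comp g (T.comp h e) := by
  have e1 : T.comp (T.comp g h) e = T.push ((fst Z X ▷ Y) ▷ W ≫ fst Z Y ▷ W)
      (T.pull (fst _ W ≫ fst _ Y) g * T.pull (fst _ W ≫ snd Z X ▷ Y) h *
        T.pull ((fst Z X ▷ Y) ▷ W ≫ snd Z Y ▷ W) e) := by
    rw [comp, comp, T.base_change, mul_comm, ← T.push_mul, ← T.push_comp,
      map_mul (T.pull _), ← T.pull_comp, ← T.pull_comp, ← T.pull_comp, mul_comm]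
  have e2 : T.comp g (T.comp h e) = T.push
        (lift (fst Z ((X ⊗ Y) ⊗ W)) (snd Z ((X ⊗ Y) ⊗ W) ≫ snd (X ⊗ Y) W))
      (T.pull (lift (fst Z ((X ⊗ Y) ⊗ W)) (snd Z ((X ⊗ Y) ⊗ W) ≫ fst (X ⊗ Y) W ≫ fst X Y)) g *
        (T.pull (snd Z ((X ⊗ Y) ⊗ W) ≫ fst (X ⊗ Y) W) h *
        T.pull (snd Z ((X ⊗ Y) ⊗ W) ≫ snd X Y ▷ W) e)) := by
    rw [comp, comp, T.base_change_mid, ← T.push_mul, ← T.push_comp, ← T.pull_comp,
      map_mul (T.pull _), ← T.pull_comp, ← T.pull_comp]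
    congr 2
    · ext <;> simp
    · congr 2
      congr 1
      ext <;> simp
  rw [e1, e2, T.push_of_iso (lift (fst _ W ≫ fst _ Y ≫ fst Z X)
      (lift (lift (fst _ W ≫ fst _ Y ≫ snd Z X) (fst _ W ≫ snd _ Y)) (snd _ W)))
      (lift (lift (lift (fst Z _) (snd Z _ ≫ fst _ W ≫ fst X Y)) (snd Z _ ≫ fst _ W ≫ snd X Y))
        (snd Z _ ≫ snd _ W)) (by ext <;> simp) (by ext <;> simp) (lift _ _)]
  set χ := lift (fst _ W ≫ fst _ Y ≫ fst Z X)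
      (lift (lift (fst _ W ≫ fst _ Y ≫ snd Z X) (fst _ W ≫ snd _ Y)) (snd _ W)) with hχ
  rw [map_mul (T.pull _), map_mul (T.pull _), ← T.pull_comp, ← T.pull_comp, ← T.pull_comp, mul_assoc]
  have b1 : χ ≫ lift (fst Z ((X ⊗ Y) ⊗ W)) (snd Z ((X ⊗ Y) ⊗ W) ≫ snd (X ⊗ Y) W) =
      (fst Z X ▷ Y) ▷ W ≫ fst Z Y ▷ W := by ext <;> simp [hχ]
  have b2 : χ ≫ lift (fst Z ((X ⊗ Y) ⊗ W)) (snd Z ((X ⊗ Y) ⊗ W) ≫ fst (X ⊗ Y) W ≫ fst X Y) =
      fst _ W ≫ fst _ Y := by ext <;> simp [hχ]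
  have b3 : χ ≫ snd Z ((X ⊗ Y) ⊗ W) ≫ fst (X ⊗ Y) W = fst _ W ≫ snd Z X ▷ Y := by
    ext <;> simp [hχ]
  have b4 : χ ≫ snd Z ((X ⊗ Y) ⊗ W) ≫ snd X Y ▷ W = (fst Z X ▷ Y) ▷ W ≫ snd Z Y ▷ W := by
    ext <;> simp [hχ]
  rw [b1, b2, b3, b4]

/-- Composition with a correspondence supported on a point. -/
theorem comp_ext (g : T.R (Z ⊗ X)) (a : T.R X) (b : T.R Y) :
    T.comp g (T.pull (fst X Y) a * T.pull (snd X Y) b) =
      T.pull (fst Z Y) (T.push (fst Z X) (g * T.pull (snd Z X) a)) * T.pull (snd Z Y) b := by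
  have a1 : snd Z X ▷ Y ≫ fst X Y = fst (Z ⊗ X) Y ≫ snd Z X := by simp
  have a2 : snd Z X ▷ Y ≫ snd X Y = fst Z X ▷ Y ≫ snd Z Y := by simp
  rw [comp, map_mul (T.pull _), ← T.pull_comp, ← T.pull_comp, a1, a2, T.pull_comp, T.pull_comp,
    ← mul_assoc, ← map_mul (T.pull _), mul_comm, T.push_mul, T.base_change, mul_comm]

theorem ext_comp (a : T.R Z) (b : T.R X) (h : T.R (X ⊗ Y)) :
    T.comp (T.pull (fst Z X) a * T.pull (snd Z X) b) h =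
      T.pull (fst Z Y) a * T.pull (snd Z Y) (T.push (snd X Y) (h * T.pull (fst X Y) b)) := by
  have h0 : ∀ {A B : 𝒱} (u : T.R A) (v : T.R B),
      T.tr (T.pull (fst A B) u * T.pull (snd A B) v) = T.pull (fst B A) v * T.pull (snd B A) u := by
    intro A B u v
    rw [tr, map_mul, ← T.pull_comp, ← T.pull_comp, mul_comm]
    simp
  rw [← T.tr_tr (T.comp _ h), T.tr_comp, h0, T.comp_ext, h0]
  congr 2
  have h1 : T.pull (snd Y X) b = T.tr (T.pull (fst X Y) b) := by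
    rw [tr, ← T.pull_comp]
    simp
  rw [h1, ← T.tr_mul, T.push_fst_tr]

theorem comp_mulcl (g : T.R (Z ⊗ X)) (a : T.R X) :
    T.comp g (T.mulcl a) = g * T.pull (snd Z X) a := by
  have a1 : (lift (lift (fst Z X) (snd Z X ≫ lift (𝟙 X) (𝟙 X) ≫ fst X X))
      (snd Z X ≫ lift (𝟙 X) (𝟙 X) ≫ snd X X)) = lift (𝟙 (Z ⊗ X)) (snd Z X) := by
    ext <;> simp
  rw [comp, mulcl, T.base_change_mid, a1, ← T.push_mul, ← T.push_comp, ← T.pull_comp]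
  have a2 : lift (𝟙 (Z ⊗ X)) (snd Z X) ≫ fst Z X ▷ X = 𝟙 _ := by ext <;> simp
  have a3 : lift (𝟙 (Z ⊗ X)) (snd Z X) ≫ fst (Z ⊗ X) X = 𝟙 _ := by simp
  rw [a2, a3, T.push_id, T.pull_id]

theorem mulcl_comp (a : T.R Z) (g : T.R (Z ⊗ X)) :
    T.comp (T.mulcl a) g = T.pull (fst Z X) a * g := by
  rw [comp, mulcl, T.base_change, mul_comm, ← T.push_mul, ← T.push_comp, ← T.pull_comp]
  have a1 : lift (𝟙 Z) (𝟙 Z) ▷ X ≫ fst Z Z ▷ X = 𝟙 _ := by ext <;> simp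
  have a2 : lift (𝟙 Z) (𝟙 Z) ▷ X ≫ snd Z Z ▷ X = 𝟙 _ := by ext <;> simp
  rw [a1, a2, T.push_id, T.pull_id, mul_comm]

theorem comp_diag (g : T.R (Z ⊗ X)) : T.comp g (T.diag X) = g := by
  change T.comp g (T.mulcl 1) = g
  rw [T.comp_mulcl, map_one, mul_one]

theorem diag_comp (g : T.R (Z ⊗ X)) : T.comp (T.diag Z) g = g := by
  change T.comp (T.mulcl 1) g = g
  rw [T.mulcl_comp, map_one, one_mul]

theorem act_comp (g : T.R (Z ⊗ X)) (h : T.R (X ⊗ Y)) (a : T.R Z) :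
    T.act (T.comp g h) a = T.act h (T.act g a) := by
  have e1 : T.act (T.comp g h) a = T.push (snd (Z ⊗ X) Y) (T.pull (fst (Z ⊗ X) Y ≫ fst Z X) a *
      (T.pull (fst (Z ⊗ X) Y) g * T.pull (snd Z X ▷ Y) h)) := by
    rw [act, comp, mul_comm, ← T.push_mul, ← T.push_comp, ← T.pull_comp]
    simp
  have e2 : T.act h (T.act g a) = T.push (snd (Z ⊗ X) Y) (T.pull (fst (Z ⊗ X) Y ≫ fst Z X) a *
      (T.pull (fst (Z ⊗ X) Y) g * T.pull (snd Z X ▷ Y) h)) := by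
    rw [act, act, T.base_change, ← T.push_mul, ← T.push_comp, map_mul (T.pull _), T.pull_comp]
    congr 1
    · simp
    · ring
  rw [e1, e2]

/-- The action on pull-backs from the second factor is projection formula. -/
theorem act_graph (f : Z ⟶ X) (c a : T.R Z) :
    T.act (T.push (lift (𝟙 Z) f) c) a = T.push f (c * a) := by
  rw [act, mul_comm, ← T.push_mul, ← T.push_comp, ← T.pull_comp]
  have a1 : lift (𝟙 Z) f ≫ fst Z X = 𝟙 Z := by simp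
  have a2 : lift (𝟙 Z) f ≫ snd Z X = f := by simp
  rw [a1, a2, T.pull_id, mul_comm]

/-! ### Points -/

theorem comp_ptl (g : T.R (Z ⊗ X)) (x : 𝟙_ 𝒱 ⟶ X) :
    T.comp g (T.ptl x) = T.pull (fst Z X) (T.pull (lift (𝟙 Z) (toUnit Z ≫ x)) g) := by
  have h0 : T.ptl x = T.pull (fst X X) (T.push x 1) * T.pull (snd X X) 1 := by
    rw [map_one (T.pull (snd X X)), mul_one, ptl]
  have a1 : Z ◁ x ≫ fst Z X = fst Z (𝟙_ 𝒱) := by simp
  have a3 : lift (𝟙 Z) (toUnit Z) ≫ Z ◁ x = lift (𝟙 Z) (toUnit Z ≫ x) := by ext <;> simp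
  rw [h0, T.comp_ext, map_one (T.pull (snd Z X)), mul_one, T.base_change_snd,
    map_one (T.pull (snd Z (𝟙_ 𝒱))), ← T.push_mul, mul_one,
    ← T.push_comp, a1, T.push_iso' (fst Z (𝟙_ 𝒱)) (lift (𝟙 Z) (toUnit Z)) (by ext; simp)
      (by simp), ← a3, T.pull_comp (lift _ _) _ g]

theorem ptr_comp (z : 𝟙_ 𝒱 ⟶ Z) (g : T.R (Z ⊗ X)) :
    T.comp (T.ptr z) g = T.pull (snd Z X) (T.pull (lift (toUnit X ≫ z) (𝟙 X)) g) := by
  have h0 : T.ptr z = T.pull (fst Z Z) 1 * T.pull (snd Z Z) (T.push z 1) := by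
    rw [map_one (T.pull (fst Z Z)), one_mul, ptr]
  have a1 : z ▷ X ≫ snd Z X = snd (𝟙_ 𝒱) X := by simp
  have a3 : lift (toUnit X) (𝟙 X) ≫ z ▷ X = lift (toUnit X ≫ z) (𝟙 X) := by ext <;> simp
  rw [h0, T.ext_comp, map_one (T.pull (fst Z X)), one_mul, T.base_change,
    map_one (T.pull (fst (𝟙_ 𝒱) X)), ← T.push_mul, mul_one,
    ← T.push_comp, a1, T.push_iso' (snd (𝟙_ 𝒱) X) (lift (toUnit X) (𝟙 X)) (by ext; simp)
      (by simp), ← a3, T.pull_comp (lift _ _) _ g]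

/-! ### Slots -/

theorem slot (a : W ⟶ X) (b : W ⟶ P) (c : T.R W) (m : T.R P) :
    T.push (fst X P) (T.push (lift a b) c * T.pull (snd X P) m) = T.push a (c * T.pull b m) := by
  rw [mul_comm, ← T.push_mul, ← T.push_comp, ← T.pull_comp]
  have a1 : lift a b ≫ fst X P = a := by simp
  have a2 : lift a b ≫ snd X P = b := by simp
  rw [a1, a2, mul_comm]

theorem decompose {n : ℕ} (x y : Fin n → T.R P)
    (h : T.diag P = ∑ i, T.pull (fst P P) (x i) * T.pull (snd P P) (y i)) (c : T.R (X ⊗ P)) :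
    c = ∑ i, T.pull (fst X P) (T.push (fst X P) (c * T.pull (snd X P) (x i))) *
      T.pull (snd X P) (y i) := by
  conv_lhs => rw [← T.comp_diag c, h, T.comp_sum_right]
  exact Finset.sum_congr rfl fun i _ => T.comp_ext c (x i) (y i)

/-! ### Degrees -/

theorem unit_gr (k : ℕ) (hk : 0 < k) (a : T.R (𝟙_ 𝒱)) (ha : a ∈ T.gr (𝟙_ 𝒱) k) : a = 0 := by
  obtain ⟨q, rfl⟩ := T.unit_bij.2 a
  have h0 : algebraMap ℚ (T.R (𝟙_ 𝒱)) q ∈ T.gr (𝟙_ 𝒱) 0 := SetLike.algebraMap_mem_graded _ q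
  have h1 := DirectSum.decompose_of_mem_same (T.gr (𝟙_ 𝒱)) h0
  have h2 := DirectSum.decompose_of_mem_ne (T.gr (𝟙_ 𝒱)) ha (Nat.pos_iff_ne_zero.1 hk)
  rw [← h1, h2]

theorem push_unit_gr (hd : dim (𝟙_ 𝒱) = 0) (k : ℕ) (hk : k ≠ dim X) (a : T.R X)
    (ha : a ∈ T.gr X k) : T.push (toUnit X) a = 0 := by
  rcases lt_or_gt_of_ne hk with h | h
  · exact T.push_gr_zero _ k (by rw [hd]; omega) a ha
  · exact T.unit_gr (k - dim X) (by omega) _ (T.push_gr _ k (k - dim X) (by rw [hd]; omega) a ha)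

variable (hd : ∀ X Y : 𝒱, dim (X ⊗ Y) = dim X + dim Y)
include hd

theorem comp_gr {a b c : ℕ} (g : T.R (Z ⊗ X)) (h : T.R (X ⊗ Y)) (hg : g ∈ T.gr _ a)
    (hh : h ∈ T.gr _ b) (hc : a + b = c + dim X) : T.comp g h ∈ T.gr _ c := by
  refine T.push_gr _ (a + b) c ?_ _ (SetLike.mul_mem_graded (T.pull_gr _ _ _ hg)
    (T.pull_gr _ _ _ hh))
  simp only [hd]
  omega

theorem act_gr {j p m : ℕ} (g : T.R (Z ⊗ X)) (a : T.R Z) (hg : g ∈ T.gr _ j)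
    (ha : a ∈ T.gr Z p) (hm : j + p = m + dim Z) : T.act g a ∈ T.gr X m := by
  refine T.push_gr _ (j + p) m ?_ _ (SetLike.mul_mem_graded hg (T.pull_gr _ _ _ ha))
  simp only [hd]
  omega

theorem act_gr_zero {j p : ℕ} (g : T.R (Z ⊗ X)) (a : T.R Z) (hg : g ∈ T.gr _ j)
    (ha : a ∈ T.gr Z p) (hm : j + p < dim Z) : T.act g a = 0 := by
  refine T.push_gr_zero _ (j + p) ?_ _ (SetLike.mul_mem_graded hg (T.pull_gr _ _ _ ha))
  simp only [hd]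
  omega

theorem mulcl_gr {p : ℕ} (a : T.R Z) (ha : a ∈ T.gr Z p) : T.mulcl a ∈ T.gr _ (p + dim Z) := by
  refine T.push_gr _ p (p + dim Z) ?_ _ ha
  simp only [hd]
  omega

end Theory

theorem Theory.tr_gr (T : Theory.{u, v, w} 𝒱 dim) {X Z : 𝒱} {a : ℕ} (g : T.R (Z ⊗ X))
    (hg : g ∈ T.gr _ a) : T.tr g ∈ T.gr _ a := T.pull_gr _ _ _ hg

namespace TheoryHom

variable {S T : Theory.{u, v, w} 𝒱 dim} (φ : TheoryHom S T) {X Y Z : 𝒱}

theorem app_comp (g : S.R (Z ⊗ X)) (h : S.R (X ⊗ Y)) :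
    φ.app _ (S.comp g h) = T.comp (φ.app _ g) (φ.app _ h) := by
  simp only [Theory.comp, φ.app_push, map_mul, φ.app_pull]

theorem app_act (g : S.R (Z ⊗ X)) (a : S.R Z) : φ.app _ (S.act g a) = T.act (φ.app _ g) (φ.app _ a) := by
  simp only [Theory.act, φ.app_push, map_mul, φ.app_pull]

theorem app_tr (g : S.R (Z ⊗ X)) : φ.app _ (S.tr g) = T.tr (φ.app _ g) := by
  simp only [Theory.tr, φ.app_pull]

theorem app_diag (X : 𝒱) : φ.app _ (S.diag X) = T.diag X := by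
  simp only [Theory.diag, φ.app_push, map_one]

theorem app_mulcl (a : S.R X) : φ.app _ (S.mulcl a) = T.mulcl (φ.app _ a) := by
  simp only [Theory.mulcl, φ.app_push]

end TheoryHom

end Pool.Agent.H40.CT
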