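import Pool.Agent.H40.CT.Lin

/-!
# More calculus of correspondences

Module Calc2 (helper40).
-/

open CategoryTheory MonoidalCategory CartesianMonoidalCategory

universe u v w

namespace Pool.Agent.H40.CT

variable {𝒱 : Type u} [Category.{v} 𝒱] [CartesianMonoidalCategory 𝒱] {dim : 𝒱 → ℕ}

namespace Theory

variable (T : Theory.{u, v, w} 𝒱 dim) {X Y Z W P : 𝒱}

theorem pull_push_toUnit (a : T.R X) :
    T.pull (toUnit Y) (T.push (toUnit X) a) = algebraMap ℚ (T.R Y) (T.deg X a) := by
  rw [← T.algebraMap_deg, AlgHom.commutes]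

/-- the push-forward of a product of pull-backs -/
theorem push_fst_ext (a : T.R X) (b : T.R P) :
    T.push (fst X P) (T.pull (fst X P) a * T.pull (snd X P) b) = T.deg P b • a := by
  have h : T.tr (T.pull (fst P X) b) = T.pull (snd X P) b := by
    rw [tr, ← T.pull_comp]; simp
  rw [T.push_mul, ← h, T.push_fst_tr, T.push_snd_pull_fst, Algebra.algebraMap_eq_smul_one,
    mul_smul_comm, mul_one]

theorem push_snd_ext (a : T.R X) (b : T.R P) :
    T.push (snd X P) (T.pull (fst X P) a * T.pull (snd X P) b) = T.deg X a • b := by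
  rw [mul_comm, T.push_mul, T.push_snd_pull_fst, Algebra.algebraMap_eq_smul_one,
    mul_smul_comm, mul_one]

/-- the degree of a product of pull-backs -/
theorem deg_ext (a : T.R X) (b : T.R Y) :
    T.deg (X ⊗ Y) (T.pull (fst X Y) a * T.pull (snd X Y) b) = T.deg X a * T.deg Y b := by
  rw [← T.deg_push (snd X Y), T.push_snd_ext, map_smul, smul_eq_mul]

/-- A product correspondence. -/
theorem act_box (g : T.R (Z ⊗ X)) (m : T.R P) (c : T.R (Z ⊗ P)) :
    T.act (T.pull (fst Z P ▷ X) g * T.pull (fst (Z ⊗ P) X ≫ snd Z P) m) c =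
      T.act g (T.push (fst Z P) (c * T.pull (snd Z P) m)) := by
  have h : snd (Z ⊗ P) X = fst Z P ▷ X ≫ snd Z X := by simp
  rw [act, act, h, T.push_comp, T.base_change, ← T.push_mul, T.pull_comp, mul_assoc,
    map_mul (T.pull _) c, mul_comm (T.pull _ c)]

/-- The same with the factors exchanged. -/
theorem act_box' (g : T.R (Z ⊗ X)) (m : T.R P) (c : T.R (P ⊗ Z)) :
    T.act (T.pull (snd P Z ▷ X) g * T.pull (fst (P ⊗ Z) X ≫ fst P Z) m) c =
      T.act g (T.push (snd P Z) (c * T.pull (fst P Z) m)) := by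
  have h : snd (P ⊗ Z) X = snd P Z ▷ X ≫ snd Z X := by simp
  rw [act, act, h, T.push_comp, T.base_change, ← T.push_mul, T.pull_comp, mul_assoc,
    map_mul (T.pull _) c, mul_comm (T.pull _ c)]

theorem push_fst_point (x : 𝟙_ 𝒱 ⟶ P) (c : T.R (X ⊗ P)) :
    T.push (fst X P) (c * T.pull (snd X P) (T.push x 1)) =
      T.pull (lift (𝟙 X) (toUnit X ≫ x)) c := by
  rw [T.base_change_snd, map_one, mul_comm, ← mul_comm c, ← T.push_mul, ← T.push_comp, mul_one,
    whiskerLeft_fst, T.push_iso' (fst X (𝟙_ 𝒱)) (lift (𝟙 X) (toUnit X)) (by ext; simp) (by simp),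
    ← T.pull_comp]
  congr 1
  congr 1
  ext <;> simp

theorem push_snd_point (x : 𝟙_ 𝒱 ⟶ P) (c : T.R (P ⊗ X)) :
    T.push (snd P X) (c * T.pull (fst P X) (T.push x 1)) =
      T.pull (lift (toUnit X ≫ x) (𝟙 X)) c := by
  rw [T.base_change, map_one, ← T.push_mul, ← T.push_comp, mul_one,
    whiskerRight_snd, T.push_iso' (snd (𝟙_ 𝒱) X) (lift (toUnit X) (𝟙 X)) (by ext; simp) (by simp),
    ← T.pull_comp]
  congr 1
  congr 1
  ext <;> simp

end Theory

/-- `clH` as a morphism of theories -/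
noncomputable def Cohomology.clHom (S : Cohomology.{u, v, w} 𝒱) : TheoryHom S.A S.H where
  app := S.clH
  app_pull f a := by rw [S.clH_apply, S.clH_apply, S.cl.app_pull, S.bet.app_pull]
  app_push f a := by rw [S.clH_apply, S.clH_apply, S.cl.app_push, S.bet.app_push]
  app_gr X k a ha := S.clH_gr k a ha

variable (S : Cohomology.{u, v, w} 𝒱) {X Y Z : 𝒱}

theorem clH_pull (f : Z ⟶ X) (a : S.A.R X) : S.clH Z (S.A.pull f a) = S.H.pull f (S.clH X a) :=
  S.clHom.app_pull f a

theorem clH_push (f : Z ⟶ X) (a : S.A.R Z) : S.clH X (S.A.push f a) = S.H.push f (S.clH Z a) :=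
  S.clHom.app_push f a

/-- homologically trivial times homologically trivial is zero -/
theorem mul_zero_of_BB (hB : BB S) (a b : S.A.R X) (ha : S.clH X a = 0) (hb : S.clH X b = 0) :
    a * b = 0 := by
  apply hB X
  rw [map_mul, map_zero]
  exact S.mul_eq_zero X _ _ ha hb

end Pool.Agent.H40.CT
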