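import Pool.Agent.H40.CT.Lin

/-!
# Strictness in Betti cohomology and generalized inverses, from conjecture D

Module Reg (helper79).
-/

open CategoryTheory MonoidalCategory CartesianMonoidalCategory

universe u v w

namespace Pool.Agent.H40.CT

variable {𝒱 : Type u} [Category.{v} 𝒱] [CartesianMonoidalCategory 𝒱]

namespace Theory

variable {dim : 𝒱 → ℕ} (T : Theory.{u, v, w} 𝒱 dim) {X Y Z W P : 𝒱}

theorem comp_gr_zero (hd : ∀ X Y : 𝒱, dim (X ⊗ Y) = dim X + dim Y) {a b : ℕ} (g : T.R (Z ⊗ X))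
    (h : T.R (X ⊗ Y)) (hg : g ∈ T.gr _ a) (hh : h ∈ T.gr _ b) (hc : a + b < dim X) :
    T.comp g h = 0 := by
  have h1 : T.pull (fst (Z ⊗ X) Y) g * T.pull (snd Z X ▷ Y) h ∈ T.gr _ (a + b) :=
    SetLike.mul_mem_graded (T.pull_gr _ _ _ hg) (T.pull_gr _ _ _ hh)
  refine T.push_gr_zero (fst Z X ▷ Y) (a + b) ?_ _ h1
  rw [hd, hd, hd]
  omega

/-- the part of codimension `k` -/
def part (X : 𝒱) (k : ℕ) : T.R X →ₗ[ℚ] T.R X :=
  (T.gr X k).subtype ∘ₗ (DirectSum.component ℚ ℕ _ k) ∘ₗ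
    (DirectSum.decomposeLinearEquiv (T.gr X)).toLinearMap

theorem part_apply (k : ℕ) (x : T.R X) :
    T.part X k x = (DirectSum.decompose (T.gr X) x k : T.R X) := rfl

theorem part_mem (k : ℕ) (x : T.R X) : T.part X k x ∈ T.gr X k := by
  rw [part_apply]; exact SetLike.coe_mem _

theorem part_of_mem (k : ℕ) {x : T.R X} (hx : x ∈ T.gr X k) : T.part X k x = x := by
  rw [part_apply, DirectSum.decompose_of_mem_same _ hx]

theorem part_of_mem_ne {k l : ℕ} (hkl : l ≠ k) {x : T.R X} (hx : x ∈ T.gr X l) :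
    T.part X k x = 0 := by
  rw [part_apply, DirectSum.decompose_of_mem_ne _ hx hkl]

theorem exists_sum_part (x : T.R X) : ∃ s : Finset ℕ, x = ∑ k ∈ s, T.part X k x := by
  classical
  exact ⟨_, (DirectSum.sum_support_decompose (T.gr X) x).symm⟩

end Theory

namespace Cohomology

variable (S : Cohomology.{u, v, w} 𝒱) {X Y Z : 𝒱}

theorem exists_clH_act (hX : NumHom S X) (hZ : NumHom S Z) (g : S.A.R (Z ⊗ X)) (a : S.A.R X)
    (h : S.H.R Z) (hh : S.clH X a = S.H.act (S.clH _ g) h) :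
    ∃ z, S.clH X a = S.clH X (S.A.act g z) := by
  obtain ⟨_, ⟨z, rfl⟩, hz⟩ := S.mem_of_orthogonal hX (LinearMap.range (S.A.actL g)) a (by
    intro c hc
    have h1 : S.clH Z (S.A.act (S.A.tr g) c) = 0 := by
      refine (S.numHom_iff Z).1 hZ _ fun b => ?_
      rw [S.A.deg_act, S.A.tr_tr]
      exact hc _ ⟨b, rfl⟩
    rw [← S.deg_clH, map_mul, hh, mul_comm, S.H.deg_act, ← S.clH_tr, ← S.clH_act, h1, mul_zero,
      map_zero])
  exact ⟨z, hz.symm⟩

theorem exists_regular (hD : ∀ X, NumHom S X) (g : S.A.R (Z ⊗ X)) :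
    ∃ s : S.A.R (X ⊗ Z), S.clH _ (S.A.comp (S.A.comp g s) g) = S.clH _ g := by
  obtain ⟨_, ⟨s, rfl⟩, hs⟩ := S.mem_of_orthogonal (hD (Z ⊗ X))
    (LinearMap.range ((S.A.compL.flip g).comp (S.A.compL (Y := Z) g))) g (by
    intro c hc
    have h1 : S.clH _ (S.A.comp (S.A.tr g) (S.A.comp c (S.A.tr g))) = 0 := by
      refine (S.numHom_iff _).1 (hD _) _ fun b => ?_
      have := hc _ ⟨b, rfl⟩
      simp only [LinearMap.comp_apply, LinearMap.flip_apply, Theory.compL_apply] at this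
      rw [mul_comm, S.A.deg_comp', S.A.deg_comp, mul_comm] at this
      exact this
    obtain ⟨t, ht⟩ := S.regular (S.cl.app _ g)
    rw [← S.deg_clH, map_mul, S.clH_apply g, ← ht, S.bet.app_comp, S.bet.app_comp, ← S.clH_apply g,
      mul_comm, S.H.deg_comp', S.H.deg_comp]
    rw [← S.clH_tr, ← S.clH_comp, ← S.clH_comp, h1, mul_zero, map_zero])
  exact ⟨s, hs⟩

/-- The generalized inverse can be chosen homogeneous. -/
theorem exists_regular_gr (hD : ∀ X, NumHom S X) {m n : ℕ} (hmn : m + n = S.dim Z + S.dim X)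
    (g : S.A.R (Z ⊗ X)) (hg : g ∈ S.A.gr _ m) :
    ∃ s ∈ S.A.gr (X ⊗ Z) n, S.clH _ (S.A.comp (S.A.comp g s) g) = S.clH _ g := by
  obtain ⟨s, hs⟩ := S.exists_regular hD g
  refine ⟨S.A.part _ n s, S.A.part_mem n s, ?_⟩
  obtain ⟨F, hF⟩ := S.A.exists_sum_part s
  have hG := S.clH_gr m g hg
  -- the summands and their codimensions
  have h1 : ∀ k, k ≠ n → S.H.part _ m (S.clH _ (S.A.comp (S.A.comp g (S.A.part _ k s)) g)) = 0 := by
    intro k hk
    by_cases h2 : m + k < S.dim X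
    · rw [S.A.comp_gr_zero S.dim_prod g _ hg (S.A.part_mem k s) h2, S.A.comp_zero_left, map_zero,
        map_zero]
    · have h3 := S.A.comp_gr S.dim_prod g _ hg (S.A.part_mem k s)
        (show m + k = (m + k - S.dim X) + S.dim X by omega)
      by_cases h4 : (m + k - S.dim X) + m < S.dim Z
      · rw [S.A.comp_gr_zero S.dim_prod _ g h3 hg h4, map_zero, map_zero]
      · have h5 := S.A.comp_gr S.dim_prod _ g h3 hg (show (m + k - S.dim X) + m =
          ((m + k - S.dim X) + m - S.dim Z) + S.dim Z by omega)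
        exact S.H.part_of_mem_ne (by omega) (S.clH_gr _ _ h5)
  have h6 : S.A.comp (S.A.comp g (S.A.part _ n s)) g ∈ S.A.gr _ m := by
    by_cases h2 : m + n < S.dim X
    · omega
    · have h3 := S.A.comp_gr S.dim_prod g _ hg (S.A.part_mem n s)
        (show m + n = (m + n - S.dim X) + S.dim X by omega)
      exact S.A.comp_gr S.dim_prod _ g h3 hg (by omega)
  have h7 : S.H.part _ m (S.clH _ (S.A.comp (S.A.comp g s) g)) =
      S.clH _ (S.A.comp (S.A.comp g (S.A.part _ n s)) g) := by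
    conv_lhs => rw [hF]
    rw [S.A.comp_sum_right, S.A.comp_sum_left, map_sum, map_sum]
    by_cases hn : n ∈ F
    · rw [Finset.sum_eq_single n (fun k _ hk => h1 k hk) (fun h => absurd hn h)]
      exact S.H.part_of_mem m (S.clH_gr _ _ h6)
    · rw [Finset.sum_eq_zero (fun k hk => h1 k (by rintro rfl; exact hn hk))]
      have : S.A.part _ n s = 0 := by
        have h8 : S.A.part _ n s = S.A.part _ n (∑ k ∈ F, S.A.part _ k s) := by rw [← hF]
        rw [h8, map_sum]
        exact Finset.sum_eq_zero fun k hk =>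
          S.A.part_of_mem_ne (by rintro rfl; exact hn hk) (S.A.part_mem k s)
      rw [this, S.A.comp_zero_right, S.A.comp_zero_left, map_zero]
  rw [← h7, hs]
  exact S.H.part_of_mem m hG

end Cohomology

end Pool.Agent.H40.CT
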