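import Pool.Agent.H40.CT.Calc2
import Pool.Agent.H40.CT.Reg

/-!
# Cells

Module Cell. `cell_span` is `Theory.decompose` with `C.diag`. `exists_cell_map`: by `bundles` every
homogeneous class `a` of positive codimension is pulled back along `lift f g : W ⟶ P ⊗ P` (of
`pull fst b - pull snd b`), constants (`gr_zero`) are pulled back from anywhere; the image of `clH`
is finite dimensional, so it is spanned by the classes of finitely many homogeneous elements; take
the product of the finitely many maps (`cell_prod`, induction on the number). `diff_ideal`: the set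
of `x` such that `pull f x - pull g x` is a multiple of `a` is a subalgebra, so it is everything;
then use `cell_span` for `P ⊗ Q`.
-/

open CategoryTheory MonoidalCategory CartesianMonoidalCategory

universe u v w

namespace Pool.Agent.H40.CT

variable {𝒱 : Type u} [Category.{v} 𝒱] [CartesianMonoidalCategory 𝒱]

namespace Cells

variable {S : Cohomology.{u, v, w} 𝒱} (C : Cells S) {X Y Z W P Q : 𝒱}

include C in
/-- A class in absolute Hodge cohomology of `X × P` whose coordinates are cycle classes is a cycle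
class. -/
theorem exists_of_slots (hP : C.cell P) (y : S.D.R (X ⊗ P))
    (h : ∀ m : S.A.R P, ∃ a : S.A.R X,
      S.D.push (fst X P) (y * S.D.pull (snd X P) (S.cl.app P m)) = S.cl.app X a) :
    ∃ a : S.A.R (X ⊗ P), y = S.cl.app _ a := by
  obtain ⟨n, x, y', hxy⟩ := C.diag P hP
  choose s hs using fun i => h (x i)
  refine ⟨∑ i, S.A.pull (fst X P) (s i) * S.A.pull (snd X P) (y' i), ?_⟩
  have h1 : S.D.diag P = ∑ i, S.D.pull (fst P P) (S.cl.app P (x i)) *
      S.D.pull (snd P P) (S.cl.app P (y' i)) := by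
    rw [← S.cl.app_diag, hxy, map_sum]
    simp only [map_mul, S.cl.app_pull]
  rw [S.D.decompose _ _ h1 y, map_sum]
  refine Finset.sum_congr rfl fun i _ => ?_
  rw [hs i, map_mul, S.cl.app_pull, S.cl.app_pull]

include C in
/-- Every finite set of cycle classes on `W` is pulled back along one morphism to a cell. -/
theorem exists_pull (W : 𝒱) (s : Finset (S.A.R W))
    (hs : ∀ a ∈ s, ∃ (P : 𝒱) (f : W ⟶ P), C.cell P ∧ ∃ b, S.A.pull f b = a) :
    ∃ (P : 𝒱) (f : W ⟶ P), C.cell P ∧ ∀ a ∈ s, ∃ b, S.A.pull f b = a := by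
  classical
  induction s using Finset.induction_on with
  | empty => exact ⟨𝟙_ 𝒱, toUnit W, C.cell_unit, by simp⟩
  | insert a s _ ih =>
    obtain ⟨P, f, hP, h1⟩ := ih fun b hb => hs b (Finset.mem_insert_of_mem hb)
    obtain ⟨Q, g, hQ, b, hb⟩ := hs a (Finset.mem_insert_self _ _)
    refine ⟨P ⊗ Q, lift f g, C.cell_prod P Q hP hQ, fun c hc => ?_⟩
    rcases Finset.mem_insert.1 hc with rfl | hc
    · exact ⟨S.A.pull (snd P Q) b, by rw [← S.A.pull_comp, lift_snd, hb]⟩
    · obtain ⟨m, hm⟩ := h1 c hc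
      exact ⟨S.A.pull (fst P Q) m, by rw [← S.A.pull_comp, lift_fst, hm]⟩

include C in
theorem exists_pull_gr (W : 𝒱) (k : ℕ) (a : S.A.R W) (ha : a ∈ S.A.gr W k) :
    ∃ (P : 𝒱) (f : W ⟶ P), C.cell P ∧ ∃ b, S.A.pull f b = a := by
  rcases Nat.eq_zero_or_pos k with rfl | hk
  · obtain ⟨q, rfl⟩ := S.A.gr_zero W a ha
    exact ⟨𝟙_ 𝒱, toUnit W, C.cell_unit, algebraMap ℚ _ q, AlgHom.commutes _ q⟩
  · obtain ⟨P, f, g, b, hP, hb, -⟩ := C.bundles W k hk a ha
    refine ⟨P ⊗ P, lift f g, C.cell_prod P P hP hP,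
      S.A.pull (fst P P) b - S.A.pull (snd P P) b, ?_⟩
    rw [map_sub, ← S.A.pull_comp, ← S.A.pull_comp, lift_fst, lift_snd, hb]

include C in
/-- Every cycle class on `W` is pulled back from a cell. -/
theorem exists_pull_one (W : 𝒱) (a : S.A.R W) :
    ∃ (P : 𝒱) (f : W ⟶ P), C.cell P ∧ ∃ b, S.A.pull f b = a := by
  classical
  obtain ⟨F, hF⟩ := S.A.exists_sum_part a
  obtain ⟨P, f, hP, h⟩ := C.exists_pull W (F.image fun k => S.A.part W k a) (by
    intro b hb
    obtain ⟨k, -, rfl⟩ := Finset.mem_image.1 hb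
    exact C.exists_pull_gr W k _ (S.A.part_mem k a))
  have h1 : ∑ k ∈ F, S.A.part W k a ∈ LinearMap.range (S.A.pull f).toLinearMap :=
    Submodule.sum_mem _ fun k hk => h _ (Finset.mem_image_of_mem (fun k => S.A.part W k a) hk)
  rw [← hF] at h1
  obtain ⟨b, hb⟩ := h1
  exact ⟨P, f, hP, b, hb⟩

include C in
/-- One morphism to a cell along which every cycle class on `W` is pulled back, up to homological
equivalence. -/
theorem exists_pull_all (W : 𝒱) : ∃ (P : 𝒱) (f : W ⟶ P), C.cell P ∧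
    ∀ a : S.A.R W, ∃ b, S.clH W (S.A.pull f b - a) = 0 := by
  classical
  have := S.finH W
  obtain ⟨s, hs⟩ := (inferInstance : Module.Finite ℚ (LinearMap.range (S.clH W).toLinearMap)).fg_top
  choose c hc using fun x : LinearMap.range (S.clH W).toLinearMap => x.2
  obtain ⟨P, f, hP, h⟩ := C.exists_pull W (s.image c) fun a _ => C.exists_pull_one W a
  refine ⟨P, f, hP, fun a => ?_⟩
  -- the classes which are pull-backs up to homological equivalence
  have h1 : (⟨S.clH W a, a, rfl⟩ : LinearMap.range (S.clH W).toLinearMap) ∈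
      Submodule.span ℚ (s : Set (LinearMap.range (S.clH W).toLinearMap)) := by
    rw [hs]; exact Submodule.mem_top
  have h2 : Submodule.span ℚ (s : Set (LinearMap.range (S.clH W).toLinearMap)) ≤
      (LinearMap.range ((S.clH W).toLinearMap ∘ₗ (S.A.pull f).toLinearMap)).comap
        (LinearMap.range (S.clH W).toLinearMap).subtype := by
    rw [Submodule.span_le]
    intro x hx
    obtain ⟨b, hb⟩ := h (c x) (Finset.mem_image_of_mem c hx)
    refine ⟨b, ?_⟩
    rw [LinearMap.comp_apply]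
    change S.clH W (S.A.pull f b) = x
    rw [hb]
    exact hc x
  obtain ⟨b, hb⟩ := h2 h1
  refine ⟨b, ?_⟩
  rw [map_sub, sub_eq_zero]
  exact hb

include C in
/-- Classes on the product of two cells are sums of products. -/
theorem mem_span_prod (P Q : 𝒱) (hQ : C.cell Q) (m : S.A.R (P ⊗ Q)) :
    m ∈ Submodule.span ℚ {c | ∃ u v, c = S.A.pull (fst P Q) u * S.A.pull (snd P Q) v} := by
  obtain ⟨n, x, y, hxy⟩ := C.diag Q hQ
  rw [S.A.decompose x y hxy m]
  exact Submodule.sum_mem _ fun i _ => Submodule.subset_span ⟨_, _, rfl⟩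

include C in
/-- If `P` is generated by `b` and classes with equal pull-backs along `f` and `g`, then for every
class on `P × Q` the difference of the pull-backs along `(f, e)` and `(g, e)` is a multiple of the
difference for `b`. -/
theorem exists_mul (P Q : 𝒱) (hQ : C.cell Q) (f g : W ⟶ P) (e : W ⟶ Q) (b : S.A.R P)
    (hb : Algebra.adjoin ℚ (insert b {x | S.A.pull f x = S.A.pull g x}) = ⊤) (m : S.A.R (P ⊗ Q)) :
    ∃ q, S.A.pull (lift f e) m - S.A.pull (lift g e) m =
      (S.A.pull f b - S.A.pull g b) * q := by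
  set I : Ideal (S.A.R W) := Ideal.span {S.A.pull f b - S.A.pull g b} with hI
  -- equality modulo the ideal on `P`
  have h1 : ∀ u : S.A.R P, S.A.pull f u - S.A.pull g u ∈ I := by
    intro u
    have h2 : Algebra.adjoin ℚ (insert b {x | S.A.pull f x = S.A.pull g x}) ≤
        AlgHom.equalizer ((Ideal.Quotient.mkₐ ℚ I).comp (S.A.pull f))
          ((Ideal.Quotient.mkₐ ℚ I).comp (S.A.pull g)) := by
      rw [Algebra.adjoin_le_iff]
      rintro x (rfl | hx)
      · change Ideal.Quotient.mk I _ = Ideal.Quotient.mk I _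
        rw [Ideal.Quotient.eq]
        exact Ideal.subset_span rfl
      · change Ideal.Quotient.mk I (S.A.pull f x) = Ideal.Quotient.mk I (S.A.pull g x)
        rw [show S.A.pull f x = S.A.pull g x from hx]
    have h3 : u ∈ AlgHom.equalizer ((Ideal.Quotient.mkₐ ℚ I).comp (S.A.pull f))
          ((Ideal.Quotient.mkₐ ℚ I).comp (S.A.pull g)) := h2 (by rw [hb]; exact Algebra.mem_top)
    exact Ideal.Quotient.eq.1 h3
  have h4 : S.A.pull (lift f e) m - S.A.pull (lift g e) m ∈ I := by
    have h5 : Submodule.span ℚ {c | ∃ u v, c = S.A.pull (fst P Q) u * S.A.pull (snd P Q) v} ≤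
        (I.restrictScalars ℚ).comap ((S.A.pull (lift f e)).toLinearMap -
          (S.A.pull (lift g e)).toLinearMap) := by
      rw [Submodule.span_le]
      rintro _ ⟨u, v, rfl⟩
      change S.A.pull (lift f e) _ - S.A.pull (lift g e) _ ∈ I
      rw [map_mul, map_mul, ← S.A.pull_comp, ← S.A.pull_comp, ← S.A.pull_comp, ← S.A.pull_comp,
        lift_fst, lift_snd, lift_fst, lift_snd, ← sub_mul]
      exact I.mul_mem_right _ (h1 u)
    exact h5 (C.mem_span_prod P Q hQ m)
  obtain ⟨q, hq⟩ := Ideal.mem_span_singleton'.1 h4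
  exact ⟨q, by rw [← hq, mul_comm]⟩

end Cells

variable (S : Cohomology.{u, v, w} 𝒱) (C : Cells S) {X Y Z W P Q : 𝒱}

theorem cell_span (hP : C.cell P) (c : S.A.R (X ⊗ P)) :
    c ∈ Submodule.span ℚ {c | ∃ a b, c = S.A.pull (fst X P) a * S.A.pull (snd X P) b} :=
  C.mem_span_prod X P hP c

theorem exists_cell_map (W : 𝒱) : ∃ (P : 𝒱) (g : W ⟶ P), C.cell P ∧
    ∀ a : S.A.R W, ∃ x, S.clH W (S.A.pull g x) = S.clH W a := by
  obtain ⟨P, g, hP, h⟩ := C.exists_pull_all W
  refine ⟨P, g, hP, fun a => ?_⟩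
  obtain ⟨x, hx⟩ := h a
  refine ⟨x, ?_⟩
  rwa [map_sub, sub_eq_zero] at hx

theorem diff_ideal (f g : W ⟶ P) (k : W ⟶ Q) (hQ : C.cell Q)
    (a : S.A.R W) (b : S.A.R P) (hab : S.A.pull f b - S.A.pull g b = a)
    (h : Algebra.adjoin ℚ (insert b {x | S.A.pull f x = S.A.pull g x}) = ⊤) (m : S.A.R (P ⊗ Q)) :
    ∃ q, S.A.pull (lift f k) m - S.A.pull (lift g k) m = a * q := by
  rw [← hab]
  exact C.exists_mul P Q hQ f g k b h m

end Pool.Agent.H40.CT
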