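import Mathlib

/-!
# Cycle theories

`Theory` is a graded ring valued cohomology theory with push-forwards on smooth projective varieties,
`CycleTheory` is what is used of Chow groups, absolute Hodge cohomology and Betti cohomology of
varieties over the algebraic numbers. Everything is with rational coefficients, all codimensions
together.
-/

open CategoryTheory MonoidalCategory CartesianMonoidalCategory

universe u v w

namespace Pool.Agent.H40.CT

/-- A cohomology theory on a category `𝒱` with finite products (smooth projective connected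
varieties, `dim` their dimension): commutative `ℚ`-algebras `R X`, graded by the codimension, with
pull-backs and push-forwards. -/
structure Theory (𝒱 : Type u) [Category.{v} 𝒱] [CartesianMonoidalCategory 𝒱] (dim : 𝒱 → ℕ) where
  R : 𝒱 → Type w
  [ring : ∀ X, CommRing (R X)]
  [alg : ∀ X, Algebra ℚ (R X)]
  /-- classes of codimension `k` -/
  gr : ∀ X, ℕ → Submodule ℚ (R X)
  [graded : ∀ X, GradedAlgebra (gr X)]
  pull : ∀ {Z X : 𝒱}, (Z ⟶ X) → R X →ₐ[ℚ] R Z
  push : ∀ {Z X : 𝒱}, (Z ⟶ X) → R Z →ₗ[ℚ] R X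
  pull_id : ∀ X a, pull (𝟙 X) a = a
  pull_comp : ∀ {Y Z X : 𝒱} (f : Y ⟶ Z) (g : Z ⟶ X) a, pull (f ≫ g) a = pull f (pull g a)
  push_comp : ∀ {Y Z X : 𝒱} (f : Y ⟶ Z) (g : Z ⟶ X) a, push (f ≫ g) a = push g (push f a)
  push_iso : ∀ {Z X : 𝒱} (e : Z ≅ X) a, push e.hom a = pull e.inv a
  pull_gr : ∀ {Z X : 𝒱} (f : Z ⟶ X) k, ∀ a ∈ gr X k, pull f a ∈ gr Z k
  push_gr : ∀ {Z X : 𝒱} (f : Z ⟶ X) k l, k + dim X = l + dim Z → ∀ a ∈ gr Z k, push f a ∈ gr X l
  push_gr_zero : ∀ {Z X : 𝒱} (f : Z ⟶ X) k, k + dim X < dim Z → ∀ a ∈ gr Z k, push f a = 0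
  /-- projection formula -/
  push_mul : ∀ {Z X : 𝒱} (f : Z ⟶ X) a b, push f (pull f a * b) = a * push f b
  /-- base change along the projection `X × Y → X` -/
  base_change : ∀ {Z X : 𝒱} (f : Z ⟶ X) (Y : 𝒱) a,
    pull (fst X Y) (push f a) = push (f ▷ Y) (pull (fst Z Y) a)
  /-- the point -/
  unit_bij : Function.Bijective (algebraMap ℚ (R (𝟙_ 𝒱)))
  gr_zero : ∀ X, ∀ a ∈ gr X 0, ∃ q : ℚ, a = algebraMap ℚ (R X) q

attribute [instance] Theory.ring Theory.alg Theory.graded

variable {𝒱 : Type u} [Category.{v} 𝒱] [CartesianMonoidalCategory 𝒱] {dim : 𝒱 → ℕ}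

namespace Theory

variable (T : Theory.{u, v, w} 𝒱 dim)

/-- Composition of correspondences: first `g` from `Z` to `X`, then `h` from `X` to `Y`. -/
def comp {Z X Y : 𝒱} (g : T.R (Z ⊗ X)) (h : T.R (X ⊗ Y)) : T.R (Z ⊗ Y) :=
  T.push (fst Z X ▷ Y) (T.pull (fst (Z ⊗ X) Y) g * T.pull (snd Z X ▷ Y) h)

/-- The action of a correspondence. -/
def act {Z X : 𝒱} (g : T.R (Z ⊗ X)) (a : T.R Z) : T.R X :=
  T.push (snd Z X) (g * T.pull (fst Z X) a)

/-- The class of the diagonal. -/
def diag (X : 𝒱) : T.R (X ⊗ X) := T.push (lift (𝟙 X) (𝟙 X)) 1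

/-- The class `[x] × 1` on `X × X` for a point `x` of `X`. -/
def ptl {X : 𝒱} (x : 𝟙_ 𝒱 ⟶ X) : T.R (X ⊗ X) := T.pull (fst X X) (T.push x 1)

/-- The class `1 × [x]` on `X × X` for a point `x` of `X`. -/
def ptr {X : 𝒱} (x : 𝟙_ 𝒱 ⟶ X) : T.R (X ⊗ X) := T.pull (snd X X) (T.push x 1)

end Theory

/-- Morphisms of cohomology theories. -/
structure TheoryHom (S T : Theory.{u, v, w} 𝒱 dim) where
  app : ∀ X, S.R X →ₐ[ℚ] T.R X
  app_pull : ∀ {Z X : 𝒱} (f : Z ⟶ X) a, app Z (S.pull f a) = T.pull f (app X a)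
  app_push : ∀ {Z X : 𝒱} (f : Z ⟶ X) a, app X (S.push f a) = T.push f (app Z a)
  app_gr : ∀ X k, ∀ a ∈ S.gr X k, app X a ∈ T.gr X k

/-- Chow groups `A`, absolute Hodge cohomology `D` and even Betti cohomology `H` of smooth projective
connected varieties over the algebraic numbers. The kernel of `bet` consists of the groups of
extensions (the intermediate Jacobians), the image of `bet` of the Hodge classes. -/
structure Cohomology (𝒱 : Type u) [Category.{v} 𝒱] [CartesianMonoidalCategory 𝒱] where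
  dim : 𝒱 → ℕ
  dim_unit : dim (𝟙_ 𝒱) = 0
  dim_prod : ∀ X Y, dim (X ⊗ Y) = dim X + dim Y
  A : Theory.{u, v, w} 𝒱 dim
  D : Theory.{u, v, w} 𝒱 dim
  H : Theory.{u, v, w} 𝒱 dim
  /-- the cycle class map to absolute Hodge cohomology -/
  cl : TheoryHom A D
  bet : TheoryHom D H
  /-- products of homologically trivial classes vanish in absolute Hodge cohomology -/
  mul_eq_zero : ∀ X a b, bet.app X a = 0 → bet.app X b = 0 → a * b = 0
  /-- every variety has a point -/
  pt : ∀ X : 𝒱, 𝟙_ 𝒱 ⟶ X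
  finH : ∀ X, FiniteDimensional ℚ (H.R X)
  /-- Poincare duality -/
  duality : ∀ X a, (∀ b, H.push (toUnit X) (a * b) = 0) → a = 0
  /-- Hodge classes on `Z × X` are homomorphisms of polarizable Hodge structures, so they have
  generalized inverses by semisimplicity -/
  regular : ∀ {Z X : 𝒱} (g : D.R (Z ⊗ X)), ∃ s : D.R (X ⊗ Z),
    bet.app _ (D.comp (D.comp g s) g) = bet.app _ g
  /-- the Kuenneth components of the diagonal: `kun X i` is the projector to cohomology in degree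
  `i` -/
  kun : ∀ X : 𝒱, ℤ → H.R (X ⊗ X)
  kun_zero : ∀ X i, i < 0 ∨ 2 * (dim X : ℤ) < i → kun X i = 0
  kun_sum : ∀ X, ∑ i ∈ Finset.range (2 * dim X + 1), kun X i = H.diag X
  kun_orth : ∀ X i j, i ≠ j → H.comp (kun X i) (kun X j) = 0
  kun_gr : ∀ {Z X : 𝒱} (c : ℕ), ∀ g ∈ H.gr (Z ⊗ X) c, ∀ i,
    H.comp (kun Z i) g = H.comp g (kun X (i + 2 * c - 2 * dim Z))
  kun_bot : ∀ X x, kun X 0 = H.ptl (X := X) x
  kun_top : ∀ X x, kun X (2 * dim X) = H.ptr (X := X) x
  /-- hard Lefschetz -/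
  lefschetz : ∀ X i, i ≤ dim X → ∃ l ∈ A.gr (X ⊗ X) (2 * dim X - i), ∃ t : H.R (X ⊗ X),
    H.comp (H.comp (kun X i) (bet.app _ (cl.app _ l))) t = kun X i ∧
    H.comp (H.comp (kun X (2 * dim X - i)) t) (bet.app _ (cl.app _ l)) = kun X (2 * dim X - i)

/-- Products of Grassmannians. -/
structure Cells {𝒱 : Type u} [Category.{v} 𝒱] [CartesianMonoidalCategory 𝒱]
    (S : Cohomology.{u, v, w} 𝒱) where
  cell : 𝒱 → Prop
  cell_unit : cell (𝟙_ 𝒱)
  cell_prod : ∀ P Q, cell P → cell Q → cell (P ⊗ Q)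
  cl_bij : ∀ P, cell P → Function.Bijective (S.cl.app P)
  bet_bij : ∀ P, cell P → Function.Bijective (S.bet.app P)
  /-- cellular decomposition -/
  diag : ∀ P, cell P → ∃ (n : ℕ) (x y : Fin n → S.A.R P),
    S.A.diag P = ∑ i, S.A.pull (fst P P) (x i) * S.A.pull (snd P P) (y i)
  /-- projective spaces -/
  space : ∀ m : ℕ, ∃ P, cell P ∧ S.dim P = m ∧ ∃ t ∈ S.A.gr P 1, S.A.push (toUnit P) (t ^ m) = 1
  /-- a class of codimension `k` is a difference of Chern character components of globally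
  generated vector bundles whose other Chern character components agree -/
  bundles : ∀ W k, 1 ≤ k → ∀ a ∈ S.A.gr W k, ∃ (P : 𝒱) (f g : W ⟶ P) (b : S.A.R P), cell P ∧
    S.A.pull f b - S.A.pull g b = a ∧
    Algebra.adjoin ℚ (insert b {x | S.A.pull f x = S.A.pull g x}) = ⊤

/-- A finite family of morphisms to `X`. -/
structure Family (X : 𝒱) where
  n : ℕ
  Z : Fin n → 𝒱
  f : ∀ i, Z i ⟶ X

/-- The open subvarieties `V` of smooth projective varieties `X`: the complement of the union of the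
images of a finite family of morphisms. -/
structure Opens {𝒱 : Type u} [Category.{v} 𝒱] [CartesianMonoidalCategory 𝒱]
    (S : Cohomology.{u, v, w} 𝒱) where
  /-- the Chow groups of `V` -/
  A : ∀ X : 𝒱, Family X → Type w
  /-- the absolute Hodge cohomology of `V` -/
  D : ∀ X : 𝒱, Family X → Type w
  [gA : ∀ X F, AddCommGroup (A X F)]
  [mA : ∀ X F, Module ℚ (A X F)]
  [gD : ∀ X F, AddCommGroup (D X F)]
  [mD : ∀ X F, Module ℚ (D X F)]
  resA : ∀ X F, S.A.R X →ₗ[ℚ] A X F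
  resD : ∀ X F, S.D.R X →ₗ[ℚ] D X F
  /-- the cycle class map of `V` -/
  cl : ∀ X F, A X F →ₗ[ℚ] D X F
  cl_res : ∀ X F a, cl X F (resA X F a) = resD X F (S.cl.app X a)
  res_surj : ∀ X F, Function.Surjective (resA X F)
  /-- localization -/
  resA_ker : ∀ X F, LinearMap.ker (resA X F) = ⨆ i, LinearMap.range (S.A.push (F.f i))
  resD_ker : ∀ X F, LinearMap.ker (resD X F) = ⨆ i, LinearMap.range (S.D.push (F.f i))

attribute [instance] Opens.gA Opens.mA Opens.gD Opens.mD

/-- Numerically trivial classes on `Z` are homologically trivial. -/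
def NumHom (S : Cohomology.{u, v, w} 𝒱) (Z : 𝒱) : Prop :=
  ∀ a, (∀ b, S.A.push (toUnit Z) (a * b) = 0) → S.bet.app Z (S.cl.app Z a) = 0

/-- Injectivity of the cycle class maps of smooth projective varieties. -/
def BB (S : Cohomology.{u, v, w} 𝒱) : Prop := ∀ X, Function.Injective (S.cl.app X)

/-- The cycle class map of every open subvariety is injective. -/
def Q1 (S : Cohomology.{u, v, w} 𝒱) (O : Opens S) : Prop :=
  ∀ (X : 𝒱) (F : Family X), Function.Injective (O.cl X F)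

/-- For every correspondence `g` from `Z` to `X`: a cycle class on `X` in the image of the absolute
Hodge cohomology of `Z` is the image of a cycle class on `Z`. -/
def Strict (S : Cohomology.{u, v, w} 𝒱) : Prop :=
  ∀ (Z X : 𝒱) (g : S.A.R (Z ⊗ X)) (a : S.A.R X) (d : S.D.R Z),
    S.cl.app X a = S.D.act (S.cl.app _ g) d → ∃ z, a = S.A.act g z

/-- Homologically trivial correspondences never send a Hodge class (lifted to `d`) orthogonal to all
cycle classes to a nonzero cycle class. -/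
def Invisible (S : Cohomology.{u, v, w} 𝒱) : Prop :=
  ∀ (Z X : 𝒱) (j p : ℕ), ∀ g ∈ S.A.gr (Z ⊗ X) j, S.bet.app _ (S.cl.app _ g) = 0 →
    ∀ d ∈ S.D.gr Z p, (∀ z, S.D.push (toUnit Z) (d * S.cl.app Z z) = 0) →
      ∀ a, S.cl.app X a = S.D.act (S.cl.app _ g) d → S.D.act (S.cl.app _ g) d = 0

/-- If a homologically trivial correspondence `g` kills `d`, then there is an algebraic
correspondence `e` which fixes `d` up to homological equivalence and is killed by `g`. -/
def Kernel (S : Cohomology.{u, v, w} 𝒱) : Prop :=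
  ∀ (Z X : 𝒱) (g : S.A.R (Z ⊗ X)), S.bet.app _ (S.cl.app _ g) = 0 →
    ∀ d : S.D.R Z, S.D.act (S.cl.app _ g) d = 0 →
      ∃ e : S.A.R (Z ⊗ Z), S.bet.app Z (S.D.act (S.cl.app _ e) d) = S.bet.app Z d ∧
        S.A.comp e g = 0

/-- The same for all correspondences. -/
def KernelAll (S : Cohomology.{u, v, w} 𝒱) : Prop :=
  ∀ (Z X : 𝒱) (g : S.A.R (Z ⊗ X)) (d : S.D.R Z), S.D.act (S.cl.app _ g) d = 0 →
    ∃ e : S.A.R (Z ⊗ Z), S.bet.app Z (S.D.act (S.cl.app _ e) d) = S.bet.app Z d ∧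
      S.A.comp e g = 0

end Pool.Agent.H40.CT
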