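import Pool.Agent.H40.CT.Reg
import Pool.Agent.H40.CT.Calc2

/-!
# Homogeneous components

Module Part (helper40).
-/

open CategoryTheory MonoidalCategory CartesianMonoidalCategory

universe u v w

namespace Pool.Agent.H40.CT

variable {𝒱 : Type u} [Category.{v} 𝒱] [CartesianMonoidalCategory 𝒱] {dim : 𝒱 → ℕ}

namespace Theory

variable (T : Theory.{u, v, w} 𝒱 dim) {X Y Z W P : 𝒱}

theorem hom_ind {p : T.R X → Prop} (h0 : p 0) (hadd : ∀ a b, p a → p b → p (a + b))
    (hgr : ∀ k, ∀ a ∈ T.gr X k, p a) (x : T.R X) : p x := by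
  obtain ⟨s, hs⟩ := T.exists_sum_part x
  rw [hs]
  exact Finset.sum_induction _ p hadd h0 fun k _ => hgr k _ (T.part_mem k x)

theorem hom_ext {M : Type*} [AddCommGroup M] [Module ℚ M] {f g : T.R X →ₗ[ℚ] M}
    (h : ∀ k, ∀ a ∈ T.gr X k, f a = g a) : f = g := by
  ext x
  refine T.hom_ind (p := fun x => f x = g x) ?_ ?_ h x
  · rw [map_zero, map_zero]
  · intro a b ha hb
    rw [map_add, map_add, ha, hb]

theorem eq_zero_of_part {x : T.R X} (h : ∀ k, T.part X k x = 0) : x = 0 := by
  obtain ⟨s, hs⟩ := T.exists_sum_part x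
  rw [hs]
  exact Finset.sum_eq_zero fun k _ => h k

theorem eq_of_part {x y : T.R X} (h : ∀ k, T.part X k x = T.part X k y) : x = y := by
  rw [← sub_eq_zero]
  exact T.eq_zero_of_part fun k => by rw [map_sub, h k, sub_self]

theorem part_pull (f : Z ⟶ X) (k : ℕ) (x : T.R X) :
    T.part Z k (T.pull f x) = T.pull f (T.part X k x) := by
  refine T.hom_ind (p := fun x => T.part Z k (T.pull f x) = T.pull f (T.part X k x)) ?_ ?_ ?_ x
  · simp only [map_zero]
  · intro a b ha hb
    simp only [map_add, ha, hb]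
  · intro l a ha
    by_cases h : l = k
    · subst h
      rw [T.part_of_mem l ha, T.part_of_mem l (T.pull_gr f l a ha)]
    · rw [T.part_of_mem_ne h ha, T.part_of_mem_ne h (T.pull_gr f l a ha), map_zero]

variable (hd : ∀ X Y : 𝒱, dim (X ⊗ Y) = dim X + dim Y)
include hd

/-- the components of `act g a` for homogeneous `a` -/
theorem part_act {j p m : ℕ} (g : T.R (Z ⊗ X)) (a : T.R Z) (ha : a ∈ T.gr Z p)
    (hm : j + p = m + dim Z) : T.part X m (T.act g a) = T.act (T.part _ j g) a := by
  refine T.hom_ind (p := fun g => T.part X m (T.act g a) = T.act (T.part _ j g) a) ?_ ?_ ?_ g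
  · rw [map_zero, T.act_zero_left, map_zero]
  · intro g g' h h'
    rw [map_add, T.act_add_left, T.act_add_left, map_add, h, h']
  · intro k g hg
    by_cases hk : k = j
    · subst hk
      rw [T.part_of_mem k hg, T.part_of_mem m (T.act_gr hd g a hg ha hm)]
    · rw [T.part_of_mem_ne hk hg, T.act_zero_left]
      by_cases h2 : k + p < dim Z
      · rw [T.act_gr_zero hd g a hg ha h2, map_zero]
      · exact T.part_of_mem_ne (by omega) (T.act_gr hd g a hg ha
          (show k + p = (k + p - dim Z) + dim Z by omega))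

/-- the components of `act g a` for homogeneous `g` -/
theorem part_act' {j p m : ℕ} (g : T.R (Z ⊗ X)) (a : T.R Z) (hg : g ∈ T.gr _ j)
    (hm : j + p = m + dim Z) : T.part X m (T.act g a) = T.act g (T.part Z p a) := by
  refine T.hom_ind (p := fun a => T.part X m (T.act g a) = T.act g (T.part _ p a)) ?_ ?_ ?_ a
  · rw [map_zero, T.act_zero_right, map_zero]
  · intro a b h h'
    rw [map_add, T.act_add_right, T.act_add_right, map_add, h, h']
  · intro k a ha
    by_cases hk : k = p
    · subst hk
      rw [T.part_of_mem k ha, T.part_of_mem m (T.act_gr hd g a hg ha hm)]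
    · rw [T.part_of_mem_ne hk ha, T.act_zero_right]
      by_cases h2 : j + k < dim Z
      · rw [T.act_gr_zero hd g a hg ha h2, map_zero]
      · exact T.part_of_mem_ne (by omega) (T.act_gr hd g a hg ha
          (show j + k = (j + k - dim Z) + dim Z by omega))

end Theory

namespace TheoryHom

variable {S T : Theory.{u, v, w} 𝒱 dim} (φ : TheoryHom S T) {X : 𝒱}

theorem part_app (k : ℕ) (x : S.R X) : T.part X k (φ.app X x) = φ.app X (S.part X k x) := by
  refine S.hom_ind (p := fun x => T.part X k (φ.app X x) = φ.app X (S.part X k x)) ?_ ?_ ?_ x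
  · simp only [map_zero]
  · intro a b ha hb
    simp only [map_add, ha, hb]
  · intro l a ha
    by_cases h : l = k
    · subst h
      rw [S.part_of_mem l ha, T.part_of_mem l (φ.app_gr X l a ha)]
    · rw [S.part_of_mem_ne h ha, T.part_of_mem_ne h (φ.app_gr X l a ha), map_zero]

end TheoryHom

namespace Cohomology

variable (S : Cohomology.{u, v, w} 𝒱) {X Y Z : 𝒱}

theorem part_clH (k : ℕ) (x : S.A.R X) : S.H.part X k (S.clH X x) = S.clH X (S.A.part X k x) :=
  S.clHom.part_app k x

end Cohomology

end Pool.Agent.H40.CT
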