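import Pool.Agent.H40.CT.Vis
import Pool.Agent.H40.CT.Part

/-!
# Invisibility

Module Inv. `invisible_of_q1`. Let `t` be the component of codimension `dim Z` of the correspondence
of `exists_tau`: it fixes `d`, orthogonal to cycles, and kills cycle classes of codimension `p` up to
homological equivalence. With `g₁ = comp t g` (codimension `j`) one has
`act (cl g₁) d = act (cl g) (act (cl t) d) = act (cl g) d`, so by `exists_of_q1`
`a = act g₁ z = act g (act t z)` with `z` of codimension `p`, and `act t z` and `g` are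
homologically trivial, so `a = 0`, `act (cl g) d = cl a = 0`.
-/

open CategoryTheory MonoidalCategory CartesianMonoidalCategory

universe u v w

namespace Pool.Agent.H40.CT

variable {𝒱 : Type u} [Category.{v} 𝒱] [CartesianMonoidalCategory 𝒱]
  (S : Cohomology.{u, v, w} 𝒱) (O : Opens S)

theorem invisible_of_q1 (C : Cells S) (hN : ∀ Z, NumHom S Z) (h : Q1 S O) : Invisible S := by
  intro Z X j p g hg hg0 d hd hdz a ha
  have hg0' : S.clH _ g = 0 := hg0
  have hdz' : ∀ z, S.D.deg Z (d * S.cl.app Z z) = 0 := fun z => (S.D.deg_eq_zero).2 (hdz z)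
  obtain ⟨t₀, ht0, htd⟩ := S.exists_tau (hN Z)
  set t := S.A.part _ (S.dim Z) t₀ with htdef
  have ht : t ∈ S.A.gr _ (S.dim Z) := S.A.part_mem _ _
  have e1 : S.D.act (S.cl.app _ t) d = d := by
    rw [htdef, ← S.cl.part_app, ← S.D.part_act S.dim_prod (S.cl.app _ t₀) d hd
      (show S.dim Z + p = p + S.dim Z by omega), htd d hdz', S.D.part_of_mem p hd]
  have e2 : ∀ z ∈ S.A.gr Z p, S.clH Z (S.A.act t z) = 0 := by
    intro z hz
    rw [htdef, ← S.A.part_act S.dim_prod t₀ z hz (show S.dim Z + p = p + S.dim Z by omega),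
      ← S.part_clH, ht0, map_zero]
  have hg1 : S.A.comp t g ∈ S.A.gr _ j := S.A.comp_gr S.dim_prod t g ht hg (by omega)
  have hg2 : S.clH _ (S.A.comp t g) = 0 := by
    rw [S.clH_comp, hg0', S.H.comp_zero_right]
  have e3 : S.cl.app X a = S.D.act (S.cl.app _ (S.A.comp t g)) d := by
    rw [S.cl.app_comp, S.D.act_comp, e1]
    exact ha
  obtain ⟨z, hz, hz2⟩ := exists_of_q1 S O C hN h (S.A.comp t g) hg1 hg2 d hd a e3
  have e4 : a = 0 := by
    rw [hz2, S.A.act_comp, Theory.act, mul_zero_of_BB S (bb_of_q1 S O h), map_zero]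
    · exact hg0'
    · rw [clH_pull, e2 z hz, map_zero]
  rw [← ha, e4, map_zero]

end Pool.Agent.H40.CT
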