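import Pool.Agent.H40.CT.Tot
import Pool.Agent.H40.CT.Reg

/-!
# Strictness for all correspondences

Module Str. `strict_of`. `cl a = act g d`. `exists_orthogonal`: there is `z₀` with `d₁ = d - cl z₀`
orthogonal to all cycle classes. Let `s` be from `exists_regular`, `g' = g - comp (comp g s) g`,
homologically trivial. Then `act g' d = cl (a - act g (act s a))`, so
`act g' d₁ = cl (a - act g (act s a) - act g' z₀)`, and `invisible_tot` gives
`a - act g (act s a) - act g' z₀ = 0`. So `a` is in the range of `act g`.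
-/

open CategoryTheory MonoidalCategory CartesianMonoidalCategory

universe u v w

namespace Pool.Agent.H40.CT

variable {𝒱 : Type u} [Category.{v} 𝒱] [CartesianMonoidalCategory 𝒱]
  (S : Cohomology.{u, v, w} 𝒱) {X Z : 𝒱}

/-- A class of absolute Hodge cohomology is the sum of a cycle class and a class orthogonal to all
cycle classes. -/
theorem Cohomology.exists_orthogonal (hD : NumHom S Z) (d : S.D.R Z) :
    ∃ z0 : S.A.R Z, ∀ z, S.D.deg Z ((d - S.cl.app Z z0) * S.cl.app Z z) = 0 := by
  obtain ⟨n, a, b, hab⟩ := S.exists_dual_basis hD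
  refine ⟨∑ i, S.D.deg Z (d * S.cl.app Z (b i)) • a i, fun z => ?_⟩
  -- `z` is congruent to `∑ deg (a i * z) • b i`
  have h1 : S.clH Z (z - ∑ i, S.A.deg Z (a i * z) • b i) = 0 := by
    refine (S.numHom_iff Z).1 hD _ fun x => ?_
    have h2 := hab x
    have h3 : S.A.deg Z (x * z) = ∑ i, S.A.deg Z (x * b i) * S.A.deg Z (a i * z) := by
      have h4 : S.H.deg Z (S.clH Z (x - ∑ i, S.A.deg Z (x * b i) • a i) * S.clH Z z) = 0 := by
        rw [h2, zero_mul, map_zero]
      rw [← map_mul, S.deg_clH, sub_mul, Finset.sum_mul, map_sub, map_sum, sub_eq_zero] at h4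
      rw [h4]
      refine Finset.sum_congr rfl fun i _ => ?_
      rw [smul_mul_assoc, map_smul, smul_eq_mul]
    rw [sub_mul, Finset.sum_mul, map_sub, map_sum, sub_eq_zero, mul_comm z x, h3]
    refine Finset.sum_congr rfl fun i _ => ?_
    rw [smul_mul_assoc, map_smul, smul_eq_mul, mul_comm (b i) x, mul_comm]
  have h5 : S.D.deg Z (d * S.cl.app Z (z - ∑ i, S.A.deg Z (a i * z) • b i)) = 0 := by
    rw [← S.deg_bet, map_mul, ← Cohomology.clH_apply, h1, mul_zero, map_zero]
  rw [map_sub, mul_sub, map_sub, sub_eq_zero, map_sum, Finset.mul_sum, map_sum] at h5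
  rw [sub_mul, map_sub, h5, sub_eq_zero, map_sum, Finset.sum_mul, map_sum]
  refine Finset.sum_congr rfl fun i _ => ?_
  rw [map_smul, mul_smul_comm, map_smul, map_smul, smul_mul_assoc, map_smul, ← map_mul, S.deg_clD,
    smul_eq_mul, smul_eq_mul, mul_comm]

theorem strict_of (C : Cells S) (hB : BB S) (hN : ∀ Z, NumHom S Z) (hI : Invisible S) : Strict S := by
  intro Z X g a d ha
  obtain ⟨s, hs⟩ := S.exists_regular hN g
  obtain ⟨z0, hz0⟩ := S.exists_orthogonal (hN Z) d
  have h2 : S.clH _ (g - S.A.comp (S.A.comp g s) g) = 0 := by rw [map_sub, hs, sub_self]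
  have h3 := invisible_tot S C hB hI _ h2 _ hz0
    (a - S.A.act g (S.A.act s a) - S.A.act (g - S.A.comp (S.A.comp g s) g) z0) (by
      rw [S.D.act_sub_right, map_sub (S.cl.app X), map_sub (S.cl.app X), S.cl.app_act (_ - _) z0]
      congr 1
      rw [map_sub (S.cl.app _), S.D.act_sub_left, S.cl.app_comp, S.cl.app_comp, S.D.act_comp,
        S.D.act_comp, ← ha, S.cl.app_act, S.cl.app_act])
  refine ⟨S.A.act s a + z0 - S.A.act s (S.A.act g z0), ?_⟩
  rw [S.A.act_sub_left, S.A.act_comp, S.A.act_comp] at h3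
  rw [S.A.act_sub_right, S.A.act_add_right]
  linear_combination (exp := 1) h3

end Pool.Agent.H40.CT
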