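import Pool.Agent.H40.CT.Sem
import Pool.Agent.H40.CT.Str

/-!
# Kernels are motivic

Module Ker.

`kernel_of`. `N = {e : comp e g = 0}`, `M = {bet (act (cl e) d), e ∈ N}`. If `bet d` is not in `M`,
`exists_hodge_dual` gives `h` with `deg (h * act (cl e) d) = 0` for `e ∈ N` and `deg (h * d) ≠ 0`.
`exists_dual` on `Z ⊗ Z`: `e₀` with `deg (e₀ * a) = deg ((pull fst h * pull snd d) * cl a)` for all
`a`. `δ = pull fst h * pull snd d - cl e₀` is orthogonal to all cycles. `comp u g = act G u` for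
`G = push (lift (fst (Z ⊗ Z) X) (fst Z Z ▷ X)) (pull (snd Z Z ▷ X) g)`, homologically trivial, and
by `ext_comp` the composition of `pull fst h * pull snd d` and `cl g` is
`pull fst h * pull snd (act (cl g) d) = 0`, so `cl (- comp e₀ g) = act (cl G) δ` and `invisible_tot`
gives `comp e₀ g = 0`: `e₀ ∈ N`. `exists_regular`: `s` with `e₀ s e₀ = e₀` in `H`, `e = comp s e₀` is
in `N`. With `Tr u = deg (u * diag)` one has `deg (u * tr v) = Tr (comp u v)`, so
`deg (h * act (cl e) d) = deg (e₀ * tr e) = Tr (e₀ e) = Tr (e₀ s e₀) = Tr e₀ = deg (h * d) ≠ 0`.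

`kernelAll_of`. `s` with `clH (g s g) = clH g` (`exists_regular`), `g₁ = g - comp (comp g s) g`,
`act (cl g₁) d = 0`, `e₁` for `g₁`, `e = e₁ - comp (comp e₁ g) s`: `comp e g = comp e₁ g₁ = 0` and
`act e d = act e₁ d = d` in `H`.
-/

open CategoryTheory MonoidalCategory CartesianMonoidalCategory

universe u v w

namespace Pool.Agent.H40.CT

variable {𝒱 : Type u} [Category.{v} 𝒱] [CartesianMonoidalCategory 𝒱]

namespace Theory

variable {dim : 𝒱 → ℕ} (T : Theory.{u, v, w} 𝒱 dim) {X Y Z W P : 𝒱}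

/-- The correspondence `Y × g` from `Y × Z` to `Y × X`. -/
def idt (Y : 𝒱) (g : T.R (Z ⊗ X)) : T.R ((Y ⊗ Z) ⊗ (Y ⊗ X)) :=
  T.push (lift (fst (Y ⊗ Z) X) (fst Y Z ▷ X)) (T.pull (snd Y Z ▷ X) g)

theorem act_idt (u : T.R (Y ⊗ Z)) (g : T.R (Z ⊗ X)) : T.act (T.idt Y g) u = T.comp u g := by
  rw [act, idt, comp, mul_comm, ← T.push_mul, ← T.push_comp, ← T.pull_comp, lift_fst, lift_snd]

/-- the trace of `comp g h` -/
theorem deg_comp_diag (g : T.R (Z ⊗ X)) (h : T.R (X ⊗ Z)) :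
    T.deg _ (T.comp g h * T.diag Z) = T.deg _ (g * T.tr h) := by
  rw [T.deg_comp', T.diag_comp]

theorem deg_mul_diag (u : T.R (Z ⊗ Z)) : T.deg _ (u * T.diag Z) = T.deg Z (T.pull (lift (𝟙 Z) (𝟙 Z)) u) := by
  rw [diag, ← T.push_mul, mul_one, T.deg_push]

end Theory

theorem TheoryHom.app_idt {dim : 𝒱 → ℕ} {S T : Theory.{u, v, w} 𝒱 dim} (φ : TheoryHom S T)
    {X Z : 𝒱} (Y : 𝒱) (g : S.R (Z ⊗ X)) : φ.app _ (S.idt Y g) = T.idt Y (φ.app _ g) := by
  rw [Theory.idt, Theory.idt, φ.app_push, φ.app_pull]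

variable (S : Cohomology.{u, v, w} 𝒱)

theorem kernel_of (C : Cells S) (hB : BB S) (hN : ∀ Z, NumHom S Z) (hI : Invisible S) :
    Kernel S := by
  intro Z X g hg d hd
  by_contra hno
  push Not at hno
  -- the space of the `act (cl e) d`, `comp e g = 0`
  let M : Submodule ℚ (S.H.R Z) :=
    Submodule.map ((S.bet.app Z).toLinearMap.comp ((S.D.actL.flip d).comp (S.cl.app _).toLinearMap))
      (LinearMap.ker (S.A.compL.flip g : S.A.R (Z ⊗ Z) →ₗ[ℚ] S.A.R (Z ⊗ X)))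
  have hM : ∀ e : S.A.R (Z ⊗ Z), S.A.comp e g = 0 →
      S.bet.app Z (S.D.act (S.cl.app _ e) d) ∈ M := fun e he => ⟨e, he, rfl⟩
  have hd1 : S.bet.app Z d ∉ M := by
    rintro ⟨e, he, h⟩
    exact hno e h he
  obtain ⟨h, hh1, hh2⟩ := S.exists_hodge_dual M d hd1
  set η : S.D.R (Z ⊗ Z) := S.D.pull (fst Z Z) h * S.D.pull (snd Z Z) d with hη
  -- the algebraic part of `h × d`
  obtain ⟨e₀, he₀⟩ : ∃ e₀ : S.A.R (Z ⊗ Z), ∀ a, S.A.deg _ (e₀ * a) = S.D.deg _ (η * S.cl.app _ a) := by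
    obtain ⟨e₀, he₀⟩ := S.exists_dual (hN (Z ⊗ Z)) ((S.H.deg _).comp
      ((LinearMap.mulLeft ℚ (S.bet.app _ η)).comp (Submodule.subtype _)))
    refine ⟨e₀, fun a => ?_⟩
    rw [he₀ a, ← S.deg_bet, map_mul (S.bet.app _) η]
    rfl
  have h1 : ∀ z, S.D.deg _ ((η - S.cl.app _ e₀) * S.cl.app _ z) = 0 := by
    intro z
    rw [sub_mul, map_sub, ← map_mul (S.cl.app _), S.deg_clD, he₀, sub_self]
  have h2 : S.D.comp η (S.cl.app _ g) = 0 := by
    rw [hη, S.D.ext_comp]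
    change S.D.pull (fst Z X) h * S.D.pull (snd Z X) (S.D.act (S.cl.app _ g) d) = 0
    rw [hd, map_zero, mul_zero]
  have h3 : S.A.comp e₀ g = 0 := by
    have := invisible_tot S C hB hI (S.A.idt Z g) (by
      rw [Theory.idt, clH_push, clH_pull, Cohomology.clH_apply, hg, map_zero, map_zero]) _ h1
      (- S.A.comp e₀ g) (by
        rw [S.cl.app_idt, S.D.act_idt, S.D.comp_sub_left, h2, ← S.cl.app_comp, zero_sub, map_neg])
    rwa [neg_eq_zero] at this
  obtain ⟨s, hs⟩ := S.exists_regular hN e₀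
  have h4 := hh1 _ (hM (S.A.comp s e₀) (by rw [S.A.comp_assoc, h3, S.A.comp_zero_right]))
  apply hh2
  rw [← h4]
  have h5 : S.D.deg Z (h * S.D.act (S.cl.app _ (S.A.comp s e₀)) d) =
      S.D.deg _ (η * S.cl.app _ (S.A.tr (S.A.comp s e₀))) := by
    have a1 : S.D.tr (S.D.pull (snd Z Z) h) = S.D.pull (fst Z Z) h := by
      rw [Theory.tr, ← S.D.pull_comp]; simp
    have a2 : S.D.tr (S.D.pull (fst Z Z) d) = S.D.pull (snd Z Z) d := by
      rw [Theory.tr, ← S.D.pull_comp]; simp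
    rw [Theory.act, ← S.D.push_mul, S.D.deg_push, ← S.D.deg_tr, S.D.tr_mul, S.D.tr_mul, a1, a2,
      S.cl.app_tr, hη]
    congr 1
    ring
  have h6 : S.D.deg Z (h * d) = S.A.deg _ (e₀ * S.A.diag Z) := by
    rw [he₀, S.cl.app_diag, S.D.deg_mul_diag, hη, map_mul (S.D.pull _), ← S.D.pull_comp, ← S.D.pull_comp,
      lift_fst, lift_snd, S.D.pull_id, S.D.pull_id]
  rw [h5, h6, ← he₀, ← S.A.deg_comp_diag, ← S.A.comp_assoc, ← S.deg_clH, ← S.deg_clH,
    map_mul (S.clH _), map_mul (S.clH _), hs]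

theorem kernelAll_of (hN : ∀ Z, NumHom S Z) (hK : Kernel S) : KernelAll S := by
  intro Z X g d hd
  obtain ⟨s, hs⟩ := S.exists_regular hN g
  obtain ⟨e, he2, he1⟩ := hK Z X (g - S.A.comp (S.A.comp g s) g)
    (by rw [← Cohomology.clH_apply, map_sub, hs, sub_self]) d (by
      rw [map_sub, S.D.act_sub_left, S.cl.app_comp, S.D.act_comp, S.cl.app_comp, S.D.act_comp, hd,
        S.D.act_zero_right, S.D.act_zero_right, sub_self])
  refine ⟨e - S.A.comp (S.A.comp e g) s, ?_, ?_⟩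
  · rw [map_sub (S.cl.app _), S.D.act_sub_left, map_sub, he2, S.cl.app_comp, S.D.act_comp,
      S.cl.app_comp, S.D.act_comp, S.bet.app_act, S.bet.app_act, he2, ← S.bet.app_act, hd, map_zero,
      S.H.act_zero_right, sub_zero]
  · rw [S.A.comp_sub_right, S.A.comp_assoc g s g] at he1
    rw [S.A.comp_sub_left, S.A.comp_assoc (S.A.comp e g), S.A.comp_assoc e g, he1]

end Pool.Agent.H40.CT
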