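import Pool.Agent.H40.CT.Reg

/-!
# The Kuenneth components of the diagonal are algebraic, from conjecture D

Module Kun (helper79).
-/

open CategoryTheory MonoidalCategory CartesianMonoidalCategory

universe u v w

namespace Pool.Agent.H40.CT

variable {𝒱 : Type u} [Category.{v} 𝒱] [CartesianMonoidalCategory 𝒱]

namespace Cohomology

variable (S : Cohomology.{u, v, w} 𝒱) {X Y Z : 𝒱}

theorem kun_idem (X : 𝒱) (i : ℤ) : S.H.comp (S.kun X i) (S.kun X i) = S.kun X i := by
  by_cases h : i < 0 ∨ 2 * (S.dim X : ℤ) < i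
  · rw [S.kun_zero X i h, S.H.comp_zero_left]
  · push Not at h
    obtain ⟨k, rfl⟩ := Int.eq_ofNat_of_zero_le h.1
    have h1 := S.H.comp_diag (S.kun X (k : ℤ))
    rw [← S.kun_sum X, S.H.comp_sum_right, Finset.sum_eq_single k] at h1
    · exact h1
    · intro b _ hb
      exact S.kun_orth X _ _ (by simpa using hb.symm)
    · intro hk
      exact absurd (Finset.mem_range.2 (by omega)) hk

/-- `w` is determined by the composites `comp (kun X i) w`, `i = 0, …, 2 dim X`. -/
theorem ext_kun {w w' : S.H.R (X ⊗ Y)} (h : ∀ i : ℕ, i ≤ 2 * S.dim X →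
    S.H.comp (S.kun X i) w = S.H.comp (S.kun X i) w') : w = w' := by
  rw [← S.H.diag_comp w, ← S.H.diag_comp w', ← S.kun_sum X, S.H.comp_sum_left, S.H.comp_sum_left]
  exact Finset.sum_congr rfl fun i hi => h i (by have := Finset.mem_range.1 hi; omega)

theorem comp_kun_sub (X : 𝒱) (b : ℤ) (F : Finset ℕ) (f : ℕ → ℤ) (hf : Set.InjOn f F) :
    S.H.comp (S.kun X b) (S.H.diag X - ∑ j ∈ F, S.kun X (f j)) =
      if ∃ j ∈ F, f j = b then 0 else S.kun X b := by
  rw [S.H.comp_sub_right, S.H.comp_diag, S.H.comp_sum_right]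
  split_ifs with h
  · obtain ⟨j, hj, rfl⟩ := h
    rw [Finset.sum_eq_single j, S.kun_idem, sub_self]
    · intro k hk hkj
      exact S.kun_orth X _ _ fun h => hkj (hf hk hj h.symm)
    · exact fun h => absurd hj h
  · rw [Finset.sum_eq_zero, sub_zero]
    intro j hj
    exact S.kun_orth X _ _ fun h' => h ⟨j, hj, h'.symm⟩

theorem diag_gr (X : 𝒱) : S.A.diag X ∈ S.A.gr (X ⊗ X) (S.dim X) := by
  have h1 : (1 : S.A.R X) ∈ S.A.gr X 0 := SetLike.one_mem_graded _
  have h2 := S.A.mulcl_gr S.dim_prod (1 : S.A.R X) h1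
  rwa [zero_add] at h2

theorem exists_kun_aux (hD : ∀ X, NumHom S X) (X : 𝒱) (i : ℕ) (hi : i ≤ S.dim X)
    (ih : ∀ j < i, (∃ e ∈ S.A.gr (X ⊗ X) (S.dim X), S.clH _ e = S.kun X j) ∧
      ∃ e ∈ S.A.gr (X ⊗ X) (S.dim X), S.clH _ e = S.kun X (2 * S.dim X - j)) :
    (∃ e ∈ S.A.gr (X ⊗ X) (S.dim X), S.clH _ e = S.kun X i) ∧
      ∃ e ∈ S.A.gr (X ⊗ X) (S.dim X), S.clH _ e = S.kun X (2 * S.dim X - i) := by
  obtain ⟨l, hl, t, ht1, ht2⟩ := S.lefschetz X i hi
  set L := S.clH _ l with hL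
  change S.H.comp (S.H.comp (S.kun X i) L) t = _ at ht1
  change S.H.comp _ L = _ at ht2
  have hLgr := S.clH_gr _ l hl
  choose! e he hek using fun j hj => (ih j hj).1
  choose! e' he' hek' using fun j hj => (ih j hj).2
  -- the isomorphism `L` in degree `i` is algebraic
  set g := S.A.comp (S.A.comp (S.A.diag X - ∑ j ∈ Finset.range i, e j) l)
    (S.A.diag X - ∑ j ∈ Finset.range i, e' j) with hg
  have h1 : S.A.diag X - ∑ j ∈ Finset.range i, e j ∈ S.A.gr (X ⊗ X) (S.dim X) :=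
    sub_mem (S.diag_gr X) (sum_mem fun j hj => he j (Finset.mem_range.1 hj))
  have h2 : S.A.diag X - ∑ j ∈ Finset.range i, e' j ∈ S.A.gr (X ⊗ X) (S.dim X) :=
    sub_mem (S.diag_gr X) (sum_mem fun j hj => he' j (Finset.mem_range.1 hj))
  have hggr : g ∈ S.A.gr (X ⊗ X) (2 * S.dim X - i) :=
    S.A.comp_gr S.dim_prod _ _ (S.A.comp_gr S.dim_prod _ _ h1 hl (show _ = (2 * S.dim X - i) + S.dim X
      by omega)) h2 (by omega)
  have hLk : S.H.comp (S.kun X i) L = S.H.comp L (S.kun X (2 * S.dim X - i)) := by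
    rw [S.kun_gr (2 * S.dim X - i) L hLgr]
    congr 2
    omega
  have hG : S.clH _ g = S.H.comp (S.kun X i) L := by
    rw [hg, S.clH_comp, S.clH_comp, map_sub, map_sub, S.clH_diag, map_sum, map_sum,
      Finset.sum_congr rfl fun j hj => hek j (Finset.mem_range.1 hj),
      Finset.sum_congr rfl fun j hj => hek' j (Finset.mem_range.1 hj), ← hL]
    refine S.ext_kun fun a ha => ?_
    rw [← S.H.comp_assoc, ← S.H.comp_assoc, ← S.H.comp_assoc,
      S.comp_kun_sub X a _ (fun j => (j : ℤ)) (fun x _ y _ h => by simpa using h)]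
    rcases lt_trichotomy a i with hai | rfl | hai
    · rw [if_pos ⟨a, Finset.mem_range.2 hai, rfl⟩, S.kun_orth X a i (by omega)]
      simp only [S.H.comp_zero_left]
    · rw [if_neg, hLk, S.H.comp_assoc, S.comp_kun_sub X _ _ (fun j => 2 * (S.dim X : ℤ) - j)
        (fun x _ y _ h => by simpa using h), if_neg, S.kun_idem, hLk]
      · rintro ⟨j, hj, h⟩
        have := Finset.mem_range.1 hj
        omega
      · rintro ⟨j, hj, h⟩
        have := Finset.mem_range.1 hj
        omega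
    · rw [if_neg, S.kun_orth X a i (by omega), S.H.comp_zero_left,
        S.kun_gr (2 * S.dim X - i) L hLgr, S.H.comp_assoc,
        S.comp_kun_sub X _ _ (fun j => 2 * (S.dim X : ℤ) - j) (fun x _ y _ h => by simpa using h)]
      · split_ifs with h
        · rw [S.H.comp_zero_right]
        · rw [S.kun_zero, S.H.comp_zero_right]
          right
          by_contra hle
          apply h
          refine ⟨2 * i - a, Finset.mem_range.2 ?_, ?_⟩ <;> omega
      · rintro ⟨j, hj, h⟩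
        have := Finset.mem_range.1 hj
        omega
  -- a generalized inverse
  obtain ⟨s, hsgr, hs⟩ := S.exists_regular_gr hD (show (2 * S.dim X - i) + i = S.dim X + S.dim X by
    omega) g hggr
  set s' := S.clH _ s with hs'
  have hs'gr := S.clH_gr _ s hsgr
  set G := S.clH _ g with hG'
  rw [S.clH_comp, S.clH_comp, ← hs', ← hG'] at hs
  have hkG : S.H.comp (S.kun X i) G = G := by
    rw [hG, ← S.H.comp_assoc, S.kun_idem]
  have e1 : S.H.comp G t = S.kun X i := by rw [hG, ht1]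
  have e2 : S.H.comp (S.H.comp (S.kun X (2 * S.dim X - i)) t) G = S.kun X (2 * S.dim X - i) := by
    rw [hG, hLk, ← S.H.comp_assoc, ht2, S.kun_idem]
  have hGs : S.A.comp g s ∈ S.A.gr (X ⊗ X) (S.dim X) :=
    S.A.comp_gr S.dim_prod _ _ hggr hsgr (by omega)
  have hsG : S.A.comp s g ∈ S.A.gr (X ⊗ X) (S.dim X) :=
    S.A.comp_gr S.dim_prod _ _ hsgr hggr (by omega)
  constructor
  · refine ⟨_, hGs, ?_⟩
    have h3 : S.H.comp (S.H.comp G s') (S.kun X i) = S.kun X i := by
      rw [← e1, ← S.H.comp_assoc, hs]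
    have h4 := S.kun_gr (S.dim X) (S.clH _ (S.A.comp g s)) (S.clH_gr _ _ hGs) i
    rw [S.clH_comp, ← hs', ← hG'] at h4 ⊢
    rw [show ((i : ℤ) + 2 * (S.dim X : ℤ) - 2 * (S.dim X : ℤ)) = i by ring, h3,
      ← S.H.comp_assoc, hkG] at h4
    exact h4
  · refine ⟨_, hsG, ?_⟩
    rw [S.clH_comp, ← hs', ← hG']
    have h3 : S.H.comp (S.H.comp (S.kun X (2 * S.dim X - i)) s') G = S.kun X (2 * S.dim X - i) := by
      conv_lhs => rw [← e2]
      rw [S.H.comp_assoc _ G s', S.H.comp_assoc, hs, e2]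
    rw [S.kun_gr i s' hs'gr, S.H.comp_assoc,
      show (2 * (S.dim X : ℤ) - i + 2 * (i : ℤ) - 2 * (S.dim X : ℤ)) = i by ring, hkG] at h3
    exact h3

/-- Under conjecture D the Kuenneth components of the diagonal are algebraic. -/
theorem exists_kun (hD : ∀ X, NumHom S X) (X : 𝒱) (i : ℤ) :
    ∃ e ∈ S.A.gr (X ⊗ X) (S.dim X), S.clH _ e = S.kun X i := by
  have h1 : ∀ i : ℕ, i ≤ S.dim X → (∃ e ∈ S.A.gr (X ⊗ X) (S.dim X), S.clH _ e = S.kun X i) ∧
      ∃ e ∈ S.A.gr (X ⊗ X) (S.dim X), S.clH _ e = S.kun X (2 * S.dim X - i) := by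
    intro i
    induction i using Nat.strong_induction_on with
    | _ i ih => exact fun hi => S.exists_kun_aux hD X i hi fun j hj => ih j hj (by omega)
  by_cases h : i < 0 ∨ 2 * (S.dim X : ℤ) < i
  · exact ⟨0, zero_mem _, by rw [map_zero, S.kun_zero X i h]⟩
  · push Not at h
    by_cases h2 : i ≤ S.dim X
    · obtain ⟨k, rfl⟩ := Int.eq_ofNat_of_zero_le h.1
      exact (h1 k (by omega)).1
    · obtain ⟨k, hk⟩ := Int.eq_ofNat_of_zero_le (show 0 ≤ 2 * (S.dim X : ℤ) - i by omega)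
      have := (h1 k (by omega)).2
      rwa [show 2 * (S.dim X : ℤ) - (k : ℤ) = i by omega] at this

end Cohomology

end Pool.Agent.H40.CT
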