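import Pool.Agent.H40.CT.Calc

/-!
# Linear algebra over conjecture D

Module Lin (helper79): degrees, functionals represented by cycles, dual bases.
-/

open CategoryTheory MonoidalCategory CartesianMonoidalCategory

universe u v w

namespace Pool.Agent.H40.CT

variable {𝒱 : Type u} [Category.{v} 𝒱] [CartesianMonoidalCategory 𝒱] {dim : 𝒱 → ℕ}

namespace Theory

variable (T : Theory.{u, v, w} 𝒱 dim) {X Y Z W P : 𝒱}

/-- The degree of a zero-cycle as a rational number. -/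
noncomputable def deg (X : 𝒱) : T.R X →ₗ[ℚ] ℚ :=
  (LinearEquiv.ofBijective (Algebra.linearMap ℚ (T.R (𝟙_ 𝒱))) T.unit_bij).symm.toLinearMap ∘ₗ
    T.push (toUnit X)

theorem algebraMap_deg (X : 𝒱) (a : T.R X) :
    algebraMap ℚ _ (T.deg X a) = T.push (toUnit X) a :=
  (LinearEquiv.ofBijective (Algebra.linearMap ℚ (T.R (𝟙_ 𝒱))) T.unit_bij).apply_symm_apply
    (T.push (toUnit X) a)

theorem deg_eq_zero {a : T.R X} : T.deg X a = 0 ↔ T.push (toUnit X) a = 0 := by
  rw [← T.algebraMap_deg]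
  constructor
  · intro h; rw [h, map_zero]
  · intro h
    apply T.unit_bij.1
    rw [h, map_zero]

theorem deg_push (f : Z ⟶ X) (a : T.R Z) : T.deg X (T.push f a) = T.deg Z a := by
  simp only [deg, LinearMap.comp_apply, ← T.push_comp, comp_toUnit]

theorem deg_tr (g : T.R (Z ⊗ X)) : T.deg _ (T.tr g) = T.deg _ g := by
  rw [tr, ← T.push_swap, T.deg_push]

theorem deg_comp (g : T.R (Z ⊗ X)) (h : T.R (X ⊗ Y)) (e : T.R (Z ⊗ Y)) :
    T.deg _ (T.comp g h * e) = T.deg _ (h * T.comp (T.tr g) e) := by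
  rw [← T.deg_push (snd Z Y), T.push_snd_comp_mul, T.deg_push]

theorem deg_comp' (g : T.R (Z ⊗ X)) (h : T.R (X ⊗ Y)) (e : T.R (Z ⊗ Y)) :
    T.deg _ (T.comp g h * e) = T.deg _ (g * T.comp e (T.tr h)) := by
  rw [← T.deg_push (fst Z Y), T.push_fst_comp_mul, T.deg_push]

theorem deg_act (g : T.R (Z ⊗ X)) (a : T.R Z) (b : T.R X) :
    T.deg _ (T.act g a * b) = T.deg _ (a * T.act (T.tr g) b) := by
  have a1 : T.tr (T.pull (snd Z X) b) = T.pull (fst X Z) b := by
    rw [tr, ← T.pull_comp]; simp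
  have a2 : T.tr (T.pull (fst Z X) a) = T.pull (snd X Z) a := by
    rw [tr, ← T.pull_comp]; simp
  rw [act, act, mul_comm _ b, ← T.push_mul, ← T.push_mul, T.deg_push, T.deg_push, ← T.deg_tr,
    T.tr_mul, T.tr_mul, a1, a2]
  congr 1
  ring

theorem push_snd_pull_fst (Z X : 𝒱) (a : T.R Z) :
    T.push (snd Z X) (T.pull (fst Z X) a) = algebraMap ℚ _ (T.deg Z a) := by
  have h1 := T.base_change (toUnit Z) X a
  have h2 : snd Z X = toUnit Z ▷ X ≫ snd (𝟙_ 𝒱) X := by simp
  have h3 : T.push (snd (𝟙_ 𝒱) X) 1 = 1 := by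
    rw [T.push_iso' (snd (𝟙_ 𝒱) X) (lift (toUnit X) (𝟙 X)) (by ext; simp) (by simp), map_one]
  rw [h2, T.push_comp, ← h1, ← T.algebraMap_deg, AlgHom.commutes, Algebra.algebraMap_eq_smul_one,
    map_smul, h3, Algebra.algebraMap_eq_smul_one]

theorem act_ext (b : T.R Z) (a : T.R X) (c : T.R Z) :
    T.act (T.pull (fst Z X) b * T.pull (snd Z X) a) c = T.deg Z (c * b) • a := by
  have : T.pull (fst Z X) b * T.pull (snd Z X) a * T.pull (fst Z X) c =
      T.pull (snd Z X) a * T.pull (fst Z X) (c * b) := by rw [map_mul]; ring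
  rw [act, this, T.push_mul, T.push_snd_pull_fst, Algebra.algebraMap_eq_smul_one,
    mul_smul_comm, mul_one]

theorem act_diag (a : T.R Z) : T.act (T.diag Z) a = a := by
  rw [act, diag, mul_comm, ← T.push_mul, ← T.push_comp, ← T.pull_comp, mul_one, lift_fst, lift_snd,
    T.pull_id, T.push_id]

end Theory

namespace TheoryHom

variable {S T : Theory.{u, v, w} 𝒱 dim} (φ : TheoryHom S T) {X : 𝒱}

theorem app_deg (a : S.R X) : T.deg X (φ.app X a) = S.deg X a := by
  apply T.unit_bij.1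
  rw [T.algebraMap_deg, ← φ.app_push, ← S.algebraMap_deg, AlgHom.commutes]

end TheoryHom

namespace Cohomology

variable (S : Cohomology.{u, v, w} 𝒱) {X Y Z : 𝒱}

/-- The cycle class map to Betti cohomology. -/
def clH (X : 𝒱) : S.A.R X →ₐ[ℚ] S.H.R X := (S.bet.app X).comp (S.cl.app X)

theorem clH_apply (a : S.A.R X) : S.clH X a = S.bet.app X (S.cl.app X a) := rfl

theorem clH_comp (g : S.A.R (Z ⊗ X)) (h : S.A.R (X ⊗ Y)) :
    S.clH _ (S.A.comp g h) = S.H.comp (S.clH _ g) (S.clH _ h) := by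
  rw [clH_apply, S.cl.app_comp, S.bet.app_comp]; rfl

theorem clH_act (g : S.A.R (Z ⊗ X)) (a : S.A.R Z) :
    S.clH _ (S.A.act g a) = S.H.act (S.clH _ g) (S.clH _ a) := by
  rw [clH_apply, S.cl.app_act, S.bet.app_act]; rfl

theorem clH_tr (g : S.A.R (Z ⊗ X)) : S.clH _ (S.A.tr g) = S.H.tr (S.clH _ g) := by
  rw [clH_apply, S.cl.app_tr, S.bet.app_tr]; rfl

theorem clH_diag (X : 𝒱) : S.clH _ (S.A.diag X) = S.H.diag X := by
  rw [clH_apply, S.cl.app_diag, S.bet.app_diag]

theorem clH_gr (k : ℕ) (a : S.A.R X) (ha : a ∈ S.A.gr X k) : S.clH X a ∈ S.H.gr X k :=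
  S.bet.app_gr X k _ (S.cl.app_gr X k a ha)

theorem deg_clH (a : S.A.R X) : S.H.deg X (S.clH X a) = S.A.deg X a := by
  rw [clH_apply, S.bet.app_deg, S.cl.app_deg]

theorem deg_bet (a : S.D.R X) : S.H.deg X (S.bet.app X a) = S.D.deg X a := S.bet.app_deg a

theorem deg_clD (a : S.A.R X) : S.D.deg X (S.cl.app X a) = S.A.deg X a := S.cl.app_deg a

theorem numHom_iff (X : 𝒱) : NumHom S X ↔ ∀ a : S.A.R X, (∀ b, S.A.deg X (a * b) = 0) →
    S.clH X a = 0 := by
  simp only [NumHom, Theory.deg_eq_zero]; rfl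

theorem duality' (x : S.H.R X) (h : ∀ b, S.H.deg X (x * b) = 0) : x = 0 :=
  S.duality X x fun b => (S.H.deg_eq_zero).1 (h b)

/-- Under conjecture D for `X`, every linear functional on the space of algebraic classes is given by
an algebraic class. -/
theorem exists_dual (hD : NumHom S X) (φ : Module.Dual ℚ (LinearMap.range (S.clH X).toLinearMap)) :
    ∃ b : S.A.R X, ∀ a, S.A.deg X (b * a) = φ ⟨S.clH X a, LinearMap.mem_range_self _ a⟩ := by
  have := S.finH X
  rw [S.numHom_iff] at hD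
  let cl : S.A.R X →ₗ[ℚ] S.H.R X := (S.clH X).toLinearMap
  let R : Submodule ℚ (S.H.R X) := LinearMap.range cl
  let dH : S.H.R X →ₗ[ℚ] S.H.R X →ₗ[ℚ] ℚ :=
    (LinearMap.mul ℚ (S.H.R X)).compr₂ (S.H.deg X)
  let Ψ : S.A.R X →ₗ[ℚ] Module.Dual ℚ R := (LinearMap.lcomp ℚ ℚ R.subtype) ∘ₗ dH ∘ₗ cl
  have hΨ : ∀ c (b : S.A.R X), Ψ c ⟨cl b, LinearMap.mem_range_self _ b⟩ = S.A.deg X (c * b) := by
    intro c b
    rw [← S.deg_clH, map_mul]
    rfl
  have hsurj : LinearMap.range Ψ = ⊤ := by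
    by_contra hne
    have hco : (LinearMap.range Ψ).dualCoannihilator ≠ ⊥ := by
      intro hbot
      apply hne
      have h1 := Subspace.dualCoannihilator_dualAnnihilator_eq (W := LinearMap.range Ψ)
      rw [← h1, hbot, Submodule.dualAnnihilator_bot]
    obtain ⟨r, hr, hr0⟩ := Submodule.exists_mem_ne_zero_of_ne_bot hco
    apply hr0
    obtain ⟨_, b, rfl⟩ := r
    refine Subtype.ext ?_
    refine hD b fun c => ?_
    rw [mul_comm, ← hΨ c b]
    exact (Submodule.mem_dualCoannihilator _).1 hr (Ψ c) (LinearMap.mem_range_self _ c)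
  obtain ⟨c, hc⟩ : φ ∈ LinearMap.range Ψ := hsurj ▸ Submodule.mem_top
  refine ⟨c, fun a => ?_⟩
  rw [← hΨ c a, hc]
  rfl

/-- Under conjecture D for `X`, subspaces of the space of algebraic classes are cut out by algebraic
classes. -/
theorem mem_of_orthogonal (hD : NumHom S X) (U : Submodule ℚ (S.A.R X)) (y : S.A.R X)
    (hy : ∀ c, (∀ s ∈ U, S.A.deg X (c * s) = 0) → S.A.deg X (c * y) = 0) :
    ∃ s ∈ U, S.clH X s = S.clH X y := by
  have := S.finH X
  by_contra hno
  let cl : S.A.R X →ₗ[ℚ] S.H.R X := (S.clH X).toLinearMap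
  let R : Submodule ℚ (S.H.R X) := LinearMap.range cl
  let U' : Submodule ℚ R := (U.map cl).comap R.subtype
  let y' : R := ⟨cl y, LinearMap.mem_range_self _ y⟩
  have hy' : y' ∉ U' := by
    rintro ⟨s, hs, hsy⟩
    exact hno ⟨s, hs, hsy⟩
  obtain ⟨φ, hφ1, hφ2⟩ := Submodule.exists_le_ker_of_notMem hy'
  obtain ⟨c, hc⟩ := S.exists_dual hD φ
  apply hφ1
  have h1 := hc y
  have h2 : S.A.deg X (c * y) = 0 := by
    refine hy c fun s hs => ?_
    rw [hc s]
    exact hφ2 (show (⟨cl s, _⟩ : R) ∈ U' from Submodule.mem_map_of_mem hs)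
  rw [h2] at h1
  exact h1.symm

/-- Under conjecture D for `X`: a finite dual basis for the algebraic classes. -/
theorem exists_dual_basis (hD : NumHom S X) : ∃ (n : ℕ) (a b : Fin n → S.A.R X),
    ∀ x, S.clH X (x - ∑ i, S.A.deg X (x * b i) • a i) = 0 := by
  have := S.finH X
  let cl : S.A.R X →ₗ[ℚ] S.H.R X := (S.clH X).toLinearMap
  let R : Submodule ℚ (S.H.R X) := LinearMap.range cl
  let B := Module.finBasis ℚ R
  have h1 : ∀ i, ∃ a : S.A.R X, cl a = B i := fun i => (B i).2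
  choose a ha using h1
  have h2 : ∀ i, ∃ b : S.A.R X, ∀ x, S.A.deg X (b * x) =
      B.coord i ⟨cl x, LinearMap.mem_range_self _ x⟩ := fun i => S.exists_dual hD (B.coord i)
  choose b hb using h2
  refine ⟨_, a, b, fun x => ?_⟩
  rw [map_sub, map_sum, sub_eq_zero]
  have h3 := B.sum_repr ⟨cl x, LinearMap.mem_range_self _ x⟩
  have h4 := congrArg (Subtype.val) h3
  rw [Submodule.coe_sum] at h4
  refine Eq.trans (Eq.symm h4) ?_
  refine Finset.sum_congr rfl fun i _ => ?_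
  rw [map_smul, Submodule.coe_smul, ← ha i, mul_comm x, hb i x]
  rfl

/-- The correspondence `tau` which kills algebraic classes (up to homological equivalence) and fixes
all classes orthogonal to algebraic classes. -/
theorem exists_tau (hD : NumHom S Z) : ∃ t : S.A.R (Z ⊗ Z),
    (∀ z, S.clH Z (S.A.act t z) = 0) ∧
    ∀ d : S.D.R Z, (∀ z, S.D.deg Z (d * S.cl.app Z z) = 0) → S.D.act (S.cl.app _ t) d = d := by
  obtain ⟨n, a, b, hab⟩ := S.exists_dual_basis hD
  refine ⟨S.A.diag Z - ∑ i, S.A.pull (fst Z Z) (b i) * S.A.pull (snd Z Z) (a i), ?_, ?_⟩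
  · intro z
    rw [S.A.act_sub_left, S.A.act_diag, ← Theory.actL_apply, map_sum, LinearMap.sum_apply]
    simp only [Theory.actL_apply, S.A.act_ext]
    exact hab z
  · intro d hd
    rw [map_sub, S.cl.app_diag, S.D.act_sub_left, S.D.act_diag, map_sum, ← Theory.actL_apply,
      map_sum, LinearMap.sum_apply]
    simp only [Theory.actL_apply, map_mul, S.cl.app_pull, S.D.act_ext, hd, zero_smul,
      Finset.sum_const_zero, sub_zero]

end Cohomology

end Pool.Agent.H40.CT
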