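import Pool.Agent.H40.CT.Calc2

/-!
# Semisimplicity

Module Sem (helper40): Hodge classes in the image of `f_*` are images of Hodge classes, and Hodge
classes pair perfectly with Hodge classes.
-/

open CategoryTheory MonoidalCategory CartesianMonoidalCategory

universe u v w

namespace Pool.Agent.H40.CT

variable {𝒱 : Type u} [Category.{v} 𝒱] [CartesianMonoidalCategory 𝒱]

namespace Cohomology

variable (S : Cohomology.{u, v, w} 𝒱) {X Y Z : 𝒱}

/-- Hodge classes in the image of a Hodge correspondence are images of Hodge classes. -/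
theorem strict_act (g : S.D.R (Z ⊗ X)) (h : S.H.R Z) (d : S.D.R X)
    (hh : S.H.act (S.bet.app _ g) h = S.bet.app X d) :
    ∃ d', S.bet.app X (S.D.act g d') = S.bet.app X d := by
  obtain ⟨s, hs⟩ := S.regular g
  refine ⟨S.D.act s d, ?_⟩
  rw [S.bet.app_act, S.bet.app_act, ← hh, ← S.H.act_comp, ← S.H.act_comp, ← S.H.comp_assoc,
    ← S.bet.app_comp, ← S.bet.app_comp, hs]

theorem strict (f : Z ⟶ X) (h : S.H.R Z) (d : S.D.R X) (hh : S.H.push f h = S.bet.app X d) :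
    ∃ d', S.bet.app X (S.D.push f d') = S.bet.app X d := by
  obtain ⟨d', hd'⟩ := S.strict_act (S.D.push (lift (𝟙 Z) f) 1) h d (by
    rw [S.bet.app_push, map_one, S.H.act_graph, one_mul, hh])
  exact ⟨d', by rw [← hd', S.D.act_graph, one_mul]⟩

theorem exists_deg_ne_zero (d : S.D.R Z) (hd : S.bet.app Z d ≠ 0) :
    ∃ h, S.D.deg Z (h * d) ≠ 0 := by
  obtain ⟨x, hx⟩ : ∃ x, S.H.deg Z (S.bet.app Z d * x) ≠ 0 := by
    by_contra hno
    push Not at hno
    exact hd (S.duality' _ hno)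
  have h1 : (1 : S.H.R Z) ≠ 0 := by
    intro h
    apply hd
    rw [← mul_one (S.bet.app Z d), h, mul_zero]
  obtain ⟨s, hs⟩ := S.regular (S.D.pull (fst Z Z) d * S.D.pull (snd Z Z) 1)
  refine ⟨S.D.act s 1, fun h0 => ?_⟩
  have e1 : ∀ c, S.H.act (S.bet.app _ (S.D.pull (fst Z Z) d * S.D.pull (snd Z Z) 1)) c =
      S.H.deg Z (c * S.bet.app Z d) • 1 := by
    intro c
    rw [map_mul, S.bet.app_pull, S.bet.app_pull, map_one, S.H.act_ext]
  have h2 : S.H.act _ x = S.H.act _ x := congrArg (fun g => S.H.act g x) hs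
  rw [S.bet.app_comp, S.bet.app_comp, S.H.act_comp, S.H.act_comp, e1, e1,
    ← Theory.actL_apply (S.H) (S.bet.app _ s), map_smul, Theory.actL_apply, smul_mul_assoc,
    map_smul, ← map_one (S.bet.app Z), ← S.bet.app_act, ← map_mul, S.deg_bet, h0, smul_zero,
    zero_smul, map_one] at h2
  rcases smul_eq_zero.1 h2.symm with h3 | h3
  · rw [mul_comm] at h3
    exact hx h3
  · exact h1 h3

/-- Hodge classes pair perfectly with Hodge classes. -/
theorem exists_hodge_dual (M : Submodule ℚ (S.H.R Z)) (x : S.D.R Z) (hx : S.bet.app Z x ∉ M) :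
    ∃ h : S.D.R Z, (∀ y : S.D.R Z, S.bet.app Z y ∈ M → S.D.deg Z (h * y) = 0) ∧
      S.D.deg Z (h * x) ≠ 0 := by
  have := S.finH Z
  let β : S.D.R Z →ₗ[ℚ] S.H.R Z := (S.bet.app Z).toLinearMap
  let B : Submodule ℚ (S.H.R Z) := LinearMap.range β
  let dH : S.H.R Z →ₗ[ℚ] S.H.R Z →ₗ[ℚ] ℚ := (LinearMap.mul ℚ (S.H.R Z)).compr₂ (S.H.deg Z)
  let Ψ : B →ₗ[ℚ] Module.Dual ℚ B := (LinearMap.lcomp ℚ ℚ B.subtype) ∘ₗ dH ∘ₗ B.subtype
  have hΨ : ∀ b c : B, Ψ b c = S.H.deg Z ((b : S.H.R Z) * (c : S.H.R Z)) := fun b c => rfl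
  have hinj : Function.Injective Ψ := by
    rw [injective_iff_map_eq_zero]
    rintro ⟨_, ⟨d, rfl⟩⟩ hb
    by_contra hne
    obtain ⟨h, hh⟩ := S.exists_deg_ne_zero d fun h0 => hne (Subtype.ext h0)
    apply hh
    have h2 := congrArg (fun f => f ⟨β h, ⟨h, rfl⟩⟩) hb
    simp only [hΨ, LinearMap.zero_apply] at h2
    rw [← S.deg_bet, map_mul, mul_comm]
    exact h2
  have hsurj : Function.Surjective Ψ :=
    (LinearMap.injective_iff_surjective_of_finrank_eq_finrank (by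
      rw [Subspace.dual_finrank_eq])).1 hinj
  obtain ⟨f, hf, hfM⟩ := Submodule.exists_dual_map_eq_bot_of_notMem hx inferInstance
  obtain ⟨⟨_, ⟨h, rfl⟩⟩, hh⟩ := hsurj (f ∘ₗ B.subtype)
  have key : ∀ y : S.D.R Z, S.D.deg Z (h * y) = f (S.bet.app Z y) := by
    intro y
    have h2 := congrArg (fun g => g ⟨β y, ⟨y, rfl⟩⟩) hh
    simp only [hΨ, LinearMap.comp_apply] at h2
    rw [← S.deg_bet, map_mul]
    exact h2
  refine ⟨h, fun y hy => ?_, ?_⟩
  · rw [key]
    have h3 : f (S.bet.app Z y) ∈ M.map f := Submodule.mem_map_of_mem hy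
    rw [hfM] at h3
    exact (Submodule.mem_bot ℚ).1 h3
  · rw [key]
    exact hf

end Cohomology

end Pool.Agent.H40.CT
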