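import Pool.Agent.H40.CT.One
import Pool.Agent.H40.CT.Part
import Pool.Agent.H40.CT.Sem

/-!
# From open varieties to conjecture D

Module Num. As in `Results/MP_537ea0_ag/StandardConjectureD.lean`: it is enough to treat
homogeneous classes (components of a numerically trivial class are numerically trivial,
`push_unit_gr`); codimension zero: constants (`gr_zero`), paired with the class of a point. A class
`a` of positive codimension on `Z` is `pull f c` for some `f : Z ⟶ P`, `P` a cell (`bundles` gives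
`a = pull (lift f g) (pull fst b - pull snd b)`). By `duality` show
`H.push toUnit (clH a * h) = 0` for all `h`. `push f h` is the Betti class of a cycle class `y` on
`P` (`cl_bij`, `bet_bij`), by `strict` there is `d'` on `Z` with `bet (D.push f d') = bet (cl y)`, so
`D.push f d' = cl y` (`bet_bij`), and `Q1` for the complement of the image of `f` (`q1_iff`, family
with `n = 1`) gives `y = push f z`. Hence the number is `deg (c * y) = deg (a * z) = 0`.
-/

open CategoryTheory MonoidalCategory CartesianMonoidalCategory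

universe u v w

namespace Pool.Agent.H40.CT

variable {𝒱 : Type u} [Category.{v} 𝒱] [CartesianMonoidalCategory 𝒱]

namespace Theory

variable {dim : 𝒱 → ℕ} (T : Theory.{u, v, w} 𝒱 dim) {X Y Z W P : 𝒱}

theorem deg_of_mem (hd : dim (𝟙_ 𝒱) = 0) {k : ℕ} (hk : k ≠ dim X) {a : T.R X} (ha : a ∈ T.gr X k) :
    T.deg X a = 0 :=
  (T.deg_eq_zero).2 (T.push_unit_gr hd k hk a ha)

theorem deg_part_mul (hd : dim (𝟙_ 𝒱) = 0) {k l : ℕ} (hkl : k + l = dim X) (a b : T.R X) :
    T.deg X (T.part X k a * b) = T.deg X (a * T.part X l b) := by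
  have key : ∀ i j, ∀ a ∈ T.gr X i, ∀ b ∈ T.gr X j,
      T.deg X (T.part X k a * b) = T.deg X (a * T.part X l b) := by
    intro i j a ha b hb
    by_cases hi : i = k
    · by_cases hj : j = l
      · rw [hi] at ha
        rw [hj] at hb
        rw [T.part_of_mem k ha, T.part_of_mem l hb]
      · rw [T.part_of_mem_ne hj hb, mul_zero, map_zero]
        exact T.deg_of_mem hd (by omega) (SetLike.mul_mem_graded (T.part_mem k a) hb)
    · rw [T.part_of_mem_ne hi ha, zero_mul, map_zero]
      exact (T.deg_of_mem hd (by omega) (SetLike.mul_mem_graded ha (T.part_mem l b))).symm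
  refine T.hom_ind (p := fun a => T.deg X (T.part X k a * b) = T.deg X (a * T.part X l b))
    ?_ ?_ ?_ a
  · simp only [map_zero, zero_mul]
  · intro a a' h h'
    simp only [map_add, add_mul, h, h']
  · intro i a ha
    refine T.hom_ind (p := fun b => T.deg X (T.part X k a * b) = T.deg X (a * T.part X l b))
      ?_ ?_ ?_ b
    · simp only [map_zero, mul_zero]
    · intro a a' h h'
      simp only [map_add, mul_add, h, h']
    · intro j b hb
      exact key i j a ha b hb

theorem deg_unit (a : ℚ) : T.deg (𝟙_ 𝒱) (algebraMap ℚ _ a) = a := by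
  apply T.unit_bij.1
  rw [T.algebraMap_deg, toUnit_unit, T.push_id]

/-- components of numerically trivial classes are numerically trivial -/
theorem deg_part_eq_zero (hd : dim (𝟙_ 𝒱) = 0) (a : T.R X) (h : ∀ b, T.deg X (a * b) = 0) (k : ℕ)
    (b : T.R X) : T.deg X (T.part X k a * b) = 0 := by
  by_cases hk : k ≤ dim X
  · rw [T.deg_part_mul hd (show k + (dim X - k) = dim X by omega)]
    exact h _
  · refine T.hom_ind (p := fun b => T.deg X (T.part X k a * b) = 0) ?_ ?_ ?_ b
    · rw [mul_zero, map_zero]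
    · intro b b' hb hb'
      rw [mul_add, map_add, hb, hb', add_zero]
    · intro l b hb
      exact T.deg_of_mem hd (by omega) (SetLike.mul_mem_graded (T.part_mem k a) hb)

end Theory

variable (S : Cohomology.{u, v, w} 𝒱) (O : Opens S)

theorem numHom_of_q1 (C : Cells S) (h : Q1 S O) (Z : 𝒱) : NumHom S Z := by
  rw [S.numHom_iff]
  intro a ha
  apply S.H.eq_zero_of_part
  intro k
  rw [S.part_clH]
  have hak : ∀ b, S.A.deg Z (S.A.part Z k a * b) = 0 := S.A.deg_part_eq_zero S.dim_unit a ha k
  have hk := S.A.part_mem k a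
  generalize S.A.part Z k a = a' at hak hk
  rcases Nat.eq_zero_or_pos k with rfl | hk0
  · obtain ⟨q, rfl⟩ := S.A.gr_zero Z a' hk
    have h1 := hak (S.A.push (S.pt Z) 1)
    rw [Algebra.algebraMap_eq_smul_one, smul_mul_assoc, one_mul, map_smul, S.A.deg_push,
      ← map_one (algebraMap ℚ (S.A.R (𝟙_ 𝒱))), S.A.deg_unit, smul_eq_mul, mul_one] at h1
    rw [h1, map_zero, map_zero]
  · obtain ⟨P, f, g, b, hP, hab, -⟩ := C.bundles Z k hk0 a' hk
    have hQ := C.cell_prod P P hP hP
    set F : Z ⟶ P ⊗ P := lift f g with hF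
    set c : S.A.R (P ⊗ P) := S.A.pull (fst P P) b - S.A.pull (snd P P) b with hc
    have hac : a' = S.A.pull F c := by
      rw [hc, map_sub, ← S.A.pull_comp, ← S.A.pull_comp, hF, lift_fst, lift_snd, hab]
    apply S.duality'
    intro x
    obtain ⟨d₀, hd₀⟩ := (C.bet_bij _ hQ).2 (S.H.push F x)
    obtain ⟨y, hy⟩ := (C.cl_bij _ hQ).2 d₀
    obtain ⟨d', hd'⟩ := S.strict F x d₀ hd₀.symm
    have h1 : S.D.push F d' = d₀ := (C.bet_bij _ hQ).1 hd'
    have h2 := (q1_iff S O).1 h (P ⊗ P) ⟨1, fun _ => Z, fun _ => F⟩ y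
    rw [iSup_unique, iSup_unique] at h2
    obtain ⟨z, hz⟩ := h2 ⟨d', by rw [h1, hy]⟩
    change S.A.push F z = y at hz
    rw [hac, clH_pull, ← S.H.deg_push F, S.H.push_mul, ← hd₀, ← hy, ← S.clH_apply, ← map_mul,
      S.deg_clH, ← hz, ← S.A.push_mul, S.A.deg_push, ← hac]
    exact hak z

end Pool.Agent.H40.CT
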