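import Pool.Agent.H40.CT.Calc2

/-!
# From open varieties to projective ones

Module One. `bb_of_q1`: the empty family (`n = 0`): the kernels of `resA`, `resD` are zero.
`q1_iff`: `res_surj`, `cl_res`, `resA_ker`, `resD_ker`.
-/

open CategoryTheory MonoidalCategory CartesianMonoidalCategory

universe u v w

namespace Pool.Agent.H40.CT

variable {𝒱 : Type u} [Category.{v} 𝒱] [CartesianMonoidalCategory 𝒱]
  (S : Cohomology.{u, v, w} 𝒱) (O : Opens S)

theorem q1_iff : Q1 S O ↔ ∀ (X : 𝒱) (F : Family X) (a : S.A.R X),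
    S.cl.app X a ∈ (⨆ i, LinearMap.range (S.D.push (F.f i)) : Submodule ℚ (S.D.R X)) →
      a ∈ (⨆ i, LinearMap.range (S.A.push (F.f i)) : Submodule ℚ (S.A.R X)) := by
  refine forall₂_congr fun X F => ?_
  rw [← O.resA_ker, ← O.resD_ker, injective_iff_map_eq_zero]
  simp only [LinearMap.mem_ker, ← O.cl_res]
  constructor
  · intro h a ha
    exact h _ ha
  · intro h x hx
    obtain ⟨a, rfl⟩ := O.res_surj X F x
    exact h a hx

theorem bb_of_q1 (h : Q1 S O) : BB S := by
  intro X
  rw [injective_iff_map_eq_zero]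
  intro a ha
  have h1 := (q1_iff S O).1 h X ⟨0, Fin.elim0, fun i => i.elim0⟩ a
  rw [ha] at h1
  have h2 := h1 (Submodule.zero_mem _)
  rwa [iSup_of_empty, Submodule.mem_bot] at h2

end Pool.Agent.H40.CT
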