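import Pool.Agent.H40.CT.Mrg
import Pool.Agent.H40.CT.One

/-!
# From strictness to open varieties

Module Qst. `q1_iff`, `merge` for the graphs `push (lift (𝟙 _) (F.f i)) 1` (`act_graph`,
`TheoryHom.app_push`).
-/

open CategoryTheory MonoidalCategory CartesianMonoidalCategory

universe u v w

namespace Pool.Agent.H40.CT

variable {𝒱 : Type u} [Category.{v} 𝒱] [CartesianMonoidalCategory 𝒱]
  (S : Cohomology.{u, v, w} 𝒱) (O : Opens S)

theorem mem_iSup_range_iff {ι : Type*} [Fintype ι] {M : ι → Type*} {N : Type*}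
    [∀ i, AddCommGroup (M i)] [∀ i, Module ℚ (M i)] [AddCommGroup N] [Module ℚ N]
    (f : ∀ i, M i →ₗ[ℚ] N) (a : N) :
    a ∈ (⨆ i, LinearMap.range (f i)) ↔ ∃ d : ∀ i, M i, a = ∑ i, f i (d i) := by
  constructor
  · intro h
    obtain ⟨x, hx, hxa⟩ := (Submodule.mem_iSup_iff_exists_finsupp _ _).1 h
    choose d hd using hx
    refine ⟨d, ?_⟩
    rw [← hxa, Finsupp.sum_fintype _ _ fun _ => rfl]
    exact Finset.sum_congr rfl fun i _ => (hd i).symm
  · rintro ⟨d, rfl⟩
    exact sum_mem fun i _ => Submodule.mem_iSup_of_mem i ⟨d i, rfl⟩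

theorem q1_of_strict (h : Strict S) : Q1 S O := by
  rw [q1_iff S O]
  intro X F a ha
  rw [mem_iSup_range_iff] at ha ⊢
  obtain ⟨d, hd⟩ := ha
  obtain ⟨z, hz⟩ := merge S h X F.n F.Z (fun i => S.A.push (lift (𝟙 _) (F.f i)) 1) d a (by
    rw [hd]
    refine Finset.sum_congr rfl fun i _ => ?_
    rw [S.cl.app_push, map_one, S.D.act_graph, one_mul])
  refine ⟨z, ?_⟩
  rw [hz]
  refine Finset.sum_congr rfl fun i _ => ?_
  rw [S.A.act_graph, one_mul]

end Pool.Agent.H40.CT
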