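import Pool.Agent.H40.CT.Inv
import Pool.Agent.H40.CT.Num
import Pool.Agent.H40.CT.Str
import Pool.Agent.H40.CT.Qst
import Pool.Agent.H40.CT.Ker
import Pool.Agent.H40.CT.Back

open CategoryTheory MonoidalCategory CartesianMonoidalCategory

universe u v w

namespace Pool.Agent.H40.CT

variable {𝒱 : Type u} [Category.{v} 𝒱] [CartesianMonoidalCategory 𝒱]

theorem main (S : Cohomology.{u, v, w} 𝒱) (C : Cells S) (O : Opens S) :
    List.TFAE [Q1 S O, Strict S, BB S ∧ (∀ Z, NumHom S Z) ∧ Invisible S,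
      (∀ Z, NumHom S Z) ∧ Kernel S, (∀ Z, NumHom S Z) ∧ KernelAll S] := by
  tfae_have 1 → 3 := fun h =>
    have hN := numHom_of_q1 S O C h
    ⟨bb_of_q1 S O h, hN, invisible_of_q1 S O C hN h⟩
  tfae_have 3 → 2 := fun h => strict_of S C h.1 h.2.1 h.2.2
  tfae_have 2 → 1 := fun h => q1_of_strict S O h
  tfae_have 3 → 5 := fun h => ⟨h.2.1, kernelAll_of S h.2.1 (kernel_of S C h.1 h.2.1 h.2.2)⟩
  tfae_have 5 → 4 := fun h => ⟨h.1, fun Z X g _ d hd => h.2 Z X g d hd⟩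
  tfae_have 4 → 3 := fun h => ⟨bb_of_kernel S h.2, h.1, invisible_of_kernel S h.1 h.2⟩
  tfae_finish

end Pool.Agent.H40.CT
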