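import Pool.Agent.H40.CT.Kun
import Pool.Agent.H40.CT.Calc2

/-!
# Purity

Module Pur.

`comp_kun_mul`: `pull fst h * c = comp (mulcl h) c`, `mulcl h` has codimension `p + dim Z`, so
`kun_gr` gives `comp (kun i) (mulcl h) = comp (mulcl h) (kun (i + 2p))`, and `i + 2p = 2 dim Z`,
`kun_top`, `ptr_comp`, `mulcl_comp`, `comp_assoc`.

`comp_kun_top`: `kun_gr` with `c` of codimension `p`, `kun_bot`, `comp_ptl`.

`act_pure`: `push_snd_comp_mul` with `tr e` gives `push snd (g * comp e (cl q * pull fst d))`; the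
Betti class of `comp e (..)` is given by `comp_kun_mul`, and `cl g` times an element of `D` with
Betti class zero is zero (`mul_eq_zero`); then the projection formula.

`act_pure'`: the same in `A` with `comp_kun_top` and `BB`.
-/

open CategoryTheory MonoidalCategory CartesianMonoidalCategory

universe u v w

namespace Pool.Agent.H40.CT

variable {𝒱 : Type u} [Category.{v} 𝒱] [CartesianMonoidalCategory 𝒱]

namespace Cohomology

variable (S : Cohomology.{u, v, w} 𝒱) {X Y Z : 𝒱}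

/-- The component in `H^(2p)(Z) ⊗ H(X)` of `d * q` for `d` of codimension `p` only depends on the
restriction of `q` to `{z} × X`. -/
theorem kun_pull_mul (p : ℕ) (z : 𝟙_ 𝒱 ⟶ Z) (d : S.H.R Z) (hd : d ∈ S.H.gr Z p)
    (q : S.H.R (Z ⊗ X)) :
    S.H.comp (S.kun Z (2 * S.dim Z - 2 * p)) (S.H.pull (fst Z X) d * q) =
      S.H.pull (fst Z X) d *
        S.H.pull (snd Z X) (S.H.pull (lift (toUnit X ≫ z) (𝟙 X)) q) := by
  have h1 := S.H.mulcl_gr S.dim_prod d hd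
  rw [← S.H.mulcl_comp, ← S.H.comp_assoc, S.kun_gr _ _ h1, S.H.comp_assoc]
  have h2 : (2 * (S.dim Z : ℤ) - 2 * p + 2 * ((p + S.dim Z : ℕ) : ℤ) - 2 * S.dim Z) =
      2 * S.dim Z := by push_cast; ring
  rw [h2, S.kun_top Z z, S.H.ptr_comp, S.H.mulcl_comp]

/-- The component in `H^(2p)(Z) ⊗ H(X)` of a class of codimension `p` is its restriction to
`Z × {x}`. -/
theorem kun_restrict (p : ℕ) (x : 𝟙_ 𝒱 ⟶ X) (c : S.H.R (Z ⊗ X)) (hc : c ∈ S.H.gr (Z ⊗ X) p) :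
    S.H.comp (S.kun Z (2 * S.dim Z - 2 * p)) c =
      S.H.pull (fst Z X) (S.H.pull (lift (𝟙 Z) (toUnit Z ≫ x)) c) := by
  rw [S.kun_gr _ _ hc]
  have h2 : (2 * (S.dim Z : ℤ) - 2 * p + 2 * (p : ℤ) - 2 * S.dim Z) = 0 := by ring
  rw [h2, S.kun_bot X x, S.H.comp_ptl]

/-- `kun X j` acts on classes of codimension `r` as the identity if `j = 2 r` and as zero
otherwise. -/
theorem act_kun (j : ℤ) (r : ℕ) (b : S.H.R X) (hb : b ∈ S.H.gr X r) :
    S.H.act (S.kun X j) b = if j = 2 * r then b else 0 := by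
  -- `b` as a correspondence from the point
  set b' := S.H.pull (snd (𝟙_ 𝒱) X) b with hb'
  have hbgr : b' ∈ S.H.gr (𝟙_ 𝒱 ⊗ X) r := S.H.pull_gr _ _ _ hb
  have h1 := S.kun_gr r b' hbgr (j - 2 * r)
  rw [S.dim_unit] at h1
  have h2 : (j - 2 * (r : ℤ) + 2 * r - 2 * ((0 : ℕ) : ℤ)) = j := by push_cast; ring
  rw [h2] at h1
  -- the restriction to the point
  have h3 : ∀ g : S.H.R (X ⊗ X), S.H.pull (lift (toUnit X) (𝟙 X)) (S.H.comp b' g) =
      S.H.act g b := by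
    intro g
    have a1 : b' = S.H.pull (fst (𝟙_ 𝒱) X) 1 * S.H.pull (snd (𝟙_ 𝒱) X) b := by
      rw [map_one, one_mul]
    rw [a1, S.H.ext_comp, map_one, one_mul, ← S.H.pull_comp, lift_snd, S.H.pull_id]
    rfl
  rw [← h3, ← h1]
  split_ifs with h
  · have h4 : S.kun (𝟙_ 𝒱) 0 = S.H.diag (𝟙_ 𝒱) := by
      have := S.kun_sum (𝟙_ 𝒱)
      rw [S.dim_unit] at this
      simpa using this
    have h5 : j - 2 * (r : ℤ) = 0 := by rw [h]; ring
    rw [h5, h4, S.H.diag_comp, hb', ← S.H.pull_comp, lift_snd, S.H.pull_id]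
  · rw [S.kun_zero, S.H.comp_zero_left, map_zero]
    rw [S.dim_unit]
    by_contra hc
    push Not at hc
    apply h
    have := hc.1
    have := hc.2
    push_cast at *
    omega

/-- The transpose of `kun Z (2 dim Z - 2 p)` fixes classes of codimension `p`. -/
theorem act_tr_kun (p : ℕ) (d : S.H.R Z) (hd : d ∈ S.H.gr Z p) :
    S.H.act (S.H.tr (S.kun Z (2 * S.dim Z - 2 * p))) d = d := by
  rw [← sub_eq_zero]
  refine S.duality' _ fun b => ?_
  rw [sub_mul, map_sub, S.H.deg_act, S.H.tr_tr, sub_eq_zero]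
  obtain ⟨F, hF⟩ := S.H.exists_sum_part b
  rw [hF, ← Theory.actL_apply, map_sum, Finset.mul_sum, Finset.mul_sum, map_sum, map_sum]
  refine Finset.sum_congr rfl fun r _ => ?_
  rw [Theory.actL_apply, S.act_kun _ r _ (S.H.part_mem r b)]
  split_ifs with h
  · rfl
  · rw [mul_zero, map_zero]
    symm
    rw [S.H.deg_eq_zero]
    refine S.H.push_unit_gr S.dim_unit (p + r) ?_ _ (SetLike.mul_mem_graded hd (S.H.part_mem r b))
    intro h'
    apply h
    have : ((p + r : ℕ) : ℤ) = S.dim Z := by rw [h']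
    push_cast at this
    omega

/-- Homologically trivial correspondences kill homologically trivial classes. -/
theorem act_eq_zero (g : S.D.R (Z ⊗ X)) (hg : S.bet.app _ g = 0) (d : S.D.R Z)
    (hd : S.bet.app _ d = 0) : S.D.act g d = 0 := by
  rw [Theory.act, S.mul_eq_zero _ _ _ hg, map_zero]
  rw [S.bet.app_pull, hd, map_zero]

section

variable (p : ℕ) (r : S.A.R (Z ⊗ Z)) (hr : S.clH _ r = S.kun Z (2 * S.dim Z - 2 * p))
  (g : S.A.R (Z ⊗ X)) (hg : S.clH _ g = 0)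

include hr hg

/-- After composition with `tr r` only the component in `H^(2p)(Z) ⊗ H(X)` counts. -/
theorem push_snd_congr (e e' : S.D.R (Z ⊗ X))
    (he : S.H.comp (S.kun Z (2 * S.dim Z - 2 * p)) (S.bet.app _ e) =
      S.H.comp (S.kun Z (2 * S.dim Z - 2 * p)) (S.bet.app _ e')) :
    S.D.push (snd Z X) (S.cl.app _ (S.A.comp (S.A.tr r) g) * e) =
      S.D.push (snd Z X) (S.cl.app _ (S.A.comp (S.A.tr r) g) * e') := by
  rw [S.cl.app_comp, S.D.push_snd_comp_mul, S.D.push_snd_comp_mul, ← S.cl.app_tr, S.A.tr_tr,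
    ← sub_eq_zero, ← map_sub, ← mul_sub]
  have h0 : S.bet.app _ (S.D.comp (S.cl.app _ r) e - S.D.comp (S.cl.app _ r) e') = 0 := by
    rw [map_sub, S.bet.app_comp, S.bet.app_comp]
    change S.H.comp (S.clH _ r) _ - S.H.comp (S.clH _ r) _ = 0
    rw [hr, he, sub_self]
  have h1 := S.mul_eq_zero _ (S.cl.app _ g) _ hg h0
  rw [h1, map_zero]

/-- Purity: for `d` of codimension `p` only the restriction of `q` to `{z} × X` counts. -/
theorem push_mul_left (z : 𝟙_ 𝒱 ⟶ Z) (d : S.D.R Z) (hd : d ∈ S.D.gr Z p) (q : S.D.R (Z ⊗ X)) :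
    S.D.push (snd Z X) (S.cl.app _ (S.A.comp (S.A.tr r) g) * (S.D.pull (fst Z X) d * q)) =
      S.D.pull (lift (toUnit X ≫ z) (𝟙 X)) q *
        S.D.act (S.cl.app _ (S.A.comp (S.A.tr r) g)) d := by
  have hbd := S.bet.app_gr _ _ _ hd
  rw [S.push_snd_congr p r hr g hg _ (S.D.pull (fst Z X) d *
    S.D.pull (snd Z X) (S.D.pull (lift (toUnit X ≫ z) (𝟙 X)) q))]
  · rw [Theory.act, ← S.D.push_mul]
    congr 1
    ring
  · simp only [map_mul, S.bet.app_pull]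
    rw [S.kun_pull_mul p z _ hbd, S.kun_pull_mul p z _ hbd]
    congr 2
    rw [← S.H.pull_comp _ (snd Z X), lift_snd, S.H.pull_id]

/-- Purity: for `c` of codimension `p` only the restriction to `Z × {x}` counts. -/
theorem push_mul_restrict (hBB : BB S) (x : 𝟙_ 𝒱 ⟶ X) (c : S.A.R (Z ⊗ X))
    (hc : c ∈ S.A.gr (Z ⊗ X) p) :
    S.A.push (snd Z X) (S.A.comp (S.A.tr r) g * c) =
      S.A.act (S.A.comp (S.A.tr r) g) (S.A.pull (lift (𝟙 Z) (toUnit Z ≫ x)) c) := by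
  apply hBB
  have hbc := S.clH_gr _ _ hc
  rw [Theory.act, S.cl.app_push, S.cl.app_push, map_mul (S.cl.app _), map_mul (S.cl.app _)]
  refine S.push_snd_congr p r hr g hg _ _ ?_
  change S.H.comp _ (S.clH _ c) = S.H.comp _ (S.clH _ _)
  have h1 : S.clH _ (S.A.pull (fst Z X) (S.A.pull (lift (𝟙 Z) (toUnit Z ≫ x)) c)) =
      S.H.pull (fst Z X) (S.H.pull (lift (𝟙 Z) (toUnit Z ≫ x)) (S.clH _ c)) := by
    rw [clH_apply, S.cl.app_pull, S.cl.app_pull, S.bet.app_pull, S.bet.app_pull]; rfl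
  have h2 : S.H.pull (fst Z X) (S.H.pull (lift (𝟙 Z) (toUnit Z ≫ x)) (S.clH _ c)) ∈
      S.H.gr (Z ⊗ X) p := S.H.pull_gr _ _ _ (S.H.pull_gr _ _ _ hbc)
  rw [h1, S.kun_restrict p x _ hbc, S.kun_restrict p x _ h2, ← S.H.pull_comp _ (fst Z X), lift_fst,
    S.H.pull_id]

/-- The composite `comp (tr r) g` acts on classes of codimension `p` as `g`. -/
theorem act_comp_tr (d : S.D.R Z) (hd : d ∈ S.D.gr Z p) :
    S.D.act (S.cl.app _ (S.A.comp (S.A.tr r) g)) d = S.D.act (S.cl.app _ g) d := by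
  rw [S.cl.app_comp, S.D.act_comp, ← sub_eq_zero, ← S.D.act_sub_right]
  refine S.act_eq_zero _ hg _ ?_
  rw [map_sub, S.bet.app_act, S.cl.app_tr, S.bet.app_tr]
  change S.H.act (S.H.tr (S.clH _ r)) _ - _ = 0
  rw [hr, S.act_tr_kun p _ (S.bet.app_gr _ _ _ hd), sub_self]

end

end Cohomology

variable (S : Cohomology.{u, v, w} 𝒱) {X Y Z : 𝒱}

theorem comp_kun_mul {p : ℕ} (h : S.H.R Z) (hh : h ∈ S.H.gr Z p) (c : S.H.R (Z ⊗ X)) :
    S.H.comp (S.kun Z (2 * S.dim Z - 2 * p)) (S.H.pull (fst Z X) h * c) =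
      S.H.pull (fst Z X) h *
        S.H.pull (snd Z X) (S.H.pull (lift (toUnit X ≫ S.pt Z) (𝟙 X)) c) :=
  S.kun_pull_mul p (S.pt Z) h hh c

theorem comp_kun_top {p : ℕ} (c : S.H.R (Z ⊗ X)) (hc : c ∈ S.H.gr _ p) :
    S.H.comp (S.kun Z (2 * S.dim Z - 2 * p)) c =
      S.H.pull (fst Z X) (S.H.pull (lift (𝟙 Z) (toUnit Z ≫ S.pt X)) c) :=
  S.kun_restrict p (S.pt X) c hc

theorem act_pure {p : ℕ} (e : S.A.R (Z ⊗ Z)) (he : S.clH _ e = S.kun Z (2 * S.dim Z - 2 * p))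
    (g : S.A.R (Z ⊗ X)) (hg : S.clH _ g = 0) (d : S.D.R Z) (hd : d ∈ S.D.gr Z p)
    (q : S.A.R (Z ⊗ X)) :
    S.D.push (snd Z X) (S.cl.app _ (S.A.comp (S.A.tr e) g * q) * S.D.pull (fst Z X) d) =
      S.D.act (S.cl.app _ g) d *
        S.cl.app X (S.A.pull (lift (toUnit X ≫ S.pt Z) (𝟙 X)) q) := by
  have h1 := S.push_mul_left p e he g hg (S.pt Z) d hd (S.cl.app _ q)
  rw [S.act_comp_tr p e he g hg d hd] at h1
  rw [S.cl.app_pull, mul_comm (S.D.act _ _), ← h1, map_mul (S.cl.app _)]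
  congr 1
  ring

theorem act_pure' (hB : BB S) {p : ℕ} (e : S.A.R (Z ⊗ Z))
    (he : S.clH _ e = S.kun Z (2 * S.dim Z - 2 * p))
    (g : S.A.R (Z ⊗ X)) (hg : S.clH _ g = 0) (c : S.A.R (Z ⊗ X)) (hc : c ∈ S.A.gr _ p) :
    S.A.push (snd Z X) (S.A.comp (S.A.tr e) g * c) =
      S.A.act g (S.A.pull (lift (𝟙 Z) (toUnit Z ≫ S.pt X)) c) := by
  rw [S.push_mul_restrict p e he g hg hB (S.pt X) c hc]
  apply hB
  rw [S.cl.app_act, S.cl.app_act]
  exact S.act_comp_tr p e he g hg _ (S.cl.app_gr _ _ _ (S.A.pull_gr _ _ _ hc))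

end Pool.Agent.H40.CT
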