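import Mathlib

/-!
# Chow groups, absolute Hodge cohomology and Betti cohomology

What is used of these theories for varieties over the algebraic numbers. Everything is with rational
coefficients, all codimensions together.
-/

open CategoryTheory MonoidalCategory CartesianMonoidalCategory

universe u v w

namespace Pool.Agent.H40.CT.Stm

/-- `f` is additive -/
def IsAdd {A B : Type w} [AddCommGroup A] [AddCommGroup B] (f : A → B) : Prop :=
  ∀ a b, f (a + b) = f a + f b

/-- `f` is a ring homomorphism -/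
def IsHom {A B : Type w} [CommRing A] [CommRing B] (f : A → B) : Prop :=
  f 1 = 1 ∧ (∀ a b, f (a + b) = f a + f b) ∧ ∀ a b, f (a * b) = f a * f b

/-- the projection formula for a pull-back and a push-forward -/
def Projection {A B : Type w} [CommRing A] [CommRing B] (pull : A → B) (push : B → A) : Prop :=
  ∀ a b, push (pull a * b) = a * push b

/-- The data of a cohomology theory on a category `𝒱` with finite products (smooth projective
connected varieties): commutative `ℚ`-algebras `R X`, subspaces `gr X k` of classes of codimension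
`k`, pull-backs and push-forwards. -/
structure Theory (𝒱 : Type u) [Category.{v} 𝒱] [CartesianMonoidalCategory 𝒱] where
  R : 𝒱 → Type w
  [ring : ∀ X, CommRing (R X)]
  [alg : ∀ X, Algebra ℚ (R X)]
  gr : ∀ X, ℕ → Submodule ℚ (R X)
  pull : ∀ {Z X : 𝒱}, (Z ⟶ X) → R X → R Z
  push : ∀ {Z X : 𝒱}, (Z ⟶ X) → R Z → R X

attribute [instance] Theory.ring Theory.alg

variable {𝒱 : Type u} [Category.{v} 𝒱] [CartesianMonoidalCategory 𝒱]

namespace Theory

variable (T : Theory.{u, v, w} 𝒱)

/-- `a` is of codimension `k` -/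
def Codim {X : 𝒱} (k : ℕ) (a : T.R X) : Prop := a ∈ T.gr X k

/-- Pull-backs are functorial homomorphisms, push-forwards functorial additive maps, the projection
formula and base change along the projections `X × Y → X`. -/
structure Functorial : Prop where
  pull_hom : ∀ {Z X : 𝒱} (f : Z ⟶ X), IsHom (T.pull f)
  push_add : ∀ {Z X : 𝒱} (f : Z ⟶ X), IsAdd (T.push f)
  pull_id : ∀ X a, T.pull (𝟙 X) a = a
  pull_comp : ∀ {Y Z X : 𝒱} (f : Y ⟶ Z) (g : Z ⟶ X) a, T.pull (f ≫ g) a = T.pull f (T.pull g a)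
  push_comp : ∀ {Y Z X : 𝒱} (f : Y ⟶ Z) (g : Z ⟶ X) a, T.push (f ≫ g) a = T.push g (T.push f a)
  push_iso : ∀ {Z X : 𝒱} (e : Z ≅ X) a, T.push e.hom a = T.pull e.inv a
  push_mul : ∀ {Z X : 𝒱} (f : Z ⟶ X), Projection (T.pull f) (T.push f)
  base_change : ∀ {Z X : 𝒱} (f : Z ⟶ X) (Y : 𝒱) a,
    T.pull (fst X Y) (T.push f a) = T.push (f ▷ Y) (T.pull (fst Z Y) a)

/-- The grading by codimension: pull-backs keep it, a push-forward from `Z` to `X` raises it by
`dim X - dim Z`, classes of codimension zero are constants, the point has only constants. -/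
structure Graded (dim : 𝒱 → ℕ) : Prop where
  graded : ∀ X, Nonempty (GradedAlgebra (T.gr X))
  pull_gr : ∀ {Z X : 𝒱} (f : Z ⟶ X) k a, T.Codim k a → T.Codim k (T.pull f a)
  push_gr : ∀ {Z X : 𝒱} (f : Z ⟶ X) k l, k + dim X = l + dim Z → ∀ a, T.Codim k a →
    T.Codim l (T.push f a)
  push_gr_zero : ∀ {Z X : 𝒱} (f : Z ⟶ X) k, k + dim X < dim Z → ∀ a, T.Codim k a → T.push f a = 0
  unit_bij : Function.Bijective (algebraMap ℚ (T.R (𝟙_ 𝒱)))
  gr_zero : ∀ X a, T.Codim 0 a → ∃ q : ℚ, a = algebraMap ℚ (T.R X) q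

/-- Composition of correspondences: first `g` from `Z` to `X`, then `h` from `X` to `Y`. -/
def comp {Z X Y : 𝒱} (g : T.R (Z ⊗ X)) (h : T.R (X ⊗ Y)) : T.R (Z ⊗ Y) :=
  T.push (fst Z X ▷ Y) (T.pull (fst (Z ⊗ X) Y) g * T.pull (snd Z X ▷ Y) h)

/-- The action of a correspondence. -/
def act {Z X : 𝒱} (g : T.R (Z ⊗ X)) (a : T.R Z) : T.R X :=
  T.push (snd Z X) (g * T.pull (fst Z X) a)

/-- The class of the diagonal. -/
def diag (X : 𝒱) : T.R (X ⊗ X) := T.push (lift (𝟙 X) (𝟙 X)) 1

/-- The class `a × b` on `X × Y`. -/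
def ext {X Y : 𝒱} (a : T.R X) (b : T.R Y) : T.R (X ⊗ Y) :=
  T.pull (fst X Y) a * T.pull (snd X Y) b

/-- `a` and `b` have intersection number zero -/
def Orth {X : 𝒱} (a b : T.R X) : Prop := T.push (toUnit X) (a * b) = 0

end Theory

/-- Morphisms of theories. -/
structure IsMor (S T : Theory.{u, v, w} 𝒱) (φ : ∀ X, S.R X → T.R X) : Prop where
  hom : ∀ X, IsHom (φ X)
  pull : ∀ {Z X : 𝒱} (f : Z ⟶ X) a, φ Z (S.pull f a) = T.pull f (φ X a)
  push : ∀ {Z X : 𝒱} (f : Z ⟶ X) a, φ X (S.push f a) = T.push f (φ Z a)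
  codim : ∀ X k a, S.Codim k a → T.Codim k (φ X a)

/-- Chow groups `A`, absolute Hodge cohomology `D` and even Betti cohomology `H` of smooth projective
connected varieties over the algebraic numbers, the cycle class map `cl`, the map `bet` whose image
are the Hodge classes and whose kernel consists of groups of extensions (the intermediate Jacobians),
a point on every variety, and the Kuenneth components `kun X i` of the diagonal. -/
structure Cohomology (𝒱 : Type u) [Category.{v} 𝒱] [CartesianMonoidalCategory 𝒱] where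
  dim : 𝒱 → ℕ
  A : Theory.{u, v, w} 𝒱
  D : Theory.{u, v, w} 𝒱
  H : Theory.{u, v, w} 𝒱
  cl : ∀ X, A.R X → D.R X
  bet : ∀ X, D.R X → H.R X
  pt : ∀ X : 𝒱, 𝟙_ 𝒱 ⟶ X
  kun : ∀ X : 𝒱, ℤ → H.R (X ⊗ X)

namespace Cohomology

variable (S : Cohomology.{u, v, w} 𝒱)

/-- the class of a cycle in Betti cohomology -/
def clH (X : 𝒱) (a : S.A.R X) : S.H.R X := S.bet X (S.cl X a)

/-- The theories and the maps between them. -/
structure Basic : Prop where
  dim_unit : S.dim (𝟙_ 𝒱) = 0
  dim_prod : ∀ X Y, S.dim (X ⊗ Y) = S.dim X + S.dim Y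
  fA : S.A.Functorial
  fD : S.D.Functorial
  fH : S.H.Functorial
  gA : S.A.Graded S.dim
  gD : S.D.Graded S.dim
  gH : S.H.Graded S.dim
  cl : IsMor S.A S.D S.cl
  bet : IsMor S.D S.H S.bet

/-- Finiteness and Poincare duality. -/
structure Betti : Prop where
  fin : ∀ X, FiniteDimensional ℚ (S.H.R X)
  duality : ∀ X (a : S.H.R X), (∀ b, S.H.Orth a b) → a = 0

/-- Products of homologically trivial classes vanish in absolute Hodge cohomology; Hodge classes on
`Z × X` are homomorphisms of polarizable Hodge structures, so they have generalized inverses by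
semisimplicity. -/
structure Hodge : Prop where
  square : ∀ X (a b : S.D.R X), S.bet X a = 0 → S.bet X b = 0 → a * b = 0
  regular : ∀ {Z X : 𝒱} (g : S.D.R (Z ⊗ X)), ∃ s : S.D.R (X ⊗ Z),
    S.bet _ (S.D.comp (S.D.comp g s) g) = S.bet _ g

/-- The Kuenneth component `kun X i` of the diagonal is the projector to cohomology in degree `i`. -/
structure Kunneth : Prop where
  zero : ∀ X i, i < 0 ∨ 2 * (S.dim X : ℤ) < i → S.kun X i = 0
  sum : ∀ X, ∑ i ∈ Finset.range (2 * S.dim X + 1), S.kun X i = S.H.diag X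
  orth : ∀ X i j, i ≠ j → S.H.comp (S.kun X i) (S.kun X j) = 0
  gr : ∀ {Z X : 𝒱} (c : ℕ) (g : S.H.R (Z ⊗ X)), S.H.Codim c g → ∀ i,
    S.H.comp (S.kun Z i) g = S.H.comp g (S.kun X (i + 2 * c - 2 * S.dim Z))
  bot : ∀ X (x : 𝟙_ 𝒱 ⟶ X), S.kun X 0 = S.H.pull (fst X X) (S.H.push x 1)
  top : ∀ X (x : 𝟙_ 𝒱 ⟶ X), S.kun X (2 * S.dim X) = S.H.pull (snd X X) (S.H.push x 1)

/-- `l` is a hard Lefschetz isomorphism from degree `i` to degree `j`, with inverse `t`. -/
def LefInv (X : 𝒱) (i j : ℤ) (l t : S.H.R (X ⊗ X)) : Prop :=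
  S.H.comp (S.H.comp (S.kun X i) l) t = S.kun X i ∧
    S.H.comp (S.H.comp (S.kun X j) t) l = S.kun X j

/-- Hard Lefschetz. -/
def Lefschetz : Prop :=
  ∀ X i, i ≤ S.dim X → ∃ l : S.A.R (X ⊗ X), S.A.Codim (2 * S.dim X - i) l ∧
    ∃ t, S.LefInv X i (2 * S.dim X - i) (S.clH _ l) t

/-- What is used of Chow groups, absolute Hodge cohomology and Betti cohomology. -/
structure Axioms : Prop where
  basic : S.Basic
  betti : S.Betti
  hodge : S.Hodge
  kunneth : S.Kunneth
  lefschetz : S.Lefschetz

end Cohomology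

variable (S : Cohomology.{u, v, w} 𝒱)

/-- `b` and the classes on which the pull-backs by `f` and `g` agree generate all classes on `P`, and
`a` is the difference of the two pull-backs of `b` -/
def Differ {W P : 𝒱} (f g : W ⟶ P) (a : S.A.R W) : Prop :=
  ∃ b : S.A.R P, S.A.pull f b - S.A.pull g b = a ∧
    Algebra.adjoin ℚ (insert b {x | S.A.pull f x = S.A.pull g x}) = ⊤

/-- Products of Grassmannians: their cycle class maps are bijective, their diagonal decomposes, there
are projective spaces, and every class of positive codimension `k` on a variety `W` is a difference of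
Chern character components of globally generated vector bundles whose other Chern character
components agree. -/
structure IsCell (cell : 𝒱 → Prop) : Prop where
  unit : cell (𝟙_ 𝒱)
  prod : ∀ P Q, cell P → cell Q → cell (P ⊗ Q)
  cl_bij : ∀ P, cell P → Function.Bijective (S.cl P)
  bet_bij : ∀ P, cell P → Function.Bijective (S.bet P)
  diag : ∀ P, cell P → ∃ (n : ℕ) (x y : Fin n → S.A.R P),
    S.A.diag P = ∑ i, S.A.ext (x i) (y i)
  space : ∀ m : ℕ, ∃ P, cell P ∧ S.dim P = m ∧
    ∃ t : S.A.R P, S.A.Codim 1 t ∧ S.A.push (toUnit P) (t ^ m) = 1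
  bundles : ∀ W k, 1 ≤ k → ∀ a : S.A.R W, S.A.Codim k a →
    ∃ (P : 𝒱) (f g : W ⟶ P), cell P ∧ Differ S f g a

/-- A finite family of morphisms to `X`. -/
structure Family (X : 𝒱) where
  n : ℕ
  Z : Fin n → 𝒱
  f : ∀ i, Z i ⟶ X

/-- the classes on `X` supported on the union of the images of the family -/
def Theory.Supp (T : Theory.{u, v, w} 𝒱) {X : 𝒱} (F : Family X) (a : T.R X) : Prop :=
  ∃ z : ∀ i, T.R (F.Z i), a = ∑ i, T.push (F.f i) (z i)

/-- Chow groups `A`, absolute Hodge cohomology `D` and the cycle class map for the open subvarieties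
`V` of smooth projective varieties `X`: the complement of the union of the images of a finite family
of morphisms. -/
structure Opens where
  A : ∀ X : 𝒱, Family X → Type w
  D : ∀ X : 𝒱, Family X → Type w
  [gA : ∀ X F, AddCommGroup (A X F)]
  [gD : ∀ X F, AddCommGroup (D X F)]
  resA : ∀ X F, S.A.R X → A X F
  resD : ∀ X F, S.D.R X → D X F
  cl : ∀ X F, A X F → D X F

attribute [instance] Opens.gA Opens.gD

variable {S}

/-- Localization. -/
structure Opens.Localization (O : Opens S) : Prop where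
  resA_add : ∀ X F, IsAdd (O.resA X F)
  resD_add : ∀ X F, IsAdd (O.resD X F)
  cl_add : ∀ X F, IsAdd (O.cl X F)
  cl_res : ∀ X F a, O.cl X F (O.resA X F a) = O.resD X F (S.cl X a)
  res_surj : ∀ X F, Function.Surjective (O.resA X F)
  resA_ker : ∀ X F a, O.resA X F a = 0 ↔ S.A.Supp F a
  resD_ker : ∀ X F d, O.resD X F d = 0 ↔ S.D.Supp F d

/-- The cycle class map of every open subvariety is injective. -/
def Q1 (O : Opens S) : Prop := ∀ (X : 𝒱) (F : Family X), Function.Injective (O.cl X F)

variable (S)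

/-- For every correspondence `g` from `Z` to `X`: a cycle class on `X` in the image of the absolute
Hodge cohomology of `Z` is the image of a cycle class on `Z`. -/
def Strict : Prop :=
  ∀ (Z X : 𝒱) (g : S.A.R (Z ⊗ X)) (a : S.A.R X) (d : S.D.R Z),
    S.cl X a = S.D.act (S.cl _ g) d → ∃ z, a = S.A.act g z

/-- Injectivity of the cycle class maps of smooth projective varieties. -/
def BlochBeilinson : Prop := ∀ X, Function.Injective (S.cl X)

/-- Numerically trivial classes are homologically trivial. -/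
def ConjectureD : Prop := ∀ Z (a : S.A.R Z), (∀ b, S.A.Orth a b) → S.clH Z a = 0

/-- Homologically trivial correspondences never send an absolute Hodge class orthogonal to all cycle
classes to a nonzero cycle class. -/
def Invisible : Prop :=
  ∀ (Z X : 𝒱) (j p : ℕ) (g : S.A.R (Z ⊗ X)), S.A.Codim j g → S.clH _ g = 0 →
    ∀ d : S.D.R Z, S.D.Codim p d → (∀ z, S.D.Orth d (S.cl Z z)) →
      ∀ a, S.cl X a = S.D.act (S.cl _ g) d → S.D.act (S.cl _ g) d = 0

/-- there is an algebraic correspondence `e` which fixes `d` up to homological equivalence and is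
killed by `g` -/
def Explained {Z X : 𝒱} (g : S.A.R (Z ⊗ X)) (d : S.D.R Z) : Prop :=
  ∃ e : S.A.R (Z ⊗ Z), S.bet Z (S.D.act (S.cl _ e) d) = S.bet Z d ∧ S.A.comp e g = 0

/-- Relations between homologically trivial correspondences and absolute Hodge classes are explained
by algebraic correspondences. -/
def Kernel : Prop :=
  ∀ (Z X : 𝒱) (g : S.A.R (Z ⊗ X)), S.clH _ g = 0 →
    ∀ d : S.D.R Z, S.D.act (S.cl _ g) d = 0 → Explained S g d

/-- The same for all correspondences. -/
def KernelAll : Prop :=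
  ∀ (Z X : 𝒱) (g : S.A.R (Z ⊗ X)) (d : S.D.R Z), S.D.act (S.cl _ g) d = 0 → Explained S g d

end Pool.Agent.H40.CT.Stm
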