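import Pool.Agent.H40.CT.Cell
import Pool.Agent.H40.CT.Reg

/-!
# From the three conditions to strictness for all correspondences

Module Tot.

`invisible_tot`. To show that the part of codimension `k` of `a` vanishes let `c = k + dim Z`,
`P` from `C.space M`, `t`, where `d = ∑_(p ≤ M) d_p`. Put
`g' = ∑_j pull (fst Z P ▷ X) g_j * pull (fst (Z ⊗ P) X) (pull snd (t^(c-j)))`, of codimension `c`,
homologically trivial, and `d' = ∑_p pull fst d_p * pull snd (t^(M-p))`, of codimension `M` and
orthogonal to all cycle classes. Then `act g' d'` is the part of codimension `k` of `act g d`.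
-/

open CategoryTheory MonoidalCategory CartesianMonoidalCategory

universe u v w

namespace Pool.Agent.H40.CT

variable {𝒱 : Type u} [Category.{v} 𝒱] [CartesianMonoidalCategory 𝒱]

namespace TheoryHom

variable {dim : 𝒱 → ℕ} {S T : Theory.{u, v, w} 𝒱 dim} (φ : TheoryHom S T) {X : 𝒱}

theorem app_part (k : ℕ) (x : S.R X) : φ.app X (S.part X k x) = T.part X k (φ.app X x) := by
  obtain ⟨F, hF⟩ := S.exists_sum_part x
  have h1 : ∀ l, T.part X k (φ.app X (S.part X l x)) = if l = k then φ.app X (S.part X l x) else 0 := by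
    intro l
    split_ifs with h
    · subst h
      exact T.part_of_mem _ (φ.app_gr X _ _ (S.part_mem _ x))
    · exact T.part_of_mem_ne h (φ.app_gr X _ _ (S.part_mem _ x))
  conv_rhs => rw [hF]
  rw [map_sum, map_sum, Finset.sum_congr rfl fun l _ => h1 l, Finset.sum_ite_eq' F k]
  split_ifs with hk
  · rfl
  · have : S.part X k x = 0 := by
      conv_lhs => rw [hF]
      rw [map_sum]
      exact Finset.sum_eq_zero fun l hl =>
        S.part_of_mem_ne (by rintro rfl; exact hk hl) (S.part_mem l x)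
    rw [this, map_zero]

end TheoryHom

namespace Theory

variable {dim : 𝒱 → ℕ} (T : Theory.{u, v, w} 𝒱 dim) {X Y Z W P : 𝒱}

theorem ext_part {x y : T.R X} (h : ∀ k, T.part X k x = T.part X k y) : x = y := by
  have h1 : x - y = 0 := by
    obtain ⟨F, hF⟩ := T.exists_sum_part (x - y)
    rw [hF]
    exact Finset.sum_eq_zero fun k _ => by rw [map_sub, h k, sub_self]
  exact sub_eq_zero.1 h1

theorem part_eq_zero {k : ℕ} {x : T.R X} {E : Finset ℕ} (hE : x = ∑ k ∈ E, T.part X k x)
    (hk : k ∉ E) : T.part X k x = 0 := by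
  conv_lhs => rw [hE]
  rw [map_sum]
  exact Finset.sum_eq_zero fun l hl =>
    T.part_of_mem_ne (by rintro rfl; exact hk hl) (T.part_mem l x)

theorem deg_gr (h0 : dim (𝟙_ 𝒱) = 0) (k : ℕ) (hk : k ≠ dim X) (a : T.R X) (ha : a ∈ T.gr X k) :
    T.deg X a = 0 :=
  T.deg_eq_zero.2 (T.push_unit_gr h0 k hk a ha)

theorem deg_mul_gr (h0 : dim (𝟙_ 𝒱) = 0) {k l : ℕ} (hk : k + l ≠ dim X) (a b : T.R X)
    (ha : a ∈ T.gr X k) (hb : b ∈ T.gr X l) : T.deg X (a * b) = 0 :=
  T.deg_gr h0 (k + l) hk _ (SetLike.mul_mem_graded ha hb)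

theorem act_sum_left {ι : Type*} (s : Finset ι) (g : ι → T.R (Z ⊗ X)) (x : T.R Z) :
    T.act (∑ i ∈ s, g i) x = ∑ i ∈ s, T.act (g i) x := by
  simp only [act, Finset.sum_mul, map_sum]

theorem act_sum_right {ι : Type*} (s : Finset ι) (g : T.R (Z ⊗ X)) (x : ι → T.R Z) :
    T.act g (∑ i ∈ s, x i) = ∑ i ∈ s, T.act g (x i) := by
  simp only [act, map_sum, Finset.mul_sum]

/-- pulling back a correspondence along `q × X` -/
theorem act_pull (q : W ⟶ Z) (g : T.R (Z ⊗ X)) (u y : T.R W) :
    T.act (T.pull (q ▷ X) g * T.pull (fst W X) u) y = T.act g (T.push q (y * u)) := by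
  have h1 : T.pull (q ▷ X) g * T.pull (fst W X) u * T.pull (fst W X) y =
      T.pull (q ▷ X) g * T.pull (fst W X) (y * u) := by rw [map_mul (T.pull (fst W X))]; ring
  have h2 : snd W X = q ▷ X ≫ snd Z X := by simp
  rw [act, act, h1, h2, T.push_comp, T.push_mul, T.base_change]

theorem push_fst_pull_snd' (Z X : 𝒱) (a : T.R X) :
    T.push (fst Z X) (T.pull (snd Z X) a) = algebraMap ℚ _ (T.deg X a) := by
  rw [← T.push_snd_tr, tr, ← T.pull_comp]
  have : lift (snd X Z) (fst X Z) ≫ snd Z X = fst X Z := by simp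
  rw [this, T.push_snd_pull_fst]

/-- the part of codimension `k` of the action of a homogeneous correspondence on a homogeneous
class -/
theorem part_act_part (hd : ∀ X Y : 𝒱, dim (X ⊗ Y) = dim X + dim Y) {j p k : ℕ} (g : T.R (Z ⊗ X))
    (hg : g ∈ T.gr _ j) (x : T.R Z) (hx : x ∈ T.gr _ p) :
    T.part X k (T.act g x) = if j + p = k + dim Z then T.act g x else 0 := by
  split_ifs with h
  · exact T.part_of_mem k (T.act_gr hd g _ hg hx h)
  · by_cases h2 : j + p < dim Z
    · rw [T.act_gr_zero hd g _ hg hx h2, map_zero]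
    · exact T.part_of_mem_ne (l := j + p - dim Z) (by omega)
        (T.act_gr hd g _ hg hx (by omega))

end Theory

variable (S : Cohomology.{u, v, w} 𝒱) {X Y Z : 𝒱}

theorem Cohomology.clH_part (k : ℕ) (x : S.A.R X) :
    S.clH X (S.A.part X k x) = S.H.part X k (S.clH X x) := by
  rw [Cohomology.clH_apply, S.cl.app_part, S.bet.app_part]; rfl

/-- The parts of a class orthogonal to all cycle classes are orthogonal to all cycle classes. -/
theorem Cohomology.orthogonal_part {d : S.D.R Z} (hd : ∀ z, S.D.deg Z (d * S.cl.app Z z) = 0) (p : ℕ)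
    (z : S.A.R Z) : S.D.deg Z (S.D.part Z p d * S.cl.app Z z) = 0 := by
  obtain ⟨F, hF⟩ := S.A.exists_sum_part z
  rw [hF, map_sum, Finset.mul_sum, map_sum]
  refine Finset.sum_eq_zero fun q _ => ?_
  by_cases hpq : p + q = S.dim Z
  · have h2 := hd (S.A.part Z q z)
    obtain ⟨E, hE⟩ := S.D.exists_sum_part d
    have h3 : ∀ r, r ≠ p → S.D.deg Z (S.D.part Z r d * S.cl.app Z (S.A.part Z q z)) = 0 :=
      fun r hr => S.D.deg_mul_gr S.dim_unit (by omega) _ _ (S.D.part_mem r d)
        (S.cl.app_gr _ _ _ (S.A.part_mem q z))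
    by_cases hp : p ∈ E
    · rw [hE, Finset.sum_mul, map_sum, Finset.sum_eq_single p (fun r _ hr => h3 r hr)
        (fun h => absurd hp h)] at h2
      exact h2
    · rw [S.D.part_eq_zero hE hp, zero_mul, map_zero]
  · exact S.D.deg_mul_gr S.dim_unit hpq _ _ (S.D.part_mem p d)
      (S.cl.app_gr _ _ _ (S.A.part_mem q z))

/-- `Invisible` without homogeneity. -/
theorem invisible_tot (C : Cells S) (hB : BB S) (hI : Invisible S) (g : S.A.R (Z ⊗ X))
    (hg : S.clH _ g = 0) (d : S.D.R Z) (hd : ∀ z, S.D.deg Z (d * S.cl.app Z z) = 0) (a : S.A.R X)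
    (ha : S.cl.app X a = S.D.act (S.cl.app _ g) d) : a = 0 := by
  refine S.A.ext_part fun k => ?_
  rw [map_zero]
  obtain ⟨E, hE⟩ := S.D.exists_sum_part d
  obtain ⟨F, hF⟩ := S.A.exists_sum_part g
  set M := E.sup id with hM
  have hEM : ∀ p ∈ E, p ≤ M := fun p hp => Finset.le_sup (f := id) hp
  obtain ⟨P, hP, hdim, t, ht, htM⟩ := C.space M
  have htdeg : S.A.deg P (t ^ M) = 1 := by
    apply S.A.unit_bij.1
    rw [S.A.algebraMap_deg, htM, map_one]
  have htn : ∀ n, n ≠ M → S.A.deg P (t ^ n) = 0 := fun n hn =>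
    S.A.deg_gr S.dim_unit n (by omega) _ (by simpa using SetLike.pow_mem_graded n ht)
  set c := k + S.dim Z with hc
  -- the homogeneous correspondence from `Z × P` to `X`
  set g' : S.A.R ((Z ⊗ P) ⊗ X) := ∑ j ∈ F.filter (· ≤ c),
    S.A.pull (fst Z P ▷ X) (S.A.part _ j g) *
      S.A.pull (fst (Z ⊗ P) X) (S.A.pull (snd Z P) (t ^ (c - j))) with hg'
  -- the homogeneous class on `Z × P`
  set d' : S.D.R (Z ⊗ P) := ∑ p ∈ E, S.D.pull (fst Z P) (S.D.part _ p d) *
    S.D.pull (snd Z P) (S.cl.app P (t ^ (M - p))) with hd'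
  -- compare the actions
  have hact : S.cl.app X (S.A.part X k a) = S.D.act (S.cl.app _ g') d' := by
    have h1 : S.D.act (S.cl.app _ g') d' = ∑ j ∈ F, ∑ p ∈ E,
        if j + p = c then S.D.act (S.cl.app _ (S.A.part _ j g)) (S.D.part _ p d) else 0 := by
      rw [hg', map_sum, S.D.act_sum_left, Finset.sum_filter]
      refine Finset.sum_congr rfl fun j _ => ?_
      split_ifs with hj
      · rw [hd', S.D.act_sum_right]
        refine Finset.sum_congr rfl fun p hp => ?_
        rw [map_mul, S.cl.app_pull, S.cl.app_pull, S.D.act_pull, mul_assoc,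
          S.cl.app_pull, ← map_mul (S.D.pull (snd Z P)), ← map_mul (S.cl.app P), ← pow_add,
          S.D.push_mul, S.D.push_fst_pull_snd', S.cl.app_deg]
        have hpM := hEM p hp
        by_cases hjp : j + p = c
        · rw [if_pos hjp, show M - p + (c - j) = M by omega, htdeg, map_one, mul_one]
        · rw [if_neg hjp, htn _ (by omega), map_zero, mul_zero, S.D.act_zero_right]
      · symm
        refine Finset.sum_eq_zero fun p _ => ?_
        rw [if_neg (by omega)]
    rw [h1, S.cl.app_part, ha]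
    conv_lhs => rw [hF, hE]
    rw [map_sum, S.D.act_sum_left, map_sum]
    refine Finset.sum_congr rfl fun j _ => ?_
    rw [S.D.act_sum_right, map_sum]
    refine Finset.sum_congr rfl fun p _ => ?_
    rw [S.D.part_act_part S.dim_prod _ (S.cl.app_gr _ _ _ (S.A.part_mem j g)) _
      (S.D.part_mem p d)]
  apply hB X
  rw [map_zero, hact]
  refine hI (Z ⊗ P) X c M g' ?_ ?_ d' ?_ ?_ _ hact
  · refine sum_mem fun j hj => ?_
    have h1 : j + (c - j) = c := by have := (Finset.mem_filter.1 hj).2; omega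
    have h2 := SetLike.mul_mem_graded (S.A.pull_gr (fst Z P ▷ X) _ _ (S.A.part_mem j g))
      (S.A.pull_gr (fst (Z ⊗ P) X) _ _ (S.A.pull_gr (snd Z P) _ _
        (SetLike.pow_mem_graded (c - j) ht)))
    rwa [smul_eq_mul, mul_one, h1] at h2
  · change S.clH _ g' = 0
    rw [hg', map_sum]
    refine Finset.sum_eq_zero fun j _ => ?_
    rw [map_mul, Cohomology.clH_apply, S.cl.app_pull, S.bet.app_pull, ← Cohomology.clH_apply, S.clH_part, hg, map_zero,
      map_zero, zero_mul]
  · refine sum_mem fun p hp => ?_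
    have h1 : p + (M - p) = M := by have := hEM p hp; omega
    have h2 := SetLike.mul_mem_graded (S.D.pull_gr (fst Z P) _ _ (S.D.part_mem p d))
      (S.D.pull_gr (snd Z P) _ _ (S.cl.app_gr _ _ _ (SetLike.pow_mem_graded (M - p) ht)))
    rwa [smul_eq_mul, mul_one, h1] at h2
  · intro z
    rw [← S.D.deg_eq_zero, hd', Finset.sum_mul, map_sum]
    refine Finset.sum_eq_zero fun p _ => ?_
    rw [mul_assoc, ← S.cl.app_pull, ← map_mul, ← S.D.deg_push (fst Z P), S.D.push_mul,
      ← S.cl.app_push]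
    exact S.orthogonal_part hd p _

end Pool.Agent.H40.CT
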