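import Pool.Agent.H40.CT.Main
import Pool.Agent.H40.CT.Stm

/-!
# Translation of `Stm` into the structures used in the proofs

Module Trans (helper40).
-/

open CategoryTheory MonoidalCategory CartesianMonoidalCategory

universe u v w

namespace Pool.Agent.H40.CT

namespace Stm

/-- the algebra homomorphism -/
def algHom {A B : Type w} [CommRing A] [CommRing B] [Algebra ℚ A] [Algebra ℚ B] {f : A → B}
    (h : IsHom f) : A →ₐ[ℚ] B :=
  RingHom.toRatAlgHom
    { toFun := f
      map_one' := h.1
      map_mul' := h.2.2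
      map_zero' := by
        have := h.2.1 0 0
        rw [add_zero] at this
        exact (add_eq_left.1 this.symm)
      map_add' := h.2.1 }

@[simp] theorem algHom_apply {A B : Type w} [CommRing A] [CommRing B] [Algebra ℚ A] [Algebra ℚ B]
    {f : A → B} (h : IsHom f) (a : A) : algHom h a = f a := rfl

/-- the linear map -/
def linMap {A B : Type w} [AddCommGroup A] [AddCommGroup B] [Module ℚ A] [Module ℚ B] {f : A → B}
    (h : IsAdd f) : A →ₗ[ℚ] B :=
  (AddMonoidHom.mk' f h).toRatLinearMap

@[simp] theorem linMap_apply {A B : Type w} [AddCommGroup A] [AddCommGroup B] [Module ℚ A]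
    [Module ℚ B] {f : A → B} (h : IsAdd f) (a : A) : linMap h a = f a := rfl

variable {𝒱 : Type u} [Category.{v} 𝒱] [CartesianMonoidalCategory 𝒱] {dim : 𝒱 → ℕ}

/-- the theory used in the proofs -/
noncomputable def Theory.old (T : Theory.{u, v, w} 𝒱) (hF : T.Functorial) (hG : T.Graded dim) :
    CT.Theory.{u, v, w} 𝒱 dim where
  R := T.R
  ring := T.ring
  alg := T.alg
  gr := T.gr
  graded X := (hG.graded X).some
  pull f := algHom (hF.pull_hom f)
  push f := linMap (hF.push_add f)
  pull_id X a := hF.pull_id X a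
  pull_comp f g a := hF.pull_comp f g a
  push_comp f g a := hF.push_comp f g a
  push_iso e a := hF.push_iso e a
  pull_gr f k a ha := hG.pull_gr f k a ha
  push_gr f k l h a ha := hG.push_gr f k l h a ha
  push_gr_zero f k h a ha := hG.push_gr_zero f k h a ha
  push_mul f a b := hF.push_mul f a b
  base_change f Y a := hF.base_change f Y a
  unit_bij := hG.unit_bij
  gr_zero X a ha := hG.gr_zero X a ha

/-- the morphism used in the proofs -/
noncomputable def IsMor.old {S T : Theory.{u, v, w} 𝒱} {φ : ∀ X, S.R X → T.R X}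
    (h : IsMor S T φ) (fS : S.Functorial) (fT : T.Functorial) (gS : S.Graded dim)
    (gT : T.Graded dim) : CT.TheoryHom (S.old fS gS) (T.old fT gT) where
  app X := algHom (h.hom X)
  app_pull f a := h.pull f a
  app_push f a := h.push f a
  app_gr X k a ha := h.codim X k a ha

variable (S : Cohomology.{u, v, w} 𝒱)

/-- the structure used in the proofs -/
noncomputable def Cohomology.old (h : S.Axioms) : CT.Cohomology.{u, v, w} 𝒱 where
  dim := S.dim
  dim_unit := h.basic.dim_unit
  dim_prod := h.basic.dim_prod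
  A := S.A.old h.basic.fA h.basic.gA
  D := S.D.old h.basic.fD h.basic.gD
  H := S.H.old h.basic.fH h.basic.gH
  cl := h.basic.cl.old h.basic.fA h.basic.fD h.basic.gA h.basic.gD
  bet := h.basic.bet.old h.basic.fD h.basic.fH h.basic.gD h.basic.gH
  mul_eq_zero X a b ha hb := h.hodge.square X a b ha hb
  pt := S.pt
  finH := h.betti.fin
  duality X a ha := h.betti.duality X a ha
  regular g := h.hodge.regular g
  kun := S.kun
  kun_zero := h.kunneth.zero
  kun_sum X := h.kunneth.sum X
  kun_orth X i j hij := h.kunneth.orth X i j hij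
  kun_gr c g hg i := h.kunneth.gr c g hg i
  kun_bot X x := h.kunneth.bot X x
  kun_top X x := h.kunneth.top X x
  lefschetz X i hi := by
    obtain ⟨l, hl, t, ht⟩ := h.lefschetz X i hi
    exact ⟨l, hl, t, ht⟩

/-- products of Grassmannians as used in the proofs -/
def IsCell.old {S : Cohomology.{u, v, w} 𝒱} {cell : 𝒱 → Prop} (hC : IsCell S cell)
    (h : S.Axioms) : CT.Cells (S.old h) where
  cell := cell
  cell_unit := hC.unit
  cell_prod := hC.prod
  cl_bij := hC.cl_bij
  bet_bij := hC.bet_bij
  diag P hP := hC.diag P hP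
  space m := by
    obtain ⟨P, hP, hm, t, ht, ht1⟩ := hC.space m
    exact ⟨P, hP, hm, t, ht, ht1⟩
  bundles W k hk a ha := by
    obtain ⟨P, f, g, hP, b, hb, hb2⟩ := hC.bundles W k hk a ha
    exact ⟨P, f, g, b, hP, hb, hb2⟩

end Stm

section

variable {𝒱 : Type u} [Category.{v} 𝒱] [CartesianMonoidalCategory 𝒱]

/-- the canonical theory of open varieties -/
noncomputable def Opens.canon (S : Cohomology.{u, v, w} 𝒱) : Opens S where
  A X F := S.A.R X ⧸ (⨆ i, LinearMap.range (S.A.push (F.f i)) : Submodule ℚ (S.A.R X))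
  D X F := S.D.R X ⧸ (⨆ i, LinearMap.range (S.D.push (F.f i)) : Submodule ℚ (S.D.R X))
  resA X F := Submodule.mkQ _
  resD X F := Submodule.mkQ _
  cl X F := Submodule.mapQ _ _ (S.cl.app X).toLinearMap (by
    rw [iSup_le_iff]
    rintro i _ ⟨z, rfl⟩
    refine Submodule.mem_comap.2 (Submodule.mem_iSup_of_mem i ⟨S.cl.app _ z, ?_⟩)
    exact (S.cl.app_push (F.f i) z).symm)
  cl_res X F a := rfl
  res_surj X F := Submodule.mkQ_surjective _
  resA_ker X F := Submodule.ker_mkQ _
  resD_ker X F := Submodule.ker_mkQ _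

end

namespace Stm

variable {𝒱 : Type u} [Category.{v} 𝒱] [CartesianMonoidalCategory 𝒱]
  {S : Cohomology.{u, v, w} 𝒱}

theorem IsAdd.map_zero {A B : Type w} [AddCommGroup A] [AddCommGroup B] {f : A → B}
    (h : IsAdd f) : f 0 = 0 := by
  have := h 0 0
  rw [add_zero] at this
  exact add_eq_left.1 this.symm

theorem IsAdd.map_sub {A B : Type w} [AddCommGroup A] [AddCommGroup B] {f : A → B}
    (h : IsAdd f) (a b : A) : f (a - b) = f a - f b := by
  have := h (a - b) b
  rw [sub_add_cancel] at this
  rw [this, add_sub_cancel_right]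

theorem q1_iff_supp {O : Opens S} (hO : O.Localization) : Q1 O ↔ ∀ (X : 𝒱) (F : Family X)
    (a : S.A.R X), S.D.Supp F (S.cl X a) → S.A.Supp F a := by
  refine forall₂_congr fun X F => ?_
  simp only [← hO.resA_ker, ← hO.resD_ker, ← hO.cl_res]
  constructor
  · intro h a ha
    apply h
    rw [ha, (hO.cl_add X F).map_zero]
  · intro h x y hxy
    obtain ⟨a, ha⟩ := hO.res_surj X F (x - y)
    have h1 := h a (by rw [ha, (hO.cl_add X F).map_sub, hxy, sub_self])
    rw [ha] at h1
    exact sub_eq_zero.1 h1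

theorem q1_iff_old (h : S.Axioms) {O : Opens S} (hO : O.Localization) :
    Q1 O ↔ CT.Q1 (S.old h) (CT.Opens.canon (S.old h)) := by
  rw [q1_iff_supp hO, CT.q1_iff]
  constructor
  · intro h1 X F a
    rw [mem_iSup_range_iff, mem_iSup_range_iff]
    exact h1 X ⟨F.n, F.Z, F.f⟩ a
  · intro h1 X F a ha
    exact (mem_iSup_range_iff (fun i => (S.old h).A.push (F.f i)) a).1
      (h1 X ⟨F.n, F.Z, F.f⟩ a
        ((mem_iSup_range_iff (fun i => (S.old h).D.push (F.f i)) (S.cl X a)).2 ha))

theorem main (S : Cohomology.{u, v, w} 𝒱) (h : S.Axioms) (cell : 𝒱 → Prop) (hC : IsCell S cell)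
    (O : Opens S) (hO : O.Localization) :
    List.TFAE [Q1 O, Strict S, BlochBeilinson S ∧ ConjectureD S ∧ Invisible S,
      ConjectureD S ∧ Kernel S, ConjectureD S ∧ KernelAll S] := by
  have key := CT.main (S.old h) (hC.old h) (CT.Opens.canon (S.old h))
  rw [← q1_iff_old h hO] at key
  exact key

end Stm

end Pool.Agent.H40.CT
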