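import Pool.Agent.H40.CT.One
import Pool.Agent.H40.CT.Part
import Pool.Agent.H40.CT.Cell
import Pool.Agent.H40.CT.Pur

/-!
# Homologically trivial correspondences and open varieties

Module Vis.

`exists_of_q1`. If `g` is zero (in particular if `j = 0`) nothing is to be shown. `e` of
codimension `dim Z` with `clH e = kun Z (2 dim Z - 2p)` (`exists_kun`), `g' = comp (tr e) g` of
codimension `j`, homologically trivial. `W = Z ⊗ X`. `bundles` for `g'`: `P`, `f₁ f₂ : W ⟶ P`, `b`.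
`exists_cell_map`: `Q`, `k : W ⟶ Q`. `Y = X ⊗ (P ⊗ Q)`, `F_i = lift (snd Z X) (lift f_i k)`.
`η = push F₁ (pull fst d) - push F₂ (pull fst d)`. For `m` on `P ⊗ Q` the slot
`push fst (η * pull snd m)` is by `slot` and `diff_ideal` equal to `push snd (g' q * pull fst d)`,
by `act_pure` equal to `act g d * cl (q restricted to X) = cl (a * ..)`. By `decompose` for the cell
`P ⊗ Q`, `η = cl y`. `q1_iff`: `y = push F₁ c₁ + push F₂ c₂`. By `BB` the slots of `y` are the
algebraic classes found before. For `m` pulled back from `Q` both pull-backs agree, so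
`push snd ((c₁ + c₂) * pull k x) = 0` for all `x`; so `δ = c₁ + c₂` is numerically trivial on `W`
(every class on `W` is homologically equivalent to some `pull k x`, and `deg (δ * hom. trivial) = 0`),
so homologically trivial, and `push snd (δ * β) = 0` for every `β` (write `β = pull k x + ν`, `δ ν = 0`
by `mul_zero_of_BB`). The slot of `b`: `push snd (c₁ * pull f₁ b + c₂ * pull f₂ b) = a`, so
`a = push snd (δ * pull f₂ b) + push snd (c₁ * g') = push snd (g' * c₁)`. Compare components of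
codimension `p + j - dim Z`: `a` is homogeneous of that codimension (`act_gr`, `BB`; if
`p + j < dim Z` then `a = 0`), so `c₁` may be replaced by its component of codimension `p`; then
`act_pure'` gives `a = act g z`.
-/

open CategoryTheory MonoidalCategory CartesianMonoidalCategory

universe u v w

namespace Pool.Agent.H40.CT

variable {𝒱 : Type u} [Category.{v} 𝒱] [CartesianMonoidalCategory 𝒱]
  (S : Cohomology.{u, v, w} 𝒱) (O : Opens S) {X Z : 𝒱}

/-- the components of a product with a homogeneous factor -/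
private theorem part_mul (T : Theory.{u, v, w} 𝒱 S.dim) {j p : ℕ} (g : T.R X) (hg : g ∈ T.gr X j)
    (c : T.R X) : T.part X (j + p) (g * c) = g * T.part X p c := by
  refine T.hom_ind (p := fun c => T.part X (j + p) (g * c) = g * T.part X p c) ?_ ?_ ?_ c
  · simp only [map_zero, mul_zero]
  · intro a b ha hb
    simp only [mul_add, map_add, ha, hb]
  · intro l a ha
    have h1 : g * a ∈ T.gr X (j + l) := SetLike.mul_mem_graded hg ha
    by_cases h : l = p
    · subst h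
      rw [T.part_of_mem l ha, T.part_of_mem _ h1]
    · rw [T.part_of_mem_ne h ha, T.part_of_mem_ne (by omega) h1, mul_zero]

private theorem eq_zero_of_gr_zero (g : S.A.R X) (hg : g ∈ S.A.gr X 0) (h : S.clH X g = 0) :
    g = 0 := by
  obtain ⟨q, rfl⟩ := S.A.gr_zero X g hg
  have h1 : S.A.deg X (algebraMap ℚ _ q * S.A.push (S.pt X) 1) = 0 := by
    rw [← S.deg_clH, map_mul, h, zero_mul, map_zero]
  have h2 : S.A.deg (𝟙_ 𝒱) 1 = 1 := by
    apply S.A.unit_bij.1
    rw [S.A.algebraMap_deg, show toUnit (𝟙_ 𝒱) = 𝟙 _ from Subsingleton.elim _ _,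
      S.A.push_id, map_one]
  rw [← Algebra.smul_def, map_smul, S.A.deg_push, h2, smul_eq_mul, mul_one] at h1
  rw [h1, map_zero]

theorem exists_of_q1 (C : Cells S) (hN : ∀ Z, NumHom S Z) (h : Q1 S O) {j p : ℕ} (g : S.A.R (Z ⊗ X))
    (hg : g ∈ S.A.gr _ j) (hg0 : S.clH _ g = 0) (d : S.D.R Z) (hd : d ∈ S.D.gr Z p) (a : S.A.R X)
    (ha : S.cl.app X a = S.D.act (S.cl.app _ g) d) : ∃ z ∈ S.A.gr Z p, a = S.A.act g z := by
  have hB := bb_of_q1 S O h
  -- degrees
  by_cases hlow : j + p < S.dim Z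
  · have h1 : S.cl.app X a = 0 := by
      rw [ha]
      exact S.D.act_gr_zero S.dim_prod _ d (S.cl.app_gr _ _ _ hg) hd hlow
    have h2 : a = 0 := hB X (by rw [h1, map_zero])
    exact ⟨0, zero_mem _, by rw [h2, S.A.act_zero_right]⟩
  rcases Nat.eq_zero_or_pos j with hj | hj
  · subst hj
    have h1 := eq_zero_of_gr_zero S g hg hg0
    rw [h1, map_zero, S.D.act_zero_left] at ha
    have h2 : a = 0 := hB X (by rw [ha, map_zero])
    exact ⟨0, zero_mem _, by rw [h2, S.A.act_zero_right]⟩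
  obtain ⟨k, hk⟩ : ∃ k, j + p = k + S.dim Z := ⟨j + p - S.dim Z, by omega⟩
  obtain ⟨e, he, hek⟩ := S.exists_kun hN Z (2 * S.dim Z - 2 * p)
  set g' := S.A.comp (S.A.tr e) g with hg'def
  have hg' : g' ∈ S.A.gr _ j :=
    S.A.comp_gr S.dim_prod _ _ (S.A.tr_gr e he) hg (by omega)
  obtain ⟨P, f₁, f₂, b, hP, hb, hgen⟩ := C.bundles (Z ⊗ X) j hj g' hg'
  obtain ⟨Q, l, hQ, hQs⟩ := exists_cell_map S C (Z ⊗ X)
  set F₁ : Z ⊗ X ⟶ X ⊗ (P ⊗ Q) := lift (snd Z X) (lift f₁ l) with hF₁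
  set F₂ : Z ⊗ X ⟶ X ⊗ (P ⊗ Q) := lift (snd Z X) (lift f₂ l) with hF₂
  set y := S.D.push F₁ (S.D.pull (fst Z X) d) - S.D.push F₂ (S.D.pull (fst Z X) d) with hy
  -- the coordinates of `y`
  have slotD : ∀ (m : S.A.R (P ⊗ Q)) (q : S.A.R (Z ⊗ X)),
      S.A.pull (lift f₁ l) m - S.A.pull (lift f₂ l) m = g' * q →
      S.D.push (fst X (P ⊗ Q)) (y * S.D.pull (snd X (P ⊗ Q)) (S.cl.app _ m)) =
        S.cl.app X (a * S.A.pull (lift (toUnit X ≫ S.pt Z) (𝟙 X)) q) := by
    intro m q hq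
    rw [hy, sub_mul, map_sub, hF₁, hF₂, S.D.slot, S.D.slot, ← map_sub, ← mul_sub, ← S.cl.app_pull,
      ← S.cl.app_pull, ← map_sub, hq, mul_comm, act_pure S e hek g hg0 d hd q, ← ha, map_mul]
  obtain ⟨Y, hY⟩ := C.exists_of_slots (C.cell_prod P Q hP hQ) y (fun m => by
    obtain ⟨q, hq⟩ := diff_ideal S C f₁ f₂ l hQ g' b hb hgen m
    exact ⟨_, slotD m q hq⟩)
  -- the open variety
  obtain ⟨c₁, c₂, hYc⟩ : ∃ c₁ c₂, Y = S.A.push F₁ c₁ + S.A.push F₂ c₂ := by
    let Fam : Family (X ⊗ (P ⊗ Q)) := ⟨2, fun _ => Z ⊗ X, fun i => if i = 0 then F₁ else F₂⟩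
    have h1 : S.cl.app _ Y ∈
        (⨆ i, LinearMap.range (S.D.push (Fam.f i)) : Submodule ℚ (S.D.R (X ⊗ (P ⊗ Q)))) := by
      rw [← hY, hy]
      refine Submodule.sub_mem _ (Submodule.mem_iSup_of_mem (0 : Fin 2) ⟨_, rfl⟩)
        (Submodule.mem_iSup_of_mem (1 : Fin 2) ⟨S.D.pull (fst Z X) d, rfl⟩)
    have h2 := (q1_iff S O).1 h _ Fam Y h1
    have h3 : (⨆ i, LinearMap.range (S.A.push (Fam.f i)) : Submodule ℚ (S.A.R (X ⊗ (P ⊗ Q)))) ≤
        LinearMap.range (S.A.push F₁) ⊔ LinearMap.range (S.A.push F₂) := by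
      refine iSup_le fun i => ?_
      change LinearMap.range (S.A.push (if i = 0 then F₁ else F₂)) ≤ _
      by_cases hi : i = 0
      · rw [if_pos hi]; exact le_sup_left
      · rw [if_neg hi]; exact le_sup_right
    obtain ⟨_, ⟨c₁, rfl⟩, _, ⟨c₂, rfl⟩, h4⟩ := Submodule.mem_sup.1 (h3 h2)
    exact ⟨c₁, c₂, h4.symm⟩
  -- the coordinates of `Y`
  have slotA : ∀ (m : S.A.R (P ⊗ Q)) (q : S.A.R (Z ⊗ X)),
      S.A.pull (lift f₁ l) m - S.A.pull (lift f₂ l) m = g' * q →
      S.A.push (snd Z X) (c₁ * S.A.pull (lift f₁ l) m) +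
        S.A.push (snd Z X) (c₂ * S.A.pull (lift f₂ l) m) =
        a * S.A.pull (lift (toUnit X ≫ S.pt Z) (𝟙 X)) q := by
    intro m q hq
    apply hB X
    have h1 : S.A.push (fst X (P ⊗ Q)) (Y * S.A.pull (snd X (P ⊗ Q)) m) =
        S.A.push (snd Z X) (c₁ * S.A.pull (lift f₁ l) m) +
        S.A.push (snd Z X) (c₂ * S.A.pull (lift f₂ l) m) := by
      rw [hYc, add_mul, map_add, hF₁, hF₂, S.A.slot, S.A.slot]
    rw [← slotD m q hq, ← h1, S.cl.app_push, map_mul, S.cl.app_pull, hY]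
  set δ := c₁ + c₂ with hδdef
  have hδ1 : ∀ x : S.A.R Q, S.A.push (snd Z X) (δ * S.A.pull l x) = 0 := by
    intro x
    have h1 := slotA (S.A.pull (snd P Q) x) 0 (by
      rw [← S.A.pull_comp, ← S.A.pull_comp, lift_snd, lift_snd, sub_self, mul_zero])
    rw [← S.A.pull_comp, ← S.A.pull_comp, lift_snd, lift_snd, map_zero, mul_zero, ← map_add,
      ← add_mul] at h1
    exact h1
  have hδ0 : S.clH _ δ = 0 := by
    refine (S.numHom_iff _).1 (hN _) δ fun β => ?_
    obtain ⟨x, hx⟩ := hQs β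
    rw [← S.deg_clH, map_mul, ← hx, ← map_mul, S.deg_clH, ← S.A.deg_push (snd Z X), hδ1 x, map_zero]
  have hδ : ∀ β, S.A.push (snd Z X) (δ * β) = 0 := by
    intro β
    obtain ⟨x, hx⟩ := hQs β
    have h1 : δ * (β - S.A.pull l x) = 0 :=
      mul_zero_of_BB S hB _ _ hδ0 (by rw [map_sub, hx, sub_self])
    rw [mul_sub, sub_eq_zero] at h1
    rw [h1, hδ1]
  -- the coordinate of `b`
  have ha1 : a = S.A.push (snd Z X) (g' * c₁) := by
    have h1 := slotA (S.A.pull (fst P Q) b) 1 (by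
      rw [← S.A.pull_comp, ← S.A.pull_comp, lift_fst, lift_fst, hb, mul_one])
    rw [← S.A.pull_comp, ← S.A.pull_comp, lift_fst, lift_fst, map_one, mul_one, ← map_add] at h1
    have h2 : c₁ * S.A.pull f₁ b + c₂ * S.A.pull f₂ b = g' * c₁ + δ * S.A.pull f₂ b := by
      rw [← hb, hδdef]; ring
    rw [h2, map_add, hδ, add_zero] at h1
    exact h1.symm
  -- homogeneous components
  have ha2 : S.A.part X k a = a := by
    apply hB X
    rw [← S.cl.part_app, ha]
    exact S.D.part_of_mem k (S.D.act_gr S.dim_prod _ _ (S.cl.app_gr _ _ _ hg) hd hk)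
  have ha3 : a = S.A.push (snd Z X) (g' * S.A.part _ p c₁) := by
    have h1 : ∀ G : S.A.R (Z ⊗ X), S.A.push (snd Z X) G = S.A.act G 1 := fun G => by
      rw [Theory.act, map_one, mul_one]
    rw [h1, ← part_mul S S.A g' hg' c₁, ← S.A.part_act S.dim_prod (g' * c₁) 1
      (show (1 : S.A.R Z) ∈ S.A.gr Z 0 from SetLike.one_mem_graded _) (show j + p + 0 = k + S.dim Z
        by omega), ← h1, ← ha1, ha2]
  refine ⟨S.A.pull (lift (𝟙 Z) (toUnit Z ≫ S.pt X)) (S.A.part _ p c₁),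
    S.A.pull_gr _ _ _ (S.A.part_mem p c₁), ?_⟩
  rw [← act_pure' S hB e hek g hg0 _ (S.A.part_mem p c₁)]
  exact ha3

end Pool.Agent.H40.CT
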